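import Pool.Agent.Neu.Defs

/-! NEU-ODE: two integral identities for the profile and simple bounds. -/

set_option autoImplicit false

open MeasureTheory Set

namespace Pool.Agent.Neu

variable {K : ℝ} {φ ψ : ℝ → ℝ}

theorem Prof.phi_cont (h : Prof K φ ψ) : Continuous φ :=
  continuous_iff_continuousAt.2 fun s => (h.deriv s).continuousAt

private theorem Prof.phi_one (h : Prof K φ ψ) : φ 1 = 1 := by
  rw [h.out 1 le_rfl]; simp

private theorem Prof.psi_one (h : Prof K φ ψ) : ψ 1 = -1 / 2 := by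
  rw [h.outd 1 le_rfl]; simp

/-- `F = 2 s φ (φ + 2 s ψ)` has derivative `(φ + 2 s ψ)^2 + φ^2 - K s φ^2`, `F 0 = F 1 = 0`. -/
theorem Prof.int1 (h : Prof K φ ψ) :
    ∫ s in (0 : ℝ)..1, ((φ s + 2 * s * ψ s) ^ 2 + φ s ^ 2)
      = K * ∫ s in (0 : ℝ)..1, s * φ s ^ 2 := by
  have hφ := h.phi_cont
  have hψ := h.cont
  have hc1 : Continuous fun s => (φ s + 2 * s * ψ s) ^ 2 + φ s ^ 2 := by fun_prop
  have hc2 : Continuous fun s : ℝ => s * φ s ^ 2 := by fun_prop
  have key : ∫ s in (0 : ℝ)..1, (((φ s + 2 * s * ψ s) ^ 2 + φ s ^ 2) - K * (s * φ s ^ 2)) = 0 := by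
    have hcF : Continuous fun s : ℝ => 2 * s * φ s ^ 2 + 4 * (s ^ 2 * ψ s) * φ s := by fun_prop
    rw [intervalIntegral.integral_eq_sub_of_hasDerivAt_of_le
      (f := fun s : ℝ => 2 * s * φ s ^ 2 + 4 * (s ^ 2 * ψ s) * φ s) zero_le_one
      hcF.continuousOn]
    · simp only [h.phi_one, h.psi_one]; norm_num
    · intro s hs
      have h1 := h.deriv s
      have h2 := h.ode s hs.2
      have h3 : HasDerivAt (fun s : ℝ => 2 * s) 2 s := by
        simpa using (hasDerivAt_id s).const_mul (2 : ℝ)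
      have h4 := (h3.mul (h1.pow 2)).add ((h2.const_mul (4 : ℝ)).mul h1)
      refine h4.congr_deriv ?_
      simp only [Nat.cast_ofNat, Pi.pow_apply]
      ring
    · exact (hc1.sub (hc2.const_mul K)).intervalIntegrable _ _
  rw [intervalIntegral.integral_sub (hc1.intervalIntegrable _ _)
    ((hc2.const_mul K).intervalIntegrable _ _), intervalIntegral.integral_const_mul] at key
  linarith

/-- `G = s (φ + 2 s ψ)^2 + (K s - 1) s φ^2` has derivative `K s φ^2`, `G 0 = 0`, `G 1 = K - 1`. -/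
theorem Prof.int2 (h : Prof K φ ψ) :
    K * ∫ s in (0 : ℝ)..1, s * φ s ^ 2 = K - 1 := by
  have hφ := h.phi_cont
  have hψ := h.cont
  have hc2 : Continuous fun s : ℝ => s * φ s ^ 2 := by fun_prop
  have hcG : Continuous fun s : ℝ => s * (φ s + 2 * s * ψ s) ^ 2 + (K * s - 1) * s * φ s ^ 2 := by
    fun_prop
  rw [← intervalIntegral.integral_const_mul]
  rw [intervalIntegral.integral_eq_sub_of_hasDerivAt_of_le
      (f := fun s : ℝ => s * (φ s + 2 * s * ψ s) ^ 2 + (K * s - 1) * s * φ s ^ 2) zero_le_one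
      hcG.continuousOn]
  · simp only [h.phi_one, h.psi_one]; norm_num
  · intro s hs
    have hs0 : s ≠ 0 := hs.1.ne'
    have h1 := h.deriv s
    have h2 := h.ode s hs.2
    -- derivative of ψ at s
    have h5 : HasDerivAt ψ ((-(K / 4) * (s * φ s) * s ^ 2 - s ^ 2 * ψ s * (2 * s)) / (s ^ 2) ^ 2) s := by
      have h6 : HasDerivAt (fun t : ℝ => t ^ 2) (2 * s) s := by
        simpa using hasDerivAt_pow 2 s
      have h7 := h2.div h6 (pow_ne_zero 2 hs0)
      refine h7.congr_of_eventuallyEq ?_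
      filter_upwards [isOpen_ne.mem_nhds hs0] with t ht
      have ht' : t ^ 2 ≠ 0 := pow_ne_zero 2 ht
      simp only [Pi.div_apply]
      field_simp
    have h3 : HasDerivAt (fun s : ℝ => 2 * s) 2 s := by
      simpa using (hasDerivAt_id s).const_mul (2 : ℝ)
    have h3' : HasDerivAt (fun s : ℝ => K * s - 1) K s := by
      simpa using ((hasDerivAt_id s).const_mul K).sub_const 1
    have h0 : HasDerivAt (fun s : ℝ => s) 1 s := hasDerivAt_id s
    have h8 := (h0.mul ((h1.add (h3.mul h5)).pow 2)).add ((h3'.mul h0).mul (h1.pow 2))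
    refine h8.congr_deriv ?_
    simp only [Nat.cast_ofNat, Pi.mul_apply, Pi.add_apply, Pi.pow_apply]
    field_simp
    ring
  · exact (hc2.const_mul K).intervalIntegrable _ _

/-- `s φ (s)^2` is nondecreasing on `[0, 1]`. -/
theorem Prof.g_le (h : Prof K φ ψ) {s : ℝ} (hs : s ∈ Icc (0 : ℝ) 1) : s * φ s ^ 2 ≤ 1 := by
  have hφ := h.phi_cont
  have hm : MonotoneOn (fun s : ℝ => s * φ s ^ 2) (Icc (0 : ℝ) 1) := by
    have hd : ∀ s : ℝ, HasDerivAt (fun s : ℝ => s * φ s ^ 2) (φ s * (φ s + 2 * s * ψ s)) s := by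
      intro s
      have h4 := (hasDerivAt_id s).mul ((h.deriv s).pow 2)
      refine h4.congr_deriv ?_
      simp only [Nat.cast_ofNat, id]
      simp
      ring
    apply monotoneOn_of_deriv_nonneg (convex_Icc 0 1)
    · exact (by fun_prop : Continuous fun s : ℝ => s * φ s ^ 2).continuousOn
    · intro s _
      exact (hd s).differentiableAt.differentiableWithinAt
    · intro s hs
      rw [interior_Icc] at hs
      have hs' : s ∈ Icc (0 : ℝ) 1 := ⟨hs.1.le, hs.2.le⟩
      rw [(hd s).deriv]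
      exact mul_nonneg (zero_le_one.trans (h.one_le s hs')) (h.mono s hs')
  have := hm hs (right_mem_Icc.2 zero_le_one) hs.2
  simpa [h.phi_one] using this

theorem Prof.g_out (h : Prof K φ ψ) {s : ℝ} (hs : 1 ≤ s) : s * φ s ^ 2 = 1 := by
  have hs0 : 0 < s := zero_lt_one.trans_le hs
  rw [h.out s hs, div_pow, Real.sq_sqrt hs0.le, one_pow]
  field_simp

theorem Prof.phi_pos (h : Prof K φ ψ) {s : ℝ} (hs : 0 ≤ s) : 0 < φ s := by
  rcases le_or_gt s 1 with h1 | h1
  · exact zero_lt_one.trans_le (h.one_le s ⟨hs, h1⟩)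
  · rw [h.out s h1.le]
    have : 0 < √s := Real.sqrt_pos.2 (zero_lt_one.trans h1)
    positivity

theorem Prof.phi_le (h : Prof K φ ψ) {s : ℝ} (hs : 0 ≤ s) : φ s ≤ 27 / 16 := by
  rcases le_or_gt s 1 with h1 | h1
  · have := h.le s ⟨hs, h1⟩
    linarith
  · rw [h.out s h1.le]
    have h2 : 1 ≤ √s := Real.one_le_sqrt.2 h1.le
    have h3 : 1 / √s ≤ 1 := by
      rw [div_le_one (zero_lt_one.trans_le h2)]; exact h2
    linarith

/-- `|w| ≤ 1` -/
theorem Prof.w_le (h : Prof K φ ψ) (y : E) : w φ 0 y ^ 2 + w φ 1 y ^ 2 ≤ 1 := by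
  have h0 : 0 ≤ sq y := by unfold sq; positivity
  have e : w φ 0 y ^ 2 + w φ 1 y ^ 2 = sq y * φ (sq y) ^ 2 := by
    unfold w
    have : sq y = y 0 ^ 2 + y 1 ^ 2 := rfl
    rw [mul_pow, mul_pow, ← mul_add, ← this]; ring
  rw [e]
  rcases le_or_gt (sq y) 1 with h1 | h1
  · exact h.g_le ⟨h0, h1⟩
  · exact (h.g_out h1.le).le

end Pool.Agent.Neu
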