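import Pool.Agent.Neu.Defs
import Pool.Agent.Neu.Ode

/-! NEU-PT: pointwise inequalities. `α = 2 (K - 1)`. -/

set_option autoImplicit false

open MeasureTheory Set

namespace Pool.Agent.Neu

variable {K : ℝ} {φ ψ : ℝ → ℝ}

private lemma form_nonneg {p q r : ℝ} (hp : 0 ≤ p) (hr : 0 ≤ r) (hd : q ^ 2 ≤ p * r) (a b : ℝ) :
    0 ≤ r * a ^ 2 - 2 * q * a * b + p * b ^ 2 := by
  rcases eq_or_lt_of_le hp with h0 | hpos
  · subst h0
    have hq : q = 0 := by
      have : q ^ 2 ≤ 0 := by simpa using hd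
      exact pow_eq_zero_iff (two_ne_zero) |>.1 (le_antisymm this (sq_nonneg q))
    subst hq
    have := mul_nonneg hr (sq_nonneg a)
    simpa using this
  · have h1 : 0 ≤ p * (r * a ^ 2 - 2 * q * a * b + p * b ^ 2) := by
      have e : p * (r * a ^ 2 - 2 * q * a * b + p * b ^ 2)
          = (p * b - q * a) ^ 2 + (p * r - q ^ 2) * a ^ 2 := by ring
      rw [e]
      have := mul_nonneg (sub_nonneg.2 hd) (sq_nonneg a)
      have := sq_nonneg (p * b - q * a)
      linarith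
    exact nonneg_of_mul_nonneg_right h1 hpos

theorem N_nonneg {p q r : ℝ} (hp : 0 ≤ p) (hr : 0 ≤ r) (hd : q ^ 2 ≤ p * r) (z : E) :
    0 ≤ N p q r z := by
  unfold N
  exact form_nonneg hp hr hd _ _

theorem N_le {p q r : ℝ} (hp : 0 ≤ p) (hr : 0 ≤ r) (hd : q ^ 2 ≤ p * r) (z : E) :
    N p q r z ≤ (p + r) * sq z := by
  unfold N sq
  have h := form_nonneg (p := r) (q := -q) (r := p) hr hp (by nlinarith [hd]) (z 0) (z 1)
  nlinarith [h]

private lemma alpha_lo (h : Prof K φ ψ) : 476 / 100 < 2 * (K - 1) := by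
  have := h.K_lo; linarith

private lemma alpha_hi (h : Prof K φ ψ) : 2 * (K - 1) < 480 / 100 := by
  have := h.K_hi; linarith

/-- outside the disc -/
theorem Prof.pt_out (h : Prof K φ ψ) {p q r : ℝ} (hp : 0 ≤ p) (hr : 0 ≤ r) (hd : q ^ 2 ≤ p * r)
    {y : E} (hy : 1 ≤ sq y) :
    2 * (K - 1) * (N p q r y * (1 - 1 / sq y))
      ≤ (1 - 2 * (K - 1)) * ((p + r) / 2) - qq (2 * (K - 1)) φ ψ p q r y := by
  have hN := N_nonneg hp hr hd y
  unfold qq eQ
  generalize N p q r y = n at *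
  have h1 := h.out _ hy
  have h2 := h.outd _ hy
  rw [h1, h2]
  generalize sq y = s at *
  generalize 2 * (K - 1) = α at *
  have hs0 : 0 < s := by linarith
  set t := √s with ht
  have ht0 : 0 < t := Real.sqrt_pos.2 hs0
  have hts : s = t ^ 2 := (Real.sq_sqrt hs0.le).symm
  have ht1 : 1 ≤ t ^ 2 := by rw [← hts]; exact hy
  rw [hts]
  have e1 : (1 / t + 2 * t ^ 2 * (-1 / (2 * t ^ 2 * t))) = 0 := by
    field_simp
    ring
  have e2 : 4 * (-1 / (2 * t ^ 2 * t)) * (1 / t + t ^ 2 * (-1 / (2 * t ^ 2 * t))) * n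
      = - (n / t ^ 4) := by
    field_simp
    ring
  have e3 : (1 - α) * (1 / t) ^ 2 * ((p + r) / 2 * t ^ 2 - n)
      = (1 - α) * ((p + r) / 2) - (1 - α) * (n / t ^ 2) := by
    field_simp
  rw [e1, e2, e3]
  have e4 : α * (n * (1 - 1 / t ^ 2)) = α * n - α * (n / t ^ 2) := by
    field_simp
  rw [e4]
  have h5 : n / t ^ 4 ≤ n / t ^ 2 := by
    have e : t ^ 4 = t ^ 2 * t ^ 2 := by ring
    rw [e]
    apply div_le_div_of_nonneg_left hN (by positivity)
    nlinarith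
  nlinarith

/-- inside the disc (`N / sq` is `0` at the origin by convention) -/
theorem Prof.pt_in (h : Prof K φ ψ) {p q r : ℝ} (hp : 0 ≤ p) (hr : 0 ≤ r) (hd : q ^ 2 ≤ p * r)
    {y : E} (hy : sq y ≤ 1) :
    1 / 2 * (N p q r y / sq y * hh (2 * (K - 1)) φ (sq y))
      ≤ qq (2 * (K - 1)) φ ψ p q r y - (1 - 2 * (K - 1)) * ((p + r) / 2) := by
  have hN := N_nonneg hp hr hd y
  have hNl := N_le hp hr hd y
  have hsq0 : 0 ≤ sq y := by unfold sq; positivity
  have hg := h.g_le (s := sq y) ⟨hsq0, hy⟩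
  have ha := alpha_lo h
  unfold qq eQ hh
  generalize N p q r y = n at *
  generalize sq y = s at *
  generalize 2 * (K - 1) = α at *
  generalize φ s = f at *
  generalize ψ s = k at *
  rcases eq_or_lt_of_le hsq0 with h0 | hs
  · subst h0
    have hn0 : n = 0 := by
      apply le_antisymm _ hN
      simpa using hNl
    subst hn0
    have h3 : 0 ≤ (p + r) * f ^ 2 := by positivity
    have h4 : 0 ≤ (α - 1) * (p + r) := by
      apply mul_nonneg <;> linarith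
    simp only [mul_zero, zero_mul, add_zero, sub_zero, zero_div]
    nlinarith
  · obtain ⟨ν, hν⟩ : ∃ ν, ν = n / s := ⟨_, rfl⟩
    have hn : n = ν * s := by rw [hν]; field_simp
    have hν0 : 0 ≤ ν := by rw [hν]; positivity
    have hν1 : ν ≤ p + r := by rw [hν]; rw [div_le_iff₀ hs]; exact hNl
    rw [← hν, hn]
    have ha0 : 0 ≤ 2 * (f + 2 * s * k) ^ 2 + (α - 1) * (1 - s * f ^ 2) := by
      have := mul_nonneg (show (0:ℝ) ≤ α - 1 by linarith) (sub_nonneg.2 hg)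
      have := sq_nonneg (f + 2 * s * k)
      linarith
    have hk := mul_nonneg (sub_nonneg.2 hν1) ha0
    nlinarith [hk]

private lemma phi_nn (h : Prof K φ ψ) {s : ℝ} (hs : s ∈ Icc (0 : ℝ) 1) :
    0 ≤ φ s - 1 ∧ φ s - 1 ≤ 27 / 40 * (1 - s) :=
  ⟨by linarith [h.one_le s hs], by linarith [h.le s hs]⟩

private lemma hh_eq (α : ℝ) (s v : ℝ) (hv : φ s = 1 + v) :
    hh α φ s = (α + 1) * (1 - s) + 4 * v + 2 * s * (α - 1) * v + v ^ 2 * (2 + s * (α - 1)) := by
  unfold hh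
  rw [hv]
  ring

private lemma quad_pos {α s : ℝ} (ha : 476 / 100 < α) (ha' : α < 480 / 100) :
    0 ≤ (α + 1) + 27 / 40 * (4 + 2 * s * (α - 1))
      + (2 - s * (19 * α + 1)) * (27 / 40) * (27 / 40 * (1 - s)) := by
  nlinarith [sq_nonneg (s - 45 / 100), mul_nonneg (sub_nonneg.2 ha.le) (sq_nonneg (s - 45/100)),
    mul_nonneg (sub_nonneg.2 ha'.le) (sq_nonneg (s - 45/100))]

/-- `h ≥ 20 α s (φ - 1)^2`, i.e. `10 α (g - r)^2 ≤ h / 2` -/
theorem Prof.hh_ge (h : Prof K φ ψ) {s : ℝ} (hs : s ∈ Icc (0 : ℝ) 1) :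
    20 * (2 * (K - 1)) * (s * (φ s - 1) ^ 2) ≤ hh (2 * (K - 1)) φ s := by
  obtain ⟨hv0, hv1⟩ := phi_nn h hs
  obtain ⟨v, hv⟩ : ∃ v, v = φ s - 1 := ⟨_, rfl⟩
  rw [hh_eq (2 * (K - 1)) s v (by rw [hv]; ring), ← hv]
  rw [← hv] at hv0 hv1
  have ha := alpha_lo h
  have ha' := alpha_hi h
  obtain ⟨hs0, hs1⟩ := hs
  generalize 2 * (K - 1) = α at *
  have hquad := quad_pos (s := s) ha ha'
  rcases le_or_gt 0 (2 - s * (19 * α + 1)) with hc | hc
  · have h1 : 0 ≤ (α + 1) * (1 - s) := mul_nonneg (by linarith) (by linarith)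
    have h2 : 0 ≤ s * (α - 1) * v := mul_nonneg (mul_nonneg hs0 (by linarith)) hv0
    have h3 : 0 ≤ v ^ 2 * (2 - s * (19 * α + 1)) := mul_nonneg (sq_nonneg v) hc
    nlinarith
  · -- f v >= L v
    have hL : (α + 1) * (1 - s) + (4 + 2 * s * (α - 1)) * v
        + (2 - s * (19 * α + 1)) * (27 / 40 * (1 - s)) * v
        ≤ (α + 1) * (1 - s) + (4 + 2 * s * (α - 1)) * v + (2 - s * (19 * α + 1)) * v ^ 2 := by
      have : 0 ≤ (-(2 - s * (19 * α + 1))) * (v * (27 / 40 * (1 - s) - v)) :=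
        mul_nonneg (by linarith) (mul_nonneg hv0 (by linarith))
      nlinarith
    have hL0 : 0 ≤ (α + 1) * (1 - s) + (4 + 2 * s * (α - 1)) * v
        + (2 - s * (19 * α + 1)) * (27 / 40 * (1 - s)) * v := by
      rcases eq_or_lt_of_le hs1 with h1 | h1
      · subst h1
        have hvz : v = 0 := by
          apply le_antisymm _ hv0
          simpa using hv1
        subst hvz
        simp
      · have hv1pos : 0 < 27 / 40 * (1 - s) := by linarith
        have key : 27 / 40 * (1 - s) * ((α + 1) * (1 - s) + (4 + 2 * s * (α - 1)) * v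
            + (2 - s * (19 * α + 1)) * (27 / 40 * (1 - s)) * v)
            = (27 / 40 * (1 - s) - v) * ((α + 1) * (1 - s))
              + v * ((1 - s) * ((α + 1) + 27 / 40 * (4 + 2 * s * (α - 1))
      + (2 - s * (19 * α + 1)) * (27 / 40) * (27 / 40 * (1 - s)))) := by ring
        have hA : 0 ≤ (27 / 40 * (1 - s) - v) * ((α + 1) * (1 - s)) :=
          mul_nonneg (by linarith) (mul_nonneg (by linarith) (by linarith))
        have hB : 0 ≤ v * ((1 - s) * ((α + 1) + 27 / 40 * (4 + 2 * s * (α - 1))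
      + (2 - s * (19 * α + 1)) * (27 / 40) * (27 / 40 * (1 - s)))) :=
          mul_nonneg hv0 (mul_nonneg (by linarith) hquad)
        have : 0 ≤ 27 / 40 * (1 - s) * ((α + 1) * (1 - s) + (4 + 2 * s * (α - 1)) * v
            + (2 - s * (19 * α + 1)) * (27 / 40 * (1 - s)) * v) := by
          rw [key]; linarith
        exact nonneg_of_mul_nonneg_right this hv1pos
    have h6 := hL0.trans hL
    nlinarith [h6]

theorem Prof.hh_ge' (h : Prof K φ ψ) {s : ℝ} (hs : s ∈ Icc (0 : ℝ) 1) :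
    (2 * (K - 1) + 1) * (1 - s) ≤ hh (2 * (K - 1)) φ s := by
  obtain ⟨hv0, hv1⟩ := phi_nn h hs
  obtain ⟨v, hv⟩ : ∃ v, v = φ s - 1 := ⟨_, rfl⟩
  rw [hh_eq (2 * (K - 1)) s v (by rw [hv]; ring)]
  rw [← hv] at hv0 hv1
  have ha := alpha_lo h
  obtain ⟨hs0, hs1⟩ := hs
  generalize 2 * (K - 1) = α at *
  have h2 : 0 ≤ 2 * s * (α - 1) * v := by
    have := mul_nonneg (mul_nonneg hs0 (show (0:ℝ) ≤ α - 1 by linarith)) hv0
    linarith
  have h3 : 0 ≤ v ^ 2 * (2 + s * (α - 1)) := by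
    have := mul_nonneg hs0 (show (0:ℝ) ≤ α - 1 by linarith)
    exact mul_nonneg (sq_nonneg v) (by linarith)
  linarith

/-- upper bound used in the case `|W - D| > 10 π / 11` -/
theorem Prof.hh_le (h : Prof K φ ψ) {s : ℝ} (hs : s ∈ Icc (0 : ℝ) 1) :
    1 / 2 * hh (2 * (K - 1)) φ s + 2 * (K - 1) * (s * (φ s - 1) ^ 2) ≤ 75 / 10 := by
  have hg := h.g_le hs
  obtain ⟨hv0, hv1⟩ := phi_nn h hs
  have ha := alpha_lo h
  have ha' := alpha_hi h
  obtain ⟨hs0, hs1⟩ := hs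
  unfold hh
  generalize 2 * (K - 1) = α at *
  generalize φ s = f at *
  have h1 : f ^ 2 ≤ 281 / 100 := by
    have : f ≤ 67 / 40 := by linarith
    nlinarith
  have h2 : (α - 1) * (s * f ^ 2) ≤ (α - 1) * 1 :=
    mul_le_mul_of_nonneg_left hg (by linarith)
  have h3 : (f - 1) ^ 2 ≤ (27 / 40) ^ 2 * (1 - s) ^ 2 := by
    rw [← mul_pow]
    exact pow_le_pow_left₀ hv0 hv1 2
  have h4 : s * (f - 1) ^ 2 ≤ 7 / 100 := by
    have h5 : s * (f - 1) ^ 2 ≤ s * ((27 / 40) ^ 2 * (1 - s) ^ 2) :=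
      mul_le_mul_of_nonneg_left h3 hs0
    have h6 : s * (1 - s) ^ 2 ≤ 15 / 100 := by
      nlinarith [sq_nonneg (s - 1/3), mul_nonneg hs0 (sq_nonneg (s - 1/3)),
        mul_nonneg (sub_nonneg.2 hs1) (sq_nonneg (s - 1/3))]
    nlinarith
  have h7 : 0 ≤ s * (f - 1) ^ 2 := mul_nonneg hs0 (sq_nonneg _)
  have h8 : α * (s * (f - 1) ^ 2) ≤ 480 / 100 * (7 / 100) := by
    calc α * (s * (f - 1) ^ 2) ≤ 480 / 100 * (s * (f - 1) ^ 2) :=
          mul_le_mul_of_nonneg_right ha'.le h7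
      _ ≤ _ := mul_le_mul_of_nonneg_left h4 (by norm_num)
  have h9 : 0 ≤ α * s := mul_nonneg (by linarith) hs0
  nlinarith

end Pool.Agent.Neu
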