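import Pool.Agent.Neu.Defs

/-! NEU-RAD: integrals of radial functions over the unit disc. -/

set_option autoImplicit false

open MeasureTheory Set

namespace Pool.Agent.Neu

theorem disc_volume : volume D = ENNReal.ofReal Real.pi := by
  rw [D, EuclideanSpace.volume_ball_fin_two]
  simp

namespace Radx

theorem sq_eq (y : E) : sq y = ‖y‖ ^ 2 := by
  rw [EuclideanSpace.norm_sq_eq, Fin.sum_univ_two]
  simp [sq]

theorem continuous_sq : Continuous sq := by
  unfold sq
  fun_prop

/-- the rotation by a right angle -/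
noncomputable def R : E ≃ₗᵢ[ℝ] E :=
  (LinearIsometryEquiv.piLpCongrLeft 2 ℝ ℝ (Equiv.swap (0 : Fin 2) 1)).trans
    (LinearIsometryEquiv.piLpCongrRight 2
      (fun i : Fin 2 => if i = 0 then LinearIsometryEquiv.neg ℝ
        else LinearIsometryEquiv.refl ℝ ℝ))

theorem R_zero (y : E) : R y 0 = - y 1 := by
  simp [R, Equiv.piCongrLeft']

theorem R_one (y : E) : R y 1 = y 0 := by
  simp [R, Equiv.piCongrLeft']

theorem sq_R (y : E) : sq (R y) = sq y := by
  unfold sq
  rw [R_zero, R_one]
  ring

theorem N_R (p q r : ℝ) (y : E) : N p q r (R y) + N p q r y = (p + r) * sq y := by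
  unfold N sq
  rw [R_zero, R_one]
  ring

theorem integral_iso (e : E ≃ₗᵢ[ℝ] E) (g : E → ℝ) :
    ∫ y in D, g (e y) = ∫ y in D, g y := by
  have h := (e.measurePreserving).setIntegral_preimage_emb
    (e.toHomeomorph.measurableEmbedding) g D
  have hD : e ⁻¹' D = D := by
    ext y
    simp [D]
  rw [hD] at h
  exact h

theorem integral_R (g : E → ℝ) : ∫ y in D, g (R y) = ∫ y in D, g y :=
  integral_iso R g

end Radx

open Radx

theorem disc_radial {f : ℝ → ℝ} (hf : Continuous f) :
    ∫ y in D, f (sq y) = Real.pi * ∫ s in (0 : ℝ)..1, f s := by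
  have h1 : ∫ y in D, f (sq y) =
      ∫ y : E, (Iio (1 : ℝ)).indicator (fun r => f (r ^ 2)) ‖y‖ := by
    rw [← integral_indicator Metric.isOpen_ball.measurableSet]
    apply integral_congr_ae
    refine Filter.Eventually.of_forall fun y => ?_
    by_cases hy : y ∈ D
    · have hy' : ‖y‖ ∈ Iio (1 : ℝ) := by simpa [D] using hy
      simp only [indicator_of_mem hy, indicator_of_mem hy', sq_eq]
    · have hy' : ‖y‖ ∉ Iio (1 : ℝ) := by simpa [D] using hy
      simp only [indicator_of_notMem hy, indicator_of_notMem hy']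
  have h2 := integral_fun_norm_addHaar (volume : Measure E)
    (fun r => (Iio (1 : ℝ)).indicator (fun r => f (r ^ 2)) r)
  rw [h1, h2]
  have h3 : (volume : Measure E).real (Metric.ball 0 1) = Real.pi := by
    rw [Measure.real, disc_volume, ENNReal.toReal_ofReal Real.pi_pos.le]
  rw [h3]
  have h4 : Module.finrank ℝ E = 2 := by simp [E]
  rw [h4]
  have h5 : ∫ y in Ioi (0 : ℝ), y ^ (2 - 1) • (Iio (1 : ℝ)).indicator (fun r => f (r ^ 2)) y
      = ∫ y in (0 : ℝ)..1, y * f (y ^ 2) := by
    rw [intervalIntegral.integral_of_le zero_le_one, integral_Ioc_eq_integral_Ioo,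
      ← integral_indicator measurableSet_Ioi, ← integral_indicator measurableSet_Ioo]
    congr 1
    ext y
    by_cases h0 : 0 < y
    · by_cases h1 : y < 1
      · have a1 : y ∈ Ioi (0 : ℝ) := h0
        have a2 : y ∈ Iio (1 : ℝ) := h1
        have a3 : y ∈ Ioo (0 : ℝ) 1 := ⟨h0, h1⟩
        rw [indicator_of_mem a1, indicator_of_mem a2, indicator_of_mem a3]
        simp
      · have a1 : y ∈ Ioi (0 : ℝ) := h0
        have a2 : y ∉ Iio (1 : ℝ) := h1
        have a3 : y ∉ Ioo (0 : ℝ) 1 := fun h => h1 h.2
        rw [indicator_of_mem a1, indicator_of_notMem a2, indicator_of_notMem a3]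
        simp
    · have a1 : y ∉ Ioi (0 : ℝ) := h0
      have a3 : y ∉ Ioo (0 : ℝ) 1 := fun h => h0 h.1
      rw [indicator_of_notMem a1, indicator_of_notMem a3]
  rw [h5]
  have h6 : ∫ y in (0 : ℝ)..1, f (y ^ 2) * (2 * y) = ∫ s in (0 : ℝ)..1, f s := by
    have := intervalIntegral.integral_comp_mul_deriv (a := 0) (b := 1) (f := fun y : ℝ => y ^ 2)
      (f' := fun y => 2 * y) (g := f) (fun x _ => by simpa using hasDerivAt_pow 2 x)
      (by fun_prop) hf
    simpa using this
  rw [← h6]
  have h7 : ∫ y in (0 : ℝ)..1, f (y ^ 2) * (2 * y) = 2 * ∫ y in (0 : ℝ)..1, y * f (y ^ 2) := by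
    rw [← intervalIntegral.integral_const_mul]
    congr 1
    ext y
    ring
  rw [h7]
  simp only [nsmul_eq_mul, smul_eq_mul]
  push_cast
  ring

theorem disc_radial_N {f : ℝ → ℝ} (hf : Continuous f) (p q r : ℝ) :
    ∫ y in D, f (sq y) * N p q r y
      = (p + r) / 2 * (Real.pi * ∫ s in (0 : ℝ)..1, s * f s) := by
  have hN : Continuous (N p q r) := by unfold N; fun_prop
  have hc : Continuous fun y : E => f (sq y) * N p q r y := by
    have := continuous_sq
    fun_prop
  have hi : IntegrableOn (fun y : E => f (sq y) * N p q r y) D :=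
    (hc.continuousOn.integrableOn_compact (isCompact_closedBall (0 : E) 1)).mono_set
      Metric.ball_subset_closedBall
  have hcR : Continuous fun y : E => f (sq (R y)) * N p q r (R y) := by
    have := continuous_sq
    have h2 : Continuous (R : E → E) := R.continuous
    fun_prop
  have hiR : IntegrableOn (fun y : E => f (sq (R y)) * N p q r (R y)) D :=
    (hcR.continuousOn.integrableOn_compact (isCompact_closedBall (0 : E) 1)).mono_set
      Metric.ball_subset_closedBall
  have h1 := integral_R (fun y => f (sq y) * N p q r y)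
  have h2 : ∫ y in D, (f (sq (R y)) * N p q r (R y) + f (sq y) * N p q r y)
      = ∫ y in D, (p + r) * ((fun s => s * f s) (sq y)) := by
    congr 1
    ext y
    rw [sq_R]
    have := N_R p q r y
    simp only
    linear_combination f (sq y) * this
  rw [integral_add hiR hi, h1, integral_const_mul,
    disc_radial (f := fun s => s * f s) (by fun_prop)] at h2
  linarith

/-- `N / sq` is bounded; the function `f` need not vanish at the origin -/
theorem disc_radial_nu {f : ℝ → ℝ} (hf : Continuous f) (p q r : ℝ) :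
    ∫ y in D, f (sq y) * (N p q r y / sq y)
      = (p + r) / 2 * (Real.pi * ∫ s in (0 : ℝ)..1, f s) := by
  have hN : Continuous (N p q r) := by unfold N; fun_prop
  have hm : Measurable fun y : E => f (sq y) * (N p q r y / sq y) :=
    (hf.measurable.comp continuous_sq.measurable).mul
      (hN.measurable.div continuous_sq.measurable)
  obtain ⟨M, hM⟩ := (isCompact_closedBall (0 : E) 1).exists_bound_of_continuousOn
    (f := fun y : E => f (sq y)) (hf.comp continuous_sq).continuousOn
  have hNb : ∀ y : E, |N p q r y / sq y| ≤ |r| + |q| + |p| := by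
    intro y
    have hs : 0 ≤ sq y := by unfold sq; positivity
    rcases hs.eq_or_lt with h0 | h0
    · rw [← h0]; simp; positivity
    · rw [abs_div, abs_of_pos h0, div_le_iff₀ h0]
      have e : |N p q r y| ≤ |r| * y 0 ^ 2 + |q| * (2 * |y 0 * y 1|) + |p| * y 1 ^ 2 := by
        unfold N
        calc |r * y 0 ^ 2 - 2 * q * y 0 * y 1 + p * y 1 ^ 2|
            ≤ |r * y 0 ^ 2| + |2 * q * y 0 * y 1| + |p * y 1 ^ 2| := by
              refine (abs_add_le _ _).trans ?_
              gcongr
              exact abs_sub _ _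
          _ = _ := by
              simp only [abs_mul, abs_pow, sq_abs, abs_two]
              ring
      have e2 : 2 * |y 0 * y 1| ≤ sq y := by
        rw [abs_mul]
        unfold sq
        nlinarith [sq_nonneg (|y 0| - |y 1|), sq_abs (y 0), sq_abs (y 1)]
      have e3 : y 0 ^ 2 ≤ sq y := by unfold sq; nlinarith [sq_nonneg (y 1)]
      have e4 : y 1 ^ 2 ≤ sq y := by unfold sq; nlinarith [sq_nonneg (y 0)]
      calc |N p q r y| ≤ _ := e
        _ ≤ |r| * sq y + |q| * sq y + |p| * sq y := by gcongr
        _ = _ := by ring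
  have hb : ∀ y ∈ D, ‖f (sq y) * (N p q r y / sq y)‖ ≤ M * (|r| + |q| + |p|) := by
    intro y hy
    have := hM y (Metric.ball_subset_closedBall hy)
    rw [norm_mul]
    have h2 := hNb y
    have h3 : ‖N p q r y / sq y‖ ≤ |r| + |q| + |p| := by rwa [Real.norm_eq_abs]
    gcongr
    exact (norm_nonneg _).trans this
  have hDfin : volume D < ⊤ := by rw [disc_volume]; exact ENNReal.ofReal_lt_top
  have hi : IntegrableOn (fun y : E => f (sq y) * (N p q r y / sq y)) D := by
    refine Measure.integrableOn_of_bounded (M := M * (|r| + |q| + |p|)) hDfin.ne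
      hm.aestronglyMeasurable ?_
    exact (ae_restrict_mem Metric.isOpen_ball.measurableSet).mono hb
  have hiR : IntegrableOn (fun y : E => f (sq (R y)) * (N p q r (R y) / sq (R y))) D := by
    refine Measure.integrableOn_of_bounded (M := M * (|r| + |q| + |p|)) hDfin.ne
      (hm.comp R.continuous.measurable).aestronglyMeasurable ?_
    refine (ae_restrict_mem Metric.isOpen_ball.measurableSet).mono fun y hy => ?_
    exact hb (R y) (by simpa [D] using hy)
  have h1 := integral_R (fun y => f (sq y) * (N p q r y / sq y))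
  have h2 : ∫ y in D, (f (sq (R y)) * (N p q r (R y) / sq (R y))
      + f (sq y) * (N p q r y / sq y)) = ∫ y in D, (p + r) * f (sq y) := by
    apply integral_congr_ae
    have h0 : ∀ᵐ y : E ∂(volume.restrict D), y ≠ 0 := by
      apply ae_restrict_of_ae
      rw [ae_iff]
      simp
    refine h0.mono fun y hy => ?_
    have hs : sq y ≠ 0 := by
      rw [sq_eq]
      exact pow_ne_zero _ (norm_ne_zero_iff.mpr hy)
    simp only [sq_R]
    have := N_R p q r y
    field_simp
    linear_combination f (sq y) * this
  rw [integral_add hiR hi, h1, integral_const_mul, disc_radial hf] at h2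
  linarith

theorem disc_odd {f : ℝ → ℝ} (hf : Continuous f) (i : Fin 2) :
    ∫ y in D, f (sq y) * y i = 0 := by
  have _ := hf
  have h := integral_iso (LinearIsometryEquiv.neg ℝ) (fun y : E => f (sq y) * y i)
  have h2 : ∀ y : E, f (sq ((LinearIsometryEquiv.neg ℝ : E ≃ₗᵢ[ℝ] E) y))
      * ((LinearIsometryEquiv.neg ℝ : E ≃ₗᵢ[ℝ] E) y) i = - (f (sq y) * y i) := by
    intro y
    have : sq (-y) = sq y := by simp [sq]
    simp [this]
  simp only [h2, integral_neg] at h
  linarith

end Pool.Agent.Neu
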