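import Pool.Agent.Neu.Defs
import Pool.Agent.Neu.Rad
import Pool.Agent.Neu.Ode
import Pool.Agent.Neu.Pt

/-! NEU-M1: the identity `∫_W e = α ∫_W N - S` and the bathtub bound for the mass. -/

set_option autoImplicit false

open MeasureTheory Set

namespace Pool.Agent.Neu

variable {K : ℝ} {φ ψ : ℝ → ℝ}

namespace M1x

theorem sq_eq (y : E) : sq y = ‖y‖ ^ 2 := by
  unfold sq
  rw [EuclideanSpace.norm_eq, Real.sq_sqrt (by positivity)]
  simp [Fin.sum_univ_two]

theorem sq_nonneg (y : E) : 0 ≤ sq y := by
  unfold sq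
  positivity

theorem mem_D {y : E} : y ∈ D ↔ sq y < 1 := by
  rw [Metric.mem_ball, dist_zero_right, sq_eq]
  constructor
  · intro h
    nlinarith [norm_nonneg y]
  · intro h
    nlinarith [norm_nonneg y]

theorem cont_sq : Continuous (sq : E → ℝ) := by
  unfold sq
  fun_prop

theorem cont_N (p q r : ℝ) : Continuous (N p q r : E → ℝ) := by
  unfold N
  fun_prop

theorem measD : MeasurableSet (D : Set E) := measurableSet_ball

theorem cont_eQ (h : Prof K φ ψ) (p q r : ℝ) : Continuous (eQ φ ψ p q r) := by
  unfold eQ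
  have h1 := h.phi_cont
  have h2 := h.cont
  have h3 := cont_sq
  have h4 := cont_N p q r
  fun_prop

theorem cont_w (h : Prof K φ ψ) (i : Fin 2) : Continuous (w φ i) := by
  unfold w
  have h1 := h.phi_cont
  have h3 := cont_sq
  fun_prop

theorem cont_qq (h : Prof K φ ψ) (α p q r : ℝ) : Continuous (qq α φ ψ p q r) := by
  unfold qq
  have h1 := h.phi_cont
  have h2 := h.cont
  have h3 := cont_sq
  have h4 := cont_N p q r
  have h5 := cont_eQ h p q r
  fun_prop

theorem intOn {f : E → ℝ} (hf : Continuous f) {W : Set E} (hb : Bornology.IsBounded W) :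
    IntegrableOn f W := by
  obtain ⟨R, hR⟩ := hb.subset_closedBall (0 : E)
  exact (hf.locallyIntegrable.integrableOn_isCompact (isCompact_closedBall 0 R)).mono_set hR

theorem bdD : Bornology.IsBounded (D : Set E) := Metric.isBounded_ball

/-- the two differences have the same volume -/
theorem vol_diff {W : Set E} (hW : MeasurableSet W)
    (hv : volume W = ENNReal.ofReal Real.pi) :
    volume.real (W \ D) = volume.real (D \ W) := by
  have hWf : volume W ≠ ⊤ := by rw [hv]; exact ENNReal.ofReal_ne_top
  have hDf : volume (D : Set E) ≠ ⊤ := by rw [disc_volume]; exact ENNReal.ofReal_ne_top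
  have h1 : volume.real (W ∩ D) + volume.real (W \ D) = volume.real W :=
    measureReal_inter_add_diff measD hWf
  have h2 : volume.real (D ∩ W) + volume.real (D \ W) = volume.real D :=
    measureReal_inter_add_diff hW hDf
  have h3 : volume.real W = volume.real (D : Set E) := by
    unfold Measure.real
    rw [hv, disc_volume]
  rw [inter_comm] at h2
  linarith

end M1x

open M1x

theorem Prof.integral_qq_disc (h : Prof K φ ψ) (p q r : ℝ) :
    ∫ y in D, qq (2 * (K - 1)) φ ψ p q r y = 0 := by
  have h1 := h.phi_cont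
  have h2 := h.cont
  set α : ℝ := 2 * (K - 1) with hα
  set A : ℝ → ℝ := fun s => (p + r) * (φ s + 2 * s * ψ s) ^ 2
    + (1 - α) * φ s ^ 2 * ((p + r) / 2 * s) with hA
  set B : ℝ → ℝ := fun s => - 4 * ψ s * (φ s + s * ψ s) - α - (1 - α) * φ s ^ 2 with hB
  have cA : Continuous A := by rw [hA]; fun_prop
  have cB : Continuous B := by rw [hB]; fun_prop
  have e1 : ∀ y : E, qq α φ ψ p q r y = A (sq y) + B (sq y) * N p q r y := by
    intro y
    simp only [hA, hB, qq, eQ]
    ring
  have i1 : IntegrableOn (fun y : E => A (sq y)) D := intOn (cA.comp cont_sq) bdD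
  have i2 : IntegrableOn (fun y : E => B (sq y) * N p q r y) D :=
    intOn ((cB.comp cont_sq).mul (cont_N p q r)) bdD
  have e2 : ∫ y in D, qq α φ ψ p q r y
      = (∫ y in D, A (sq y)) + ∫ y in D, B (sq y) * N p q r y := by
    rw [← integral_add i1 i2]
    exact integral_congr_ae (Filter.Eventually.of_forall fun y => e1 y)
  rw [e2, disc_radial cA, disc_radial_N cB]
  have e3 : (p + r) / 2 * (Real.pi * ∫ s in (0 : ℝ)..1, s * B s)
      = Real.pi * ∫ s in (0 : ℝ)..1, (p + r) / 2 * (s * B s) := by
    rw [intervalIntegral.integral_const_mul]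
    ring
  rw [e3, ← mul_add, ← intervalIntegral.integral_add]
  · have e4 : (fun s : ℝ => A s + (p + r) / 2 * (s * B s))
        = fun s => (p + r) / 2 * (((φ s + 2 * s * ψ s) ^ 2 + φ s ^ 2) - α * s) := by
      funext s
      simp only [hA, hB]
      ring
    rw [e4, intervalIntegral.integral_const_mul, intervalIntegral.integral_sub, h.int1, h.int2,
      intervalIntegral.integral_const_mul, integral_id]
    · rw [hα]
      ring
    · exact Continuous.intervalIntegrable (by fun_prop) _ _
    · exact Continuous.intervalIntegrable (by fun_prop) _ _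
  · exact cA.intervalIntegrable _ _
  · exact Continuous.intervalIntegrable (by fun_prop) _ _

theorem Prof.identity (h : Prof K φ ψ) {W : Set E} (hW : MeasurableSet W)
    (hb : Bornology.IsBounded W) (hv : volume W = ENNReal.ofReal Real.pi)
    (h1 : ∫ y in W, (w φ 0 y ^ 2 - w φ 1 y ^ 2) = 0)
    (h2 : ∫ y in W, w φ 0 y * w φ 1 y = 0) (p q r : ℝ) :
    ∫ y in W, eQ φ ψ p q r y = 2 * (K - 1) * (∫ y in W, N p q r y)
      - ((∫ y in D \ W, (qq (2 * (K - 1)) φ ψ p q r y - (1 - 2 * (K - 1)) * ((p + r) / 2)))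
        + ∫ y in W \ D, ((1 - 2 * (K - 1)) * ((p + r) / 2) - qq (2 * (K - 1)) φ ψ p q r y)) := by
  set α : ℝ := 2 * (K - 1) with hα
  have cq := cont_qq h α p q r
  have cN := cont_N p q r
  have ce := cont_eQ h p q r
  have cw0 := cont_w h 0
  have cw1 := cont_w h 1
  have bDW : Bornology.IsBounded (D \ W : Set E) := bdD.subset diff_subset
  have bWD : Bornology.IsBounded (W \ D : Set E) := hb.subset diff_subset
  -- integral of `qq` over `W`
  have e1 : ∫ y in W, qq α φ ψ p q r y
      = (∫ y in W, eQ φ ψ p q r y) - α * ∫ y in W, N p q r y := by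
    have e2 : ∀ y : E, qq α φ ψ p q r y = (eQ φ ψ p q r y - α * N p q r y)
        + ((1 - α) * ((p - r) / 2) * (w φ 0 y ^ 2 - w φ 1 y ^ 2)
          + (1 - α) * (2 * q) * (w φ 0 y * w φ 1 y)) := by
      intro y
      simp only [qq, w, N, sq]
      ring
    have e3 : ∫ y in W, qq α φ ψ p q r y = ∫ y in W, ((eQ φ ψ p q r y - α * N p q r y)
        + ((1 - α) * ((p - r) / 2) * (w φ 0 y ^ 2 - w φ 1 y ^ 2)
          + (1 - α) * (2 * q) * (w φ 0 y * w φ 1 y))) :=
      integral_congr_ae (Filter.Eventually.of_forall fun y => e2 y)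
    rw [e3, integral_add, integral_sub, integral_add, integral_const_mul, integral_const_mul,
      integral_const_mul, h1, h2]
    · ring
    · exact intOn (by fun_prop) hb
    · exact intOn (by fun_prop) hb
    · exact intOn (by fun_prop) hb
    · exact intOn (by fun_prop) hb
    · exact intOn (by fun_prop) hb
    · exact intOn (by fun_prop) hb
  have e4 : (∫ y in W ∩ D, qq α φ ψ p q r y) + ∫ y in W \ D, qq α φ ψ p q r y
      = ∫ y in W, qq α φ ψ p q r y :=
    integral_inter_add_diff measD (intOn cq hb)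
  have e5 : (∫ y in D ∩ W, qq α φ ψ p q r y) + ∫ y in D \ W, qq α φ ψ p q r y
      = ∫ y in D, qq α φ ψ p q r y :=
    integral_inter_add_diff hW (intOn cq bdD)
  rw [h.integral_qq_disc p q r, inter_comm] at e5
  have e6 : ∫ y in D \ W, (qq α φ ψ p q r y - (1 - α) * ((p + r) / 2))
      = (∫ y in D \ W, qq α φ ψ p q r y)
        - volume.real (D \ W) * ((1 - α) * ((p + r) / 2)) := by
    rw [integral_sub (intOn cq bDW) (intOn continuous_const bDW), setIntegral_const, smul_eq_mul]
  have e7 : ∫ y in W \ D, ((1 - α) * ((p + r) / 2) - qq α φ ψ p q r y)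
      = volume.real (W \ D) * ((1 - α) * ((p + r) / 2))
        - ∫ y in W \ D, qq α φ ψ p q r y := by
    rw [integral_sub (intOn continuous_const bWD) (intOn cq bWD), setIntegral_const, smul_eq_mul]
  rw [e6, e7, vol_diff hW hv]
  linarith

theorem Prof.mass_ge (h : Prof K φ ψ) {W : Set E} (hW : MeasurableSet W)
    (hv : volume W = ENNReal.ofReal Real.pi) :
    Real.pi * (1 - 1 / K) ≤ ∫ y in W, sq y * φ (sq y) ^ 2 := by
  have cφ := h.phi_cont
  have hWf : volume W ≠ ⊤ := by rw [hv]; exact ENNReal.ofReal_ne_top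
  have hDf : volume (D : Set E) ≠ ⊤ := by rw [disc_volume]; exact ENNReal.ofReal_ne_top
  set f : E → ℝ := fun y => sq y * φ (sq y) ^ 2 with hf
  have cf : Continuous f := by
    have h3 := cont_sq
    rw [hf]
    fun_prop
  have f0 : ∀ y, 0 ≤ f y := fun y => mul_nonneg (sq_nonneg y) (by positivity)
  have f1 : ∀ y, f y ≤ 1 := by
    intro y
    have := h.w_le y
    have e : f y = w φ 0 y ^ 2 + w φ 1 y ^ 2 := by
      simp only [hf, w]
      generalize φ (sq y) = c
      unfold sq
      ring
    rw [e]
    exact this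
  have iW : IntegrableOn f W := by
    refine Measure.integrableOn_of_bounded (M := 1) hWf cf.aestronglyMeasurable ?_
    refine Filter.Eventually.of_forall fun y => ?_
    rw [Real.norm_eq_abs, abs_of_nonneg (f0 y)]
    exact f1 y
  have iD : IntegrableOn f D := intOn cf bdD
  have e4 : (∫ y in W ∩ D, f y) + ∫ y in W \ D, f y = ∫ y in W, f y :=
    integral_inter_add_diff measD iW
  have e5 : (∫ y in D ∩ W, f y) + ∫ y in D \ W, f y = ∫ y in D, f y :=
    integral_inter_add_diff hW iD
  rw [inter_comm] at e5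
  have e6 : ∫ y in W \ D, f y = volume.real (W \ D) := by
    have : ∫ y in W \ D, f y = ∫ y in W \ D, (1 : ℝ) := by
      refine setIntegral_congr_fun (hW.diff measD) fun y hy => ?_
      have h5 : ¬ sq y < 1 := fun h6 => hy.2 (mem_D.mpr h6)
      exact h.g_out (not_lt.mp h5)
    rw [this, setIntegral_const, smul_eq_mul, mul_one]
  have e7 : ∫ y in D \ W, f y ≤ volume.real (D \ W) := by
    have h6 : ∫ y in D \ W, f y ≤ ∫ y in D \ W, (1 : ℝ) := by
      refine setIntegral_mono_on (iD.mono_set diff_subset) ?_ (measD.diff hW) fun y _ => f1 y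
      exact intOn continuous_const (bdD.subset diff_subset)
    rw [setIntegral_const, smul_eq_mul, mul_one] at h6
    exact h6
  have e8 : ∫ y in D, f y = Real.pi * (1 - 1 / K) := by
    have h7 : ∫ y in D, f y = Real.pi * ∫ s in (0 : ℝ)..1, s * φ s ^ 2 :=
      disc_radial (f := fun s => s * φ s ^ 2) (by fun_prop)
    rw [h7]
    have hK : (0 : ℝ) < K := by have := h.K_lo; linarith
    have h8 := h.int2
    congr 1
    field_simp
    linarith
  have e9 := vol_diff hW hv
  linarith

end Pool.Agent.Neu
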