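import Pool.Agent.Neu.Defs
import Pool.Agent.Neu.Ode

/-! NEU-RADI: two one-dimensional inequalities. -/

set_option autoImplicit false

open MeasureTheory Set

namespace Pool.Agent.Neu

variable {K : ℝ} {φ ψ : ℝ → ℝ}

/-- radial functions with mean zero: `8 ∫ u^2 r ≤ ∫ u'^2 r` -/
theorem radial_mean_zero {u u' : ℝ → ℝ} (hu : ∀ r, HasDerivAt u (u' r) r) (hu' : Continuous u')
    (h0 : ∫ r in (0 : ℝ)..1, u r * r = 0) :
    8 * ∫ r in (0 : ℝ)..1, u r ^ 2 * r ≤ ∫ r in (0 : ℝ)..1, u' r ^ 2 * r := by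
  have huc : Continuous u := continuous_iff_continuousAt.2 fun r => (hu r).continuousAt
  set Y : ℝ → ℝ := fun r => ∫ t in (0 : ℝ)..r, u t * t with hY
  have hcut : Continuous fun t => u t * t := huc.mul continuous_id
  have hcuu : Continuous fun t => u t ^ 2 * t := (huc.pow 2).mul continuous_id
  have hYd : ∀ r, HasDerivAt Y (u r * r) r := by
    intro r
    exact intervalIntegral.integral_hasDerivAt_right (hcut.intervalIntegrable _ _)
      (hcut.stronglyMeasurableAtFilter _ _) hcut.continuousAt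
  have hYc : Continuous Y := continuous_iff_continuousAt.2 fun r => (hYd r).continuousAt
  have hY0 : Y 0 = 0 := by simp [hY]
  have hY1 : Y 1 = 0 := h0
  set N : ℝ := ∫ r in (0 : ℝ)..1, u r ^ 2 * r with hN
  -- the two Cauchy-Schwarz inequalities
  have hid : ∀ a b : ℝ, ∫ t in a..b, t = (b ^ 2 - a ^ 2) / 2 := fun a b => integral_id
  have hkey : ∀ a b c : ℝ, 0 ≤ a → a ≤ b →
      0 ≤ (∫ t in a..b, u t ^ 2 * t) - 2 * c * (∫ t in a..b, u t * t)
        + c ^ 2 * ((b ^ 2 - a ^ 2) / 2) := by
    intro a b c ha hab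
    have h1 : 0 ≤ ∫ t in a..b, (u t - c) ^ 2 * t := by
      apply intervalIntegral.integral_nonneg hab
      intro t ht
      exact mul_nonneg (sq_nonneg _) (ha.trans ht.1)
    have h2 : (∫ t in a..b, (u t - c) ^ 2 * t) = (∫ t in a..b, u t ^ 2 * t)
        - 2 * c * (∫ t in a..b, u t * t) + c ^ 2 * ((b ^ 2 - a ^ 2) / 2) := by
      have i2 : IntervalIntegrable (fun t => 2 * c * (u t * t)) volume a b :=
        (continuous_const.mul hcut).intervalIntegrable _ _
      have i3 : IntervalIntegrable (fun t => c ^ 2 * t) volume a b :=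
        (continuous_const.mul continuous_id).intervalIntegrable _ _
      have i1 : IntervalIntegrable (fun t => u t ^ 2 * t) volume a b :=
        hcuu.intervalIntegrable _ _
      rw [← hid a b, ← intervalIntegral.integral_const_mul, ← intervalIntegral.integral_const_mul,
        ← intervalIntegral.integral_sub i1 i2, ← intervalIntegral.integral_add (i1.sub i2) i3]
      apply intervalIntegral.integral_congr
      intro t _
      simp only
      ring
    linarith
  have hYb : ∀ r ∈ Ioo (0 : ℝ) 1, 2 * Y r ^ 2 ≤ N * (r ^ 2 * (1 - r ^ 2)) := by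
    intro r hr
    obtain ⟨hr0, hr1⟩ := hr
    have hadd1 : (∫ t in (0 : ℝ)..r, u t ^ 2 * t) + (∫ t in r..1, u t ^ 2 * t) = N :=
      intervalIntegral.integral_add_adjacent_intervals (hcuu.intervalIntegrable _ _)
        (hcuu.intervalIntegrable _ _)
    have hadd2 : (∫ t in (0 : ℝ)..r, u t * t) + (∫ t in r..1, u t * t) = 0 := by
      rw [intervalIntegral.integral_add_adjacent_intervals (hcut.intervalIntegrable _ _)
        (hcut.intervalIntegrable _ _)]
      exact h0
    have hYr : (∫ t in (0 : ℝ)..r, u t * t) = Y r := rfl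
    have hYr2 : (∫ t in r..1, u t * t) = - Y r := by linarith
    have hr2 : 0 < r ^ 2 := by positivity
    have hr3 : 0 < 1 - r ^ 2 := by nlinarith
    have e1 := hkey 0 r (2 * Y r / r ^ 2) le_rfl hr0.le
    have e2 := hkey r 1 (-(2 * Y r / (1 - r ^ 2))) hr0.le hr1.le
    rw [hYr] at e1
    rw [hYr2] at e2
    have e1' : 0 ≤ (∫ t in (0 : ℝ)..r, u t ^ 2 * t) - 2 * Y r ^ 2 / r ^ 2 := by
      have : (∫ t in (0 : ℝ)..r, u t ^ 2 * t) - 2 * (2 * Y r / r ^ 2) * Y r
          + (2 * Y r / r ^ 2) ^ 2 * ((r ^ 2 - 0 ^ 2) / 2)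
          = (∫ t in (0 : ℝ)..r, u t ^ 2 * t) - 2 * Y r ^ 2 / r ^ 2 := by
        field_simp
        ring
      rw [this] at e1
      exact e1
    have e2' : 0 ≤ (∫ t in r..1, u t ^ 2 * t) - 2 * Y r ^ 2 / (1 - r ^ 2) := by
      have : (∫ t in r..1, u t ^ 2 * t) - 2 * (-(2 * Y r / (1 - r ^ 2))) * -Y r
          + (-(2 * Y r / (1 - r ^ 2))) ^ 2 * ((1 ^ 2 - r ^ 2) / 2)
          = (∫ t in r..1, u t ^ 2 * t) - 2 * Y r ^ 2 / (1 - r ^ 2) := by
        field_simp
        ring
      rw [this] at e2
      exact e2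
    have e3 : 2 * Y r ^ 2 / r ^ 2 + 2 * Y r ^ 2 / (1 - r ^ 2) ≤ N := by linarith
    have e4 : 2 * Y r ^ 2 / r ^ 2 + 2 * Y r ^ 2 / (1 - r ^ 2)
        = 2 * Y r ^ 2 / (r ^ 2 * (1 - r ^ 2)) := by
      field_simp
      ring
    rw [e4, div_le_iff₀ (mul_pos hr2 hr3)] at e3
    exact e3
  -- integration by parts
  have hparts : N = - ∫ r in (0 : ℝ)..1, u' r * Y r := by
    have h1 := intervalIntegral.integral_mul_deriv_eq_deriv_mul (a := 0) (b := 1)
      (u := u) (v := Y) (u' := u') (v' := fun r => u r * r) (fun x _ => hu x) (fun x _ => hYd x)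
      (hu'.intervalIntegrable _ _) (hcut.intervalIntegrable _ _)
    rw [hY0, hY1] at h1
    have h2 : (∫ x in (0 : ℝ)..1, u x * (u x * x)) = N := by
      rw [hN]
      apply intervalIntegral.integral_congr
      intro t _
      simp only
      ring
    rw [h2] at h1
    rw [h1]
    ring
  have hpt : ∀ r ∈ Icc (0 : ℝ) 1,
      -(u' r * Y r) ≤ 1 / 16 * (u' r ^ 2 * r) + 2 * N * (r * (1 - r ^ 2)) := by
    intro r hr
    rcases eq_or_lt_of_le hr.1 with h | h
    · rw [← h, hY0]; simp
    rcases eq_or_lt_of_le hr.2 with h' | h'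
    · rw [h', hY1]
      have := sq_nonneg (u' 1)
      nlinarith
    · have hb := hYb r ⟨h, h'⟩
      have h3 : 0 ≤ r * (1 / 16 * (u' r ^ 2 * r) + 2 * N * (r * (1 - r ^ 2)) + u' r * Y r) := by
        have := sq_nonneg (u' r * r / 4 + 2 * Y r)
        nlinarith
      have h4 := (mul_nonneg_iff_of_pos_left h).1 h3
      linarith
  have hint : N ≤ 1 / 16 * (∫ r in (0 : ℝ)..1, u' r ^ 2 * r) + 2 * N * (1 / 4) := by
    have hc1 : Continuous fun r => 1 / 16 * (u' r ^ 2 * r) :=
      continuous_const.mul ((hu'.pow 2).mul continuous_id)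
    have hc2 : Continuous fun r : ℝ => 2 * N * (r * (1 - r ^ 2)) := by fun_prop
    have h1 : ∫ r in (0 : ℝ)..1, -(u' r * Y r)
        ≤ ∫ r in (0 : ℝ)..1, (1 / 16 * (u' r ^ 2 * r) + 2 * N * (r * (1 - r ^ 2))) :=
      intervalIntegral.integral_mono_on zero_le_one
        ((hu'.mul hYc).neg.intervalIntegrable _ _) ((hc1.add hc2).intervalIntegrable _ _) hpt
    rw [intervalIntegral.integral_neg, ← hparts, intervalIntegral.integral_add
      (hc1.intervalIntegrable _ _) (hc2.intervalIntegrable _ _),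
      intervalIntegral.integral_const_mul, intervalIntegral.integral_const_mul] at h1
    have h2 : (∫ r in (0 : ℝ)..1, r * (1 - r ^ 2)) = 1 / 4 := by
      have : ∀ r : ℝ, r * (1 - r ^ 2) = r - r ^ 3 := fun r => by ring
      simp_rw [this]
      have i1 : IntervalIntegrable (fun t : ℝ => t) volume 0 1 :=
        continuous_id.intervalIntegrable _ _
      have i2 : IntervalIntegrable (fun t : ℝ => t ^ 3) volume 0 1 :=
        (continuous_pow 3).intervalIntegrable _ _
      rw [intervalIntegral.integral_sub i1 i2, integral_id, integral_pow]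
      norm_num
    rw [h2] at h1
    exact h1
  linarith

/-- Picone: functions vanishing at the origin, angular mode at least one -/
theorem Prof.picone (h : Prof K φ ψ) {u u' : ℝ → ℝ} (hu : ∀ r, HasDerivAt u (u' r) r)
    (hu' : Continuous u') (h0 : u 0 = 0) :
    K * ∫ r in (0 : ℝ)..1, u r ^ 2 * r
      ≤ ∫ r in (0 : ℝ)..1, (u' r ^ 2 * r + u r ^ 2 / r) := by
  have huc : Continuous u := continuous_iff_continuousAt.2 fun r => (hu r).continuousAt
  have hφc : Continuous φ := continuous_iff_continuousAt.2 fun r => (h.deriv r).continuousAt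
  -- `u^2 / r` is continuous
  have hdc : Continuous (dslope u 0) := by
    rw [← continuousOn_univ]
    rw [continuousOn_dslope Filter.univ_mem]
    exact ⟨huc.continuousOn, (hu 0).differentiableAt⟩
  have hur : ∀ r, u r ^ 2 / r = u r * dslope u 0 r := by
    intro r
    rcases eq_or_ne r 0 with hr | hr
    · rw [hr, h0]; simp
    · rw [dslope_of_ne _ hr, slope_def_field, h0]
      field_simp
      ring
  have hurc : Continuous fun r => u r ^ 2 / r := by
    have : (fun r => u r ^ 2 / r) = fun r => u r * dslope u 0 r := funext hur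
    rw [this]
    exact huc.mul hdc
  -- the profile on the unit interval
  have hφ1 : ∀ r ∈ Icc (0 : ℝ) 1, 1 ≤ φ (r ^ 2) := by
    intro r hr
    apply h.one_le
    constructor
    · positivity
    · nlinarith [hr.1, hr.2]
  set P : ℝ → ℝ := fun r => 1 + 2 * (r ^ 2 * ψ (r ^ 2)) / φ (r ^ 2) with hP
  have hPc : ContinuousOn P (Icc 0 1) := by
    apply ContinuousOn.add continuousOn_const
    apply ContinuousOn.div
    · exact (continuous_const.mul ((continuous_pow 2).mul
        (h.cont.comp (continuous_pow 2)))).continuousOn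
    · exact (hφc.comp (continuous_pow 2)).continuousOn
    · intro r hr
      have := hφ1 r hr
      linarith
  have hP1 : P 1 = 0 := by
    have e1 := h.out 1 le_rfl
    have e2 := h.outd 1 le_rfl
    simp only [Real.sqrt_one] at e1 e2
    simp only [hP]
    norm_num [e1, e2]
  have hPd : ∀ r ∈ Ioo (0 : ℝ) 1, HasDerivAt P (1 / r - K * r - P r ^ 2 / r) r := by
    intro r hr
    have hr0 : 0 < r := hr.1
    have hs1 : r ^ 2 < 1 := by nlinarith [hr.1, hr.2]
    have hφr := hφ1 r ⟨hr.1.le, hr.2.le⟩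
    have hφ0 : φ (r ^ 2) ≠ 0 := by linarith
    have hsq : HasDerivAt (fun t : ℝ => t ^ 2) (2 * r) r := by
      have := hasDerivAt_pow 2 r
      simpa using this
    -- derivative of the auxiliary function
    have hA : HasDerivAt (fun t : ℝ => (t ^ 2) ^ 2 * ψ (t ^ 2))
        (-(K / 4) * (r ^ 2 * φ (r ^ 2)) * (2 * r)) r :=
      HasDerivAt.comp (h := fun t : ℝ => t ^ 2) (h₂ := fun t => t ^ 2 * ψ t) r
        (h.ode (r ^ 2) hs1) hsq
    have hB : HasDerivAt (fun t : ℝ => φ (t ^ 2)) (ψ (r ^ 2) * (2 * r)) r :=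
      HasDerivAt.comp (h := fun t : ℝ => t ^ 2) (h₂ := φ) r (h.deriv (r ^ 2)) hsq
    have hC : HasDerivAt (fun t : ℝ => t ^ 2 * φ (t ^ 2))
        (2 * r * φ (r ^ 2) + r ^ 2 * (ψ (r ^ 2) * (2 * r))) r := hsq.mul hB
    have hC0 : r ^ 2 * φ (r ^ 2) ≠ 0 := mul_ne_zero (by positivity) hφ0
    have hD := ((hA.const_mul 2).div hC hC0).const_add 1
    have heq : P =ᶠ[nhds r] fun t => 1 + 2 * ((t ^ 2) ^ 2 * ψ (t ^ 2)) / (t ^ 2 * φ (t ^ 2)) := by
      filter_upwards [isOpen_Ioi.mem_nhds hr0] with t ht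
      have ht' : (0 : ℝ) < t := ht
      have : t ^ 2 ≠ 0 := by positivity
      simp only [hP]
      congr 1
      rw [show 2 * ((t ^ 2) ^ 2 * ψ (t ^ 2)) = t ^ 2 * (2 * (t ^ 2 * ψ (t ^ 2))) by ring,
        mul_div_mul_left _ _ this]
    refine (HasDerivAt.congr_of_eventuallyEq ?_ heq)
    refine hD.congr_deriv ?_
    simp only [hP]
    field_simp
    ring
  set F : ℝ → ℝ := fun r => P r * u r ^ 2 with hF
  set F' : ℝ → ℝ := fun r => 2 * P r * u r * u' r + u r ^ 2 / r - K * (u r ^ 2 * r)
    - P r ^ 2 * (u r ^ 2 / r) with hF'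
  have hFc : ContinuousOn F (Icc 0 1) := hPc.mul (huc.pow 2).continuousOn
  have hF'c : ContinuousOn F' (Icc 0 1) := by
    apply ContinuousOn.sub
    · apply ContinuousOn.sub
      · apply ContinuousOn.add
        · exact ((continuousOn_const.mul hPc).mul huc.continuousOn).mul hu'.continuousOn
        · exact hurc.continuousOn
      · exact (continuous_const.mul ((huc.pow 2).mul continuous_id)).continuousOn
    · exact (hPc.pow 2).mul hurc.continuousOn
  have hFd : ∀ r ∈ Ioo (0 : ℝ) 1, HasDerivAt F (F' r) r := by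
    intro r hr
    have hr0 : r ≠ 0 := hr.1.ne'
    have h2 : HasDerivAt (fun t => u t ^ 2) (2 * u r * u' r) r := by
      have e : (fun t => u t ^ 2) = fun t => u t * u t := by
        funext t
        ring
      rw [e]
      exact ((hu r).mul (hu r)).congr_deriv (by ring)
    refine ((hPd r hr).mul h2).congr_deriv ?_
    simp only [hF']
    field_simp
    ring
  have hFint : ∫ r in (0 : ℝ)..1, F' r = 0 := by
    rw [intervalIntegral.integral_eq_sub_of_hasDerivAt_of_le zero_le_one hFc hFd
      (hF'c.intervalIntegrable_of_Icc zero_le_one)]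
    simp only [hF]
    rw [hP1, h0]
    ring
  have hc3 : Continuous fun r => u' r ^ 2 * r + u r ^ 2 / r :=
    ((hu'.pow 2).mul continuous_id).add hurc
  have hc4 : Continuous fun r => K * (u r ^ 2 * r) :=
    continuous_const.mul ((huc.pow 2).mul continuous_id)
  have hmono : ∫ r in (0 : ℝ)..1, (K * (u r ^ 2 * r) + F' r)
      ≤ ∫ r in (0 : ℝ)..1, (u' r ^ 2 * r + u r ^ 2 / r) := by
    apply intervalIntegral.integral_mono_on zero_le_one
    · exact (hc4.intervalIntegrable _ _).add (hF'c.intervalIntegrable_of_Icc zero_le_one)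
    · exact hc3.intervalIntegrable _ _
    · intro r hr
      rcases eq_or_lt_of_le hr.1 with hr0 | hr0
      · rw [← hr0, hF']
        simp [h0]
      · have e1 : u' r ^ 2 * r + u r ^ 2 / r - (K * (u r ^ 2 * r) + F' r)
            = (r * u' r - P r * u r) ^ 2 / r := by
          simp only [hF']
          field_simp
          ring
        have e2 : 0 ≤ (r * u' r - P r * u r) ^ 2 / r := by positivity
        linarith
  rw [intervalIntegral.integral_add (hc4.intervalIntegrable _ _)
    (hF'c.intervalIntegrable_of_Icc zero_le_one), hFint, add_zero,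
    intervalIntegral.integral_const_mul] at hmono
  exact hmono

end Pool.Agent.Neu
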