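import Pool.Agent.Neu.Defs

/-! NEU-LOW: a Poincare inequality gives a lower bound for `mu Ω 2` and `mu Ω 3`. -/

set_option autoImplicit false

open MeasureTheory Set

namespace Pool.Agent.Neu

namespace Lowerx

theorem bounded_on {F : Type*} [NormedAddCommGroup F] {Ω : Set E} (hb : Bornology.IsBounded Ω)
    {f : E → F} (hf : Continuous f) : ∃ C : ℝ, ∀ x ∈ Ω, ‖f x‖ ≤ C := by
  obtain ⟨R, hR⟩ := hb.subset_closedBall (0 : E)
  have hK : IsCompact (Metric.closedBall (0 : E) R) := isCompact_closedBall _ _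
  obtain ⟨C, hC⟩ := hK.exists_bound_of_continuousOn hf.continuousOn
  exact ⟨C, fun x hx => hC x (hR hx)⟩

theorem memLp_two {Ω : Set E} (hΩ : IsOpen Ω) (hb : Bornology.IsBounded Ω)
    {f : E → ℝ} (hf : Continuous f) : MemLp f 2 (volume.restrict Ω) := by
  have : IsFiniteMeasure (volume.restrict Ω) :=
    ⟨by rw [Measure.restrict_apply_univ]; exact hb.measure_lt_top⟩
  obtain ⟨C, hC⟩ := bounded_on hb hf
  refine MemLp.of_bound hf.aestronglyMeasurable C ?_
  exact (ae_restrict_iff' hΩ.measurableSet).2 (Filter.Eventually.of_forall hC)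

theorem integrable_on {Ω : Set E} (hΩ : IsOpen Ω) (hb : Bornology.IsBounded Ω)
    {f : E → ℝ} (hf : Continuous f) : Integrable f (volume.restrict Ω) := by
  have : IsFiniteMeasure (volume.restrict Ω) :=
    ⟨by rw [Measure.restrict_apply_univ]; exact hb.measure_lt_top⟩
  exact (memLp_two hΩ hb hf).integrable (by norm_num)

theorem eq_zero_of_integral {Ω : Set E} (hΩ : IsOpen Ω) (hb : Bornology.IsBounded Ω)
    {f : E → ℝ} (hf : Continuous f) (h0 : ∫ x in Ω, f x ^ 2 = 0) : ∀ x ∈ Ω, f x = 0 := by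
  have hint : Integrable (fun x => f x ^ 2) (volume.restrict Ω) :=
    integrable_on hΩ hb (hf.pow 2)
  have h1 : (fun x => f x ^ 2) =ᵐ[volume.restrict Ω] 0 :=
    (integral_eq_zero_iff_of_nonneg (fun x => sq_nonneg (f x)) hint).1 h0
  have h2 : f =ᵐ[volume.restrict Ω] (fun _ => (0 : ℝ)) := by
    filter_upwards [h1] with x hx
    simpa using hx
  have h3 := Measure.eqOn_open_of_ae_eq h2 hΩ hf.continuousOn continuousOn_const
  exact fun x hx => h3 hx

theorem integral_sq_pos {Ω : Set E} (hΩ : IsOpen Ω) (hb : Bornology.IsBounded Ω)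
    {V : Submodule ℝ (E → ℝ)} (hV : ∀ f ∈ V, ContDiff ℝ 1 f)
    (hn : ∀ f ∈ V, (∀ x ∈ Ω, f x = 0) → f = 0) {f : E → ℝ} (hf : f ∈ V) (hf0 : f ≠ 0) :
    0 < ∫ x in Ω, f x ^ 2 := by
  have h1 : 0 ≤ ∫ x in Ω, f x ^ 2 := integral_nonneg (fun x => sq_nonneg (f x))
  rcases h1.lt_or_eq with h2 | h2
  · exact h2
  · exact absurd (hn f hf (eq_zero_of_integral hΩ hb (hV f hf).continuous h2.symm)) hf0

/-- the embedding into `L ^ 2 (Ω)` -/
noncomputable def Phi {Ω : Set E} (hΩ : IsOpen Ω) (hb : Bornology.IsBounded Ω)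
    (V : Submodule ℝ (E → ℝ)) (hV : ∀ f ∈ V, ContDiff ℝ 1 f) :
    V →ₗ[ℝ] Lp ℝ 2 (volume.restrict Ω) where
  toFun f := (memLp_two hΩ hb (hV f.1 f.2).continuous).toLp f.1
  map_add' f g := by
    rw [← MemLp.toLp_add]; rfl
  map_smul' c f := by
    rw [RingHom.id_apply, ← MemLp.toLp_const_smul]; rfl

theorem norm_Phi {Ω : Set E} (hΩ : IsOpen Ω) (hb : Bornology.IsBounded Ω)
    (V : Submodule ℝ (E → ℝ)) (hV : ∀ f ∈ V, ContDiff ℝ 1 f) (f : V) :
    ‖Phi hΩ hb V hV f‖ ^ 2 = ∫ x in Ω, (f : E → ℝ) x ^ 2 := by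
  have h1 : ‖Phi hΩ hb V hV f‖ ^ 2 = inner ℝ (Phi hΩ hb V hV f) (Phi hΩ hb V hV f) :=
    (real_inner_self_eq_norm_sq _).symm
  rw [h1, L2.inner_def]
  have h2 : (Phi hΩ hb V hV f : E → ℝ) =ᵐ[volume.restrict Ω] (f : E → ℝ) :=
    MemLp.coeFn_toLp (memLp_two hΩ hb (hV f.1 f.2).continuous)
  apply integral_congr_ae
  filter_upwards [h2] with x hx
  rw [hx, real_inner_self_eq_norm_sq, Real.norm_eq_abs, sq_abs]

end Lowerx

open Lowerx

/-- the Rayleigh quotient is bounded on a finite-dimensional nondegenerate space -/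
theorem rayleigh_bdd {Ω : Set E} (hΩ : IsOpen Ω) (hb : Bornology.IsBounded Ω)
    (V : Submodule ℝ (E → ℝ)) [FiniteDimensional ℝ V] (hV : ∀ f ∈ V, ContDiff ℝ 1 f)
    (hn : ∀ f ∈ V, (∀ x ∈ Ω, f x = 0) → f = 0) :
    ∃ C : ℝ, ∀ f ∈ V, ∫ x in Ω, ‖fderiv ℝ f x‖ ^ 2 ≤ C * ∫ x in Ω, f x ^ 2 := by
  have : IsFiniteMeasure (volume.restrict Ω) :=
    ⟨by rw [Measure.restrict_apply_univ]; exact hb.measure_lt_top⟩
  set Φ := Phi hΩ hb V hV with hΦ
  have hinj : Function.Injective Φ := by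
    rw [injective_iff_map_eq_zero]
    intro f hf
    have h1 := norm_Phi hΩ hb V hV f
    rw [← hΦ, hf, norm_zero] at h1
    have h2 := eq_zero_of_integral hΩ hb (hV f.1 f.2).continuous (by rw [← h1]; norm_num)
    exact Subtype.ext (hn f.1 f.2 h2)
  let e := LinearEquiv.ofInjective Φ hinj
  let bs := Module.finBasis ℝ V
  let T : Fin (Module.finrank ℝ V) → (LinearMap.range Φ →ₗ[ℝ] ℝ) := fun i =>
    (bs.coord i) ∘ₗ (e.symm : LinearMap.range Φ →ₗ[ℝ] V)
  have hT : ∀ i, ∃ D : ℝ, 0 < D ∧ ∀ f : V, |bs.repr f i| ≤ D * ‖Φ f‖ := by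
    intro i
    obtain ⟨D, hD, h⟩ := (LinearMap.toContinuousLinearMap (T i)).bound
    refine ⟨D, hD, fun f => ?_⟩
    have h2 := h (e f)
    have h3 : (LinearMap.toContinuousLinearMap (T i)) (e f) = bs.repr f i := by
      change bs.coord i (e.symm (e f)) = bs.repr f i
      rw [LinearEquiv.symm_apply_apply]
      rfl
    rw [h3] at h2
    exact h2
  choose D hD hDb using hT
  have hCi : ∀ i, ∃ C : ℝ, ∀ x ∈ Ω, ‖fderiv ℝ (bs i : E → ℝ) x‖ ≤ C := fun i =>
    bounded_on hb ((hV _ (bs i).2).continuous_fderiv one_ne_zero)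
  choose Ci hCi using hCi
  set S : ℝ := ∑ i, D i * |Ci i| with hS
  have hS0 : 0 ≤ S := Finset.sum_nonneg (fun i _ => mul_nonneg (hD i).le (abs_nonneg _))
  refine ⟨(volume.restrict Ω).real univ * S ^ 2, fun f hf => ?_⟩
  have hfd : ∀ x, fderiv ℝ f x = ∑ i, bs.repr ⟨f, hf⟩ i • fderiv ℝ (bs i : E → ℝ) x := by
    intro x
    have h1 : f = fun y => ∑ i, bs.repr ⟨f, hf⟩ i • (bs i : E → ℝ) y := by
      have h2 := bs.sum_repr ⟨f, hf⟩
      have h3 := congrArg (Subtype.val) h2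
      rw [Submodule.coe_sum] at h3
      funext y
      have h4 := congrFun h3 y
      rw [Finset.sum_apply] at h4
      exact h4.symm
    have h5 : ∀ i, HasFDerivAt (fun y => bs.repr ⟨f, hf⟩ i • (bs i : E → ℝ) y)
        (bs.repr ⟨f, hf⟩ i • fderiv ℝ (bs i : E → ℝ) x) x := by
      intro i
      have h6 : DifferentiableAt ℝ (bs i : E → ℝ) x :=
        (hV _ (bs i).2).differentiable one_ne_zero x
      exact h6.hasFDerivAt.const_smul (bs.repr ⟨f, hf⟩ i)
    have h7 := HasFDerivAt.fun_sum (u := Finset.univ) (fun i _ => h5 i)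
    conv_lhs => rw [h1]
    exact h7.fderiv
  have h4 : ∀ x ∈ Ω, ‖fderiv ℝ f x‖ ^ 2 ≤ S ^ 2 * ∫ x in Ω, f x ^ 2 := by
    intro x hx
    have h5 : ‖fderiv ℝ f x‖ ≤ S * ‖Φ ⟨f, hf⟩‖ := by
      rw [hfd x]
      calc ‖∑ i, bs.repr ⟨f, hf⟩ i • fderiv ℝ (bs i : E → ℝ) x‖
          ≤ ∑ i, ‖bs.repr ⟨f, hf⟩ i • fderiv ℝ (bs i : E → ℝ) x‖ := norm_sum_le _ _
        _ ≤ ∑ i, (D i * ‖Φ ⟨f, hf⟩‖) * |Ci i| := by
            apply Finset.sum_le_sum
            intro i _
            rw [norm_smul, Real.norm_eq_abs]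
            have h8 := hDb i ⟨f, hf⟩
            have h9 : ‖fderiv ℝ (bs i : E → ℝ) x‖ ≤ |Ci i| := (hCi i x hx).trans (le_abs_self _)
            have h10 : 0 ≤ D i * ‖Φ ⟨f, hf⟩‖ := mul_nonneg (hD i).le (norm_nonneg _)
            gcongr
        _ = S * ‖Φ ⟨f, hf⟩‖ := by
            rw [hS, Finset.sum_mul]
            apply Finset.sum_congr rfl
            intro i _
            ring
    calc ‖fderiv ℝ f x‖ ^ 2 ≤ (S * ‖Φ ⟨f, hf⟩‖) ^ 2 := by
          gcongr
      _ = S ^ 2 * ‖Φ ⟨f, hf⟩‖ ^ 2 := by ring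
      _ = S ^ 2 * ∫ x in Ω, f x ^ 2 := by rw [hΦ, norm_Phi]
  have hc : Continuous (fun x => ‖fderiv ℝ f x‖ ^ 2) :=
    (((hV f hf).continuous_fderiv one_ne_zero).norm).pow 2
  calc ∫ x in Ω, ‖fderiv ℝ f x‖ ^ 2 ≤ ∫ _x in Ω, S ^ 2 * ∫ x in Ω, f x ^ 2 := by
        apply setIntegral_mono_on (integrable_on hΩ hb hc) (integrable_const _) hΩ.measurableSet h4
    _ = (volume.restrict Ω).real univ * S ^ 2 * ∫ x in Ω, f x ^ 2 := by
        rw [integral_const, smul_eq_mul]; ring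

namespace Lowerx

/-- affine functions -/
noncomputable def aff : (Fin 3 → ℝ) →ₗ[ℝ] (E → ℝ) where
  toFun v := fun x => v 0 + v 1 * x 0 + v 2 * x 1
  map_add' v v' := by
    funext x
    simp only [Pi.add_apply]
    ring
  map_smul' c v := by
    funext x
    simp only [Pi.smul_apply, smul_eq_mul, RingHom.id_apply]
    ring

theorem aff_contDiff (v : Fin 3 → ℝ) : ContDiff ℝ 1 (aff v) := by
  have h0 : ContDiff ℝ 1 (fun x : E => x 0) := contDiff_euclidean.1 contDiff_id 0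
  have h1 : ContDiff ℝ 1 (fun x : E => x 1) := contDiff_euclidean.1 contDiff_id 1
  exact (contDiff_const.add (contDiff_const.mul h0)).add (contDiff_const.mul h1)

theorem aff_nondeg {Ω : Set E} (hΩ : IsOpen Ω) (hne : Ω.Nonempty) (v : Fin 3 → ℝ)
    (h : ∀ x ∈ Ω, aff v x = 0) : v = 0 := by
  obtain ⟨x, hx⟩ := hne
  obtain ⟨ε, hε, hball⟩ := Metric.isOpen_iff.1 hΩ x hx
  have hmem : ∀ i : Fin 2, x + (ε / 2) • EuclideanSpace.single i (1 : ℝ) ∈ Ω := by
    intro i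
    apply hball
    rw [Metric.mem_ball, dist_eq_norm, add_sub_cancel_left, norm_smul, PiLp.norm_single]
    rw [norm_one, mul_one, Real.norm_eq_abs, abs_of_pos (by positivity)]
    linarith
  have e0 := h x hx
  have e1 := h _ (hmem 0)
  have e2 := h _ (hmem 1)
  change v 0 + v 1 * x 0 + v 2 * x 1 = 0 at e0
  change v 0 + v 1 * ((x + (ε / 2) • EuclideanSpace.single (0 : Fin 2) (1 : ℝ)) 0) +
    v 2 * ((x + (ε / 2) • EuclideanSpace.single (0 : Fin 2) (1 : ℝ)) 1) = 0 at e1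
  change v 0 + v 1 * ((x + (ε / 2) • EuclideanSpace.single (1 : Fin 2) (1 : ℝ)) 0) +
    v 2 * ((x + (ε / 2) • EuclideanSpace.single (1 : Fin 2) (1 : ℝ)) 1) = 0 at e2
  simp only [PiLp.add_apply, PiLp.smul_apply, PiLp.single_apply, smul_eq_mul] at e1 e2
  norm_num at e1 e2
  have h1 : v 1 * ε = 0 := by linarith
  have h2 : v 2 * ε = 0 := by linarith
  have h1' : v 1 = 0 := by
    rcases mul_eq_zero.1 h1 with h | h
    · exact h
    · exact absurd h hε.ne'
  have h2' : v 2 = 0 := by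
    rcases mul_eq_zero.1 h2 with h | h
    · exact h
    · exact absurd h hε.ne'
  rw [h1', h2'] at e0
  funext i
  fin_cases i
  · simpa using e0
  · exact h1'
  · exact h2'

/-- the embedding of `Fin 2 → ℝ` -/
noncomputable def emb : (Fin 2 → ℝ) →ₗ[ℝ] (Fin 3 → ℝ) where
  toFun v := ![v 0, v 1, 0]
  map_add' v v' := by
    funext i; fin_cases i <;> simp
  map_smul' c v := by
    funext i; fin_cases i <;> simp

theorem emb_inj : Function.Injective emb := by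
  rw [injective_iff_map_eq_zero]
  intro v hv
  have h0 := congrFun hv 0
  have h1 := congrFun hv 1
  funext i
  fin_cases i
  · exact h0
  · exact h1

theorem exists_space {Ω : Set E} (hΩ : IsOpen Ω) (hne : Ω.Nonempty) {n : ℕ}
    (L : (Fin n → ℝ) →ₗ[ℝ] (Fin 3 → ℝ)) (hL : Function.Injective L) :
    ∃ V : Submodule ℝ (E → ℝ),
    (∀ f ∈ V, ContDiff ℝ 1 f) ∧ (∀ f ∈ V, (∀ x ∈ Ω, f x = 0) → f = 0) ∧
    FiniteDimensional ℝ V ∧ Module.finrank ℝ V = n := by
  have hinj : Function.Injective (aff ∘ₗ L) := by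
    rw [injective_iff_map_eq_zero]
    intro v hv
    have h1 : L v = 0 := by
      apply aff_nondeg hΩ hne
      intro x _
      exact congrFun hv x
    exact (injective_iff_map_eq_zero L).1 hL v h1
  refine ⟨LinearMap.range (aff ∘ₗ L), ?_, ?_, inferInstance, ?_⟩
  · rintro f ⟨v, rfl⟩
    exact aff_contDiff _
  · rintro f ⟨v, rfl⟩ h
    have h1 : L v = 0 := aff_nondeg hΩ hne _ h
    rw [LinearMap.comp_apply, h1, map_zero]
  · rw [LinearMap.finrank_range_of_inj hinj, Module.finrank_fin_fun]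

end Lowerx

theorem le_mu {Ω : Set E} (hΩ : IsOpen Ω) (hb : Bornology.IsBounded Ω) (hne : Ω.Nonempty)
    {K : ℝ} (hK : ∀ f : E → ℝ, ContDiff ℝ 1 f → ∫ x in Ω, f x = 0 →
      K * ∫ x in Ω, f x ^ 2 ≤ ∫ x in Ω, ‖fderiv ℝ f x‖ ^ 2) {k : ℕ} (hk : k = 2 ∨ k = 3) :
    K ≤ mu Ω k := by
  unfold mu
  apply le_csInf
  · obtain ⟨V, h1, h2, h3, h4⟩ : ∃ V : Submodule ℝ (E → ℝ),
        (∀ f ∈ V, ContDiff ℝ 1 f) ∧ (∀ f ∈ V, (∀ x ∈ Ω, f x = 0) → f = 0) ∧
        FiniteDimensional ℝ V ∧ Module.finrank ℝ V = k := by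
      rcases hk with rfl | rfl
      · exact exists_space hΩ hne emb emb_inj
      · exact exists_space hΩ hne LinearMap.id Function.injective_id
    exact ⟨_, V, h1, h2, h3, h4, rfl⟩
  · rintro r ⟨V, h1, h2, h3, h4, rfl⟩
    obtain ⟨C, hC⟩ := rayleigh_bdd hΩ hb V h1 h2
    -- a nonzero element of mean zero
    let I : V →ₗ[ℝ] ℝ :=
      { toFun := fun f => ∫ x in Ω, (f : E → ℝ) x
        map_add' := fun f g => by
          exact integral_add (integrable_on hΩ hb (h1 f.1 f.2).continuous)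
            (integrable_on hΩ hb (h1 g.1 g.2).continuous)
        map_smul' := fun c f => by
          exact integral_const_mul c (fun x => (f : E → ℝ) x) }
    have hker : LinearMap.ker I ≠ ⊥ := by
      intro hbot
      have hinj : Function.Injective I := LinearMap.ker_eq_bot.1 hbot
      have h5 := LinearMap.finrank_le_finrank_of_injective hinj
      rw [h4, Module.finrank_self] at h5
      omega
    obtain ⟨f, hf, hf0⟩ := Submodule.exists_mem_ne_zero_of_ne_bot hker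
    have hfI : ∫ x in Ω, (f : E → ℝ) x = 0 := LinearMap.mem_ker.1 hf
    have hf0' : (f : E → ℝ) ≠ 0 := fun h => hf0 (Subtype.ext h)
    have hpos := integral_sq_pos hΩ hb h1 h2 f.2 hf0'
    have h6 := hK f.1 (h1 f.1 f.2) hfI
    have h7 : K ≤ (∫ x in Ω, ‖fderiv ℝ (f : E → ℝ) x‖ ^ 2) / (∫ x in Ω, (f : E → ℝ) x ^ 2) := by
      rw [le_div_iff₀ hpos]; exact h6
    refine h7.trans (le_csSup ?_ ⟨f.1, f.2, hf0', rfl⟩)
    refine ⟨C, ?_⟩
    rintro q ⟨g, hg, hg0, rfl⟩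
    rw [div_le_iff₀ (integral_sq_pos hΩ hb h1 h2 hg hg0)]
    exact hC g hg

end Pool.Agent.Neu
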