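import Mathlib

/-! NEU-WIRT: Wirtinger's inequality. -/

set_option autoImplicit false

open MeasureTheory Set

namespace Pool.Agent.Neu

theorem wirtinger {f f' : ℝ → ℝ} (hf : ∀ t, HasDerivAt f (f' t) t) (hf' : Continuous f')
    (hper : f Real.pi = f (-Real.pi)) (h0 : ∫ t in (-Real.pi)..Real.pi, f t = 0) :
    ∫ t in (-Real.pi)..Real.pi, f t ^ 2 ≤ ∫ t in (-Real.pi)..Real.pi, f' t ^ 2 := by
  have hab : -Real.pi < Real.pi := by linarith [Real.pi_pos]
  have hfc : Continuous f := continuous_iff_continuousAt.2 fun t => (hf t).continuousAt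
  have hFc : Continuous (fun t => (f t : ℂ)) := Complex.continuous_ofReal.comp hfc
  have hFc' : Continuous (fun t => (f' t : ℂ)) := Complex.continuous_ofReal.comp hf'
  have hmem : ∀ {g : ℝ → ℂ}, Continuous g →
      MemLp g 2 (volume.restrict (Ioc (-Real.pi) Real.pi)) := by
    intro g hg
    obtain ⟨C, hC⟩ := isCompact_Icc.exists_bound_of_continuousOn (s := Icc (-Real.pi) Real.pi)
      hg.continuousOn
    have hfin : IsFiniteMeasure (volume.restrict (Icc (-Real.pi) Real.pi)) :=
      ⟨by rw [Measure.restrict_apply_univ]; exact isCompact_Icc.measure_lt_top⟩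
    have h1 : MemLp g 2 (volume.restrict (Icc (-Real.pi) Real.pi)) :=
      MemLp.of_bound hg.aestronglyMeasurable C
        ((ae_restrict_iff' measurableSet_Icc).2 (Filter.Eventually.of_forall hC))
    exact h1.mono_measure (Measure.restrict_mono Ioc_subset_Icc_self le_rfl)
  have s1 := hasSum_sq_fourierCoeffOn hab (hmem hFc)
  have s2 := hasSum_sq_fourierCoeffOn hab (hmem hFc')
  have hle : ∀ n : ℤ, ‖fourierCoeffOn hab (fun t => (f t : ℂ)) n‖ ^ 2 ≤
      ‖fourierCoeffOn hab (fun t => (f' t : ℂ)) n‖ ^ 2 := by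
    intro n
    by_cases hn : n = 0
    · subst hn
      have : fourierCoeffOn hab (fun t => (f t : ℂ)) 0 = 0 := by
        rw [fourierCoeffOn_eq_integral]
        simp only [neg_zero, fourier_zero, one_smul]
        rw [intervalIntegral.integral_ofReal, h0]
        simp
      rw [this, norm_zero, zero_pow two_ne_zero]
      exact sq_nonneg _
    · have h1 := fourierCoeffOn_of_hasDerivAt hab hn (f := fun t => (f t : ℂ))
        (f' := fun t => (f' t : ℂ)) (fun x _ => (hf x).ofReal_comp) (hFc'.intervalIntegrable _ _)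
      have h2 : ‖fourierCoeffOn hab (fun t => (f t : ℂ)) n‖ ≤
          ‖fourierCoeffOn hab (fun t => (f' t : ℂ)) n‖ := by
        rw [h1, hper, sub_self, mul_zero, zero_sub]
        have hπ : (Real.pi : ℂ) ≠ 0 := by exact_mod_cast Real.pi_ne_zero
        have hnC : (n : ℂ) ≠ 0 := by exact_mod_cast hn
        have h3 : 1 / (-2 * (Real.pi : ℂ) * Complex.I * n) *
            -(((Real.pi : ℂ) - (-Real.pi : ℝ)) * fourierCoeffOn hab (fun t => (f' t : ℂ)) n) =
            1 / (Complex.I * n) * fourierCoeffOn hab (fun t => (f' t : ℂ)) n := by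
          push_cast
          field_simp
          ring
        rw [h3, norm_mul, norm_div, norm_one, norm_mul, Complex.norm_I, one_mul]
        have h4 : (1 : ℝ) ≤ ‖(n : ℂ)‖ := by
          rw [Complex.norm_intCast]
          exact_mod_cast Int.one_le_abs hn
        have h5 : 1 / ‖(n : ℂ)‖ ≤ 1 := by
          rw [div_le_one (by linarith)]
          exact h4
        calc 1 / ‖(n : ℂ)‖ * ‖fourierCoeffOn hab (fun t => (f' t : ℂ)) n‖
            ≤ 1 * ‖fourierCoeffOn hab (fun t => (f' t : ℂ)) n‖ :=
              mul_le_mul_of_nonneg_right h5 (norm_nonneg _)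
          _ = _ := one_mul _
      exact pow_le_pow_left₀ (norm_nonneg _) h2 2
  have hfin := hasSum_le hle s1 s2
  simp only [smul_eq_mul, Complex.norm_real, Real.norm_eq_abs, sq_abs] at hfin
  have hpos : 0 < (Real.pi - -Real.pi)⁻¹ := by
    apply inv_pos.2
    linarith
  exact le_of_mul_le_mul_left hfin hpos

end Pool.Agent.Neu
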