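import Pool.Agent.Neu.Defs
import Pool.Agent.Neu.Wirt
import Pool.Agent.Neu.Radial

/-! NEU-DISC: the sharp Poincare inequality on the unit disc. -/

set_option autoImplicit false

open MeasureTheory Set

namespace Pool.Agent.Neu

variable {K : ℝ} {φ ψ : ℝ → ℝ}

namespace Discx

/-- the point with polar coordinates `(r, t)` -/
noncomputable def P (r t : ℝ) : E := !₂[r * Real.cos t, r * Real.sin t]

theorem continuous_P : Continuous (fun p : ℝ × ℝ => P p.1 p.2) := by
  unfold P
  refine (PiLp.continuous_toLp 2 (fun _ : Fin 2 => ℝ)).comp ?_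
  refine continuous_pi ?_
  intro i
  fin_cases i
  · simp
    fun_prop
  · simp
    fun_prop

theorem integral_E_eq_prod (g : E → ℝ) :
    ∫ y, g y = ∫ p : ℝ × ℝ, g !₂[p.1, p.2] := by
  have h1 := (PiLp.volume_preserving_toLp (Fin 2)).integral_comp
    (MeasurableEquiv.toLp 2 (Fin 2 → ℝ)).measurableEmbedding g
  have h2 := (volume_preserving_finTwoArrow ℝ).symm.integral_comp
    (MeasurableEquiv.finTwoArrow (α := ℝ)).symm.measurableEmbedding
    (fun x : Fin 2 → ℝ => g (WithLp.toLp 2 x))
  rw [← h1, ← h2]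
  rfl

end Discx

/-- polar coordinates on `E` -/
theorem integral_disc_polar {f : E → ℝ} (hf : Continuous f) :
    ∫ y in D, f y = ∫ r in (0 : ℝ)..1, ∫ t in (-Real.pi)..Real.pi,
      f !₂[r * Real.cos t, r * Real.sin t] * r := by
  have hc : Continuous (fun p : ℝ × ℝ => f (Discx.P p.1 p.2) * p.1) :=
    (hf.comp Discx.continuous_P).mul continuous_fst
  rw [← integral_indicator Metric.isOpen_ball.measurableSet, Discx.integral_E_eq_prod,
    ← integral_comp_polarCoord_symm]
  have h1 : ∫ p in polarCoord.target, p.1 • (fun q : ℝ × ℝ => (D.indicator f) !₂[q.1, q.2])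
      (polarCoord.symm p) = ∫ p in polarCoord.target,
        (Set.indicator (Ioo (0 : ℝ) 1 ×ˢ Ioo (-Real.pi) Real.pi)
          (fun p : ℝ × ℝ => f (Discx.P p.1 p.2) * p.1)) p := by
    refine setIntegral_congr_fun polarCoord.open_target.measurableSet ?_
    rintro ⟨r, t⟩ ⟨hr, ht⟩
    simp only [polarCoord_symm_apply] 
    simp only [mem_Ioi] at hr
    simp only at ht
    have hmem : (!₂[r * Real.cos t, r * Real.sin t] : E) ∈ D ↔ r < 1 := by
      rw [mem_ball_zero_iff, EuclideanSpace.norm_eq, Fin.sum_univ_two]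
      simp only [Real.norm_eq_abs, sq_abs]
      have h9 : (r * Real.cos t) ^ 2 + (r * Real.sin t) ^ 2 = r ^ 2 := by
        have := Real.sin_sq_add_cos_sq t
        linear_combination r ^ 2 * this
      change √((r * Real.cos t) ^ 2 + (r * Real.sin t) ^ 2) < 1 ↔ r < 1
      rw [h9, Real.sqrt_sq hr.le]
    by_cases hr1 : r < 1
    · have hm : (r, t) ∈ Ioo (0 : ℝ) 1 ×ˢ Ioo (-Real.pi) Real.pi := ⟨⟨hr, hr1⟩, ht⟩
      rw [indicator_of_mem (hmem.2 hr1), indicator_of_mem hm]
      simp [Discx.P, mul_comm]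
    · have hm : (r, t) ∉ Ioo (0 : ℝ) 1 ×ˢ Ioo (-Real.pi) Real.pi := fun h => hr1 h.1.2
      rw [indicator_of_notMem (fun h => hr1 (hmem.1 h)), indicator_of_notMem hm]
      simp
  rw [h1, setIntegral_indicator (measurableSet_Ioo.prod measurableSet_Ioo)]
  have h2 : polarCoord.target ∩ (Ioo (0 : ℝ) 1 ×ˢ Ioo (-Real.pi) Real.pi)
      = Ioo (0 : ℝ) 1 ×ˢ Ioo (-Real.pi) Real.pi := by
    apply inter_eq_right.2
    rintro ⟨r, t⟩ ⟨hr, ht⟩
    exact ⟨hr.1, ht⟩
  rw [h2]
  have hint : IntegrableOn (fun p : ℝ × ℝ => f (Discx.P p.1 p.2) * p.1)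
      (Ioo (0 : ℝ) 1 ×ˢ Ioo (-Real.pi) Real.pi) (volume.prod volume) := by
    have : IntegrableOn (fun p : ℝ × ℝ => f (Discx.P p.1 p.2) * p.1)
      (Icc (0 : ℝ) 1 ×ˢ Icc (-Real.pi) Real.pi) (volume : Measure (ℝ × ℝ)) :=
      hc.continuousOn.integrableOn_compact (isCompact_Icc.prod isCompact_Icc)
    exact this.mono_set (prod_mono Ioo_subset_Icc_self Ioo_subset_Icc_self)
  have h3 := setIntegral_prod _ hint
  have h4 : (volume : Measure (ℝ × ℝ)) = (volume : Measure ℝ).prod volume := rfl
  rw [h4, h3, intervalIntegral.integral_of_le zero_le_one, integral_Ioc_eq_integral_Ioo]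
  congr 1
  funext r
  rw [intervalIntegral.integral_of_le (by linarith [Real.pi_pos]), integral_Ioc_eq_integral_Ioo]
  rfl

namespace Discx

theorem hasDerivAt_int {F F' : ℝ → ℝ → ℝ} (hF : Continuous (fun p : ℝ × ℝ => F p.1 p.2))
    (hF' : Continuous (fun p : ℝ × ℝ => F' p.1 p.2))
    (hd : ∀ r t, HasDerivAt (fun x => F x t) (F' r t) r) (a b r : ℝ) :
    HasDerivAt (fun x => ∫ t in a..b, F x t) (∫ t in a..b, F' r t) r := by
  obtain ⟨C, hC⟩ := ((isCompact_closedBall r 1).prod (isCompact_uIcc (a := a) (b := b))).exists_bound_of_continuousOn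
    hF'.continuousOn
  have h1 : ∀ x, Continuous (fun t => F x t) := fun x => hF.comp (by fun_prop : Continuous (fun t : ℝ => (x, t)))
  have h2 : ∀ x, Continuous (fun t => F' x t) := fun x => hF'.comp (by fun_prop : Continuous (fun t : ℝ => (x, t)))
  refine (intervalIntegral.hasDerivAt_integral_of_dominated_loc_of_deriv_le
    (F := F) (F' := F') (μ := volume) (bound := fun _ => C)
    (Metric.closedBall_mem_nhds r one_pos) ?_ ?_ ?_ ?_ ?_ ?_).2
  · exact Filter.Eventually.of_forall fun x => (h1 x).aestronglyMeasurable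
  · exact (h1 r).intervalIntegrable a b
  · exact (h2 r).aestronglyMeasurable
  · refine Filter.Eventually.of_forall fun t ht x hx => ?_
    exact hC (x, t) ⟨hx, uIoc_subset_uIcc ht⟩
  · exact intervalIntegrable_const
  · exact Filter.Eventually.of_forall fun t ht x hx => hd x t

theorem norm_sq_dual (L : E →L[ℝ] ℝ) (t : ℝ) :
    ‖L‖ ^ 2 = L (P 1 t) ^ 2 + L !₂[-Real.sin t, Real.cos t] ^ 2 := by
  obtain ⟨v, hv⟩ := (InnerProductSpace.toDual ℝ E).surjective L
  have hL : ∀ x y : ℝ, L !₂[x, y] = v 0 * x + v 1 * y := by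
    intro x y
    rw [← hv, InnerProductSpace.toDual_apply_apply]
    simp [PiLp.inner_apply, Fin.sum_univ_two, mul_comm]
  have hn : ‖L‖ ^ 2 = v 0 ^ 2 + v 1 ^ 2 := by
    rw [← hv, LinearIsometryEquiv.norm_map, EuclideanSpace.norm_sq_eq, Fin.sum_univ_two]
    simp
  rw [hn, P, hL, hL]
  have := Real.sin_sq_add_cos_sq t
  linear_combination (-(v 0 ^ 2) - v 1 ^ 2) * this

theorem P_zero (t : ℝ) : P 0 t = 0 := by
  ext i
  fin_cases i <;> simp [P]

theorem hasDerivAt_P_r (r t : ℝ) : HasDerivAt (fun x => P x t) (P 1 t) r := by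
  have h : (fun x => P x t) = fun x : ℝ => x • P 1 t := by
    funext x
    ext i
    fin_cases i <;> simp [P]
  rw [h]
  simpa using (hasDerivAt_id r).smul_const (P 1 t)

theorem hasDerivAt_P_t (r t : ℝ) :
    HasDerivAt (fun x => P r x) (r • (!₂[-Real.sin t, Real.cos t] : E)) t := by
  have h : (fun x => P r x) = fun x : ℝ => Real.cos x • (!₂[r, 0] : E) + Real.sin x • (!₂[0, r] : E) := by
    funext x
    ext i
    fin_cases i <;> simp [P, mul_comm]
  rw [h]
  have h2 := ((Real.hasDerivAt_cos t).smul_const (!₂[r, 0] : E)).add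
    ((Real.hasDerivAt_sin t).smul_const (!₂[0, r] : E))
  have e : r • (!₂[-Real.sin t, Real.cos t] : E) = -Real.sin t • (!₂[r, 0] : E)
      + Real.cos t • (!₂[0, r] : E) := by
    ext i
    fin_cases i <;> simp [mul_comm]
  rw [e]
  exact h2

theorem continuous_Q : Continuous (fun t : ℝ => (!₂[-Real.sin t, Real.cos t] : E)) := by
  refine (PiLp.continuous_toLp 2 (fun _ : Fin 2 => ℝ)).comp ?_
  refine continuous_pi ?_
  intro i
  fin_cases i
  · simp
    fun_prop
  · simp
    fun_prop

theorem swap {F : ℝ → ℝ → ℝ} (hF : Continuous (fun p : ℝ × ℝ => F p.1 p.2)) (a b c d : ℝ) :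
    ∫ x in a..b, ∫ y in c..d, F x y = ∫ y in c..d, ∫ x in a..b, F x y := by
  apply intervalIntegral_intervalIntegral_swap
  have : IntegrableOn (fun p : ℝ × ℝ => F p.1 p.2) (uIcc a b ×ˢ uIcc c d) :=
    hF.continuousOn.integrableOn_compact (isCompact_uIcc.prod isCompact_uIcc)
  exact this.mono_set (prod_mono uIoc_subset_uIcc uIoc_subset_uIcc)

theorem cont_int {F : ℝ → ℝ → ℝ} (hF : Continuous (fun p : ℝ × ℝ => F p.1 p.2)) (a b : ℝ) :
    Continuous (fun x => ∫ y in a..b, F x y) :=
  intervalIntegral.continuous_parametric_intervalIntegral_of_continuous' hF a b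

theorem iadd {A B : ℝ → ℝ} (hA : Continuous A) (hB : Continuous B) (a b : ℝ) :
    ∫ t in a..b, (A t + B t) = (∫ t in a..b, A t) + ∫ t in a..b, B t :=
  intervalIntegral.integral_add (hA.intervalIntegrable _ _) (hB.intervalIntegrable _ _)

end Discx

open Discx in
theorem Prof.disc_poincare (h : Prof K φ ψ) {f : E → ℝ} (hf : ContDiff ℝ 1 f)
    (h0 : ∫ x in D, f x = 0) :
    K * ∫ x in D, f x ^ 2 ≤ ∫ x in D, ‖fderiv ℝ f x‖ ^ 2 := by
  have hpi := Real.pi_pos
  have hfc : Continuous f := hf.continuous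
  have hgc : Continuous (fderiv ℝ f) := hf.continuous_fderiv one_ne_zero
  have hfd : ∀ x, HasFDerivAt f (fderiv ℝ f x) x := fun x =>
    (hf.differentiable one_ne_zero x).hasFDerivAt
  -- polar functions
  set U : ℝ → ℝ → ℝ := fun r t => f (P r t) with hU
  set W : ℝ → ℝ → ℝ := fun r t => fderiv ℝ f (P r t) (P 1 t) with hW
  set S : ℝ → ℝ → ℝ := fun r t => fderiv ℝ f (P r t) !₂[-Real.sin t, Real.cos t] with hS
  have cU : Continuous (fun p : ℝ × ℝ => U p.1 p.2) := hfc.comp continuous_P
  have cW : Continuous (fun p : ℝ × ℝ => W p.1 p.2) :=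
    (hgc.comp continuous_P).clm_apply (continuous_P.comp
      (by fun_prop : Continuous (fun p : ℝ × ℝ => ((1 : ℝ), p.2))))
  have cS : Continuous (fun p : ℝ × ℝ => S p.1 p.2) :=
    (hgc.comp continuous_P).clm_apply (continuous_Q.comp continuous_snd)
  have dU : ∀ r t, HasDerivAt (fun x => U x t) (W r t) r := fun r t =>
    (hfd (P r t)).comp_hasDerivAt r (hasDerivAt_P_r r t)
  have dUt : ∀ r t, HasDerivAt (fun x => U r x) (r * S r t) t := by
    intro r t
    have h1 := (hfd (P r t)).comp_hasDerivAt t (hasDerivAt_P_t r t)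
    have h2 : fderiv ℝ f (P r t) (r • (!₂[-Real.sin t, Real.cos t] : E)) = r * S r t := by
      rw [map_smul, smul_eq_mul]
    rw [← h2]
    exact h1
  -- the mean
  set m : ℝ → ℝ := fun r => (2 * Real.pi)⁻¹ * ∫ t in (-Real.pi)..Real.pi, U r t with hm
  set m' : ℝ → ℝ := fun r => (2 * Real.pi)⁻¹ * ∫ t in (-Real.pi)..Real.pi, W r t with hm'
  have dm : ∀ r, HasDerivAt m (m' r) r := fun r =>
    (hasDerivAt_int cU cW dU (-Real.pi) Real.pi r).const_mul _
  have cm' : Continuous m' := continuous_const.mul (cont_int cW _ _)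
  have cm : Continuous m := continuous_const.mul (cont_int cU _ _)
  set V : ℝ → ℝ → ℝ := fun r t => U r t - m r with hV
  set V' : ℝ → ℝ → ℝ := fun r t => W r t - m' r with hV'
  have cV : Continuous (fun p : ℝ × ℝ => V p.1 p.2) := cU.sub (cm.comp continuous_fst)
  have cV' : Continuous (fun p : ℝ × ℝ => V' p.1 p.2) := cW.sub (cm'.comp continuous_fst)
  have dV : ∀ r t, HasDerivAt (fun x => V x t) (V' r t) r := fun r t => (dU r t).sub (dm r)
  have dVt : ∀ r t, HasDerivAt (fun x => V r x) (r * S r t) t := fun r t =>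
    (dUt r t).sub_const _
  -- section continuity
  have sec : ∀ {F : ℝ → ℝ → ℝ}, Continuous (fun p : ℝ × ℝ => F p.1 p.2) → ∀ r,
      Continuous (fun t => F r t) := fun hF r =>
    hF.comp (by fun_prop : Continuous (fun t : ℝ => (r, t)))
  have sec' : ∀ {F : ℝ → ℝ → ℝ}, Continuous (fun p : ℝ × ℝ => F p.1 p.2) → ∀ t,
      Continuous (fun r => F r t) := fun hF t =>
    hF.comp (by fun_prop : Continuous (fun r : ℝ => (r, t)))
  have hUm : ∀ r, ∫ t in (-Real.pi)..Real.pi, U r t = 2 * Real.pi * m r := by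
    intro r
    simp only [hm]
    field_simp
  have hWm : ∀ r, ∫ t in (-Real.pi)..Real.pi, W r t = 2 * Real.pi * m' r := by
    intro r
    simp only [hm']
    field_simp
  have hV0 : ∀ r, ∫ t in (-Real.pi)..Real.pi, V r t = 0 := by
    intro r
    simp only [hV]
    rw [intervalIntegral.integral_sub ((sec cU r).intervalIntegrable _ _)
      intervalIntegrable_const, hUm r, intervalIntegral.integral_const, smul_eq_mul]
    ring
  have hV'0 : ∀ r, ∫ t in (-Real.pi)..Real.pi, V' r t = 0 := by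
    intro r
    simp only [hV']
    rw [intervalIntegral.integral_sub ((sec cW r).intervalIntegrable _ _)
      intervalIntegrable_const, hWm r, intervalIntegral.integral_const, smul_eq_mul]
    ring
  have hVz : ∀ t, V 0 t = 0 := by
    intro t
    simp only [hV, hm, hU, P_zero]
    rw [intervalIntegral.integral_const, smul_eq_mul]
    field_simp
    ring
  -- the quotient V / r
  set Q : ℝ → ℝ → ℝ := fun r t => ∫ s in (0 : ℝ)..1, V' (s * r) t with hQ
  have cQ : Continuous (fun p : ℝ × ℝ => Q p.1 p.2) := by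
    refine intervalIntegral.continuous_parametric_intervalIntegral_of_continuous'
      (f := fun (p : ℝ × ℝ) (s : ℝ) => V' (s * p.1) p.2) ?_ 0 1
    exact cV'.comp (by fun_prop :
      Continuous (fun q : (ℝ × ℝ) × ℝ => (q.2 * q.1.1, q.1.2)))
  have hVQ : ∀ r t, V r t = r * Q r t := by
    intro r t
    have h1 : r * Q r t = ∫ x in (0 : ℝ)..r, V' x t := by
      have := intervalIntegral.mul_integral_comp_mul_right (a := 0) (b := 1)
        (f := fun x => V' x t) r
      simpa [hQ] using this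
    have h2 : ∫ x in (0 : ℝ)..r, V' x t = V r t - V 0 t :=
      intervalIntegral.integral_eq_sub_of_hasDerivAt (f := fun x => V x t)
        (fun x _ => dV x t) ((sec' cV' t).intervalIntegrable _ _)
    rw [h1, h2, hVz t, sub_zero]
  have hVQ2 : ∀ r t, V r t ^ 2 / r = r * Q r t ^ 2 := by
    intro r t
    by_cases hr : r = 0
    · simp [hr]
    · rw [hVQ r t]
      field_simp
  -- mean zero
  have hmz : ∫ r in (0 : ℝ)..1, m r * r = 0 := by
    have h1 := integral_disc_polar hfc
    rw [h0] at h1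
    have h2 : ∫ r in (0 : ℝ)..1, ∫ t in (-Real.pi)..Real.pi,
        f !₂[r * Real.cos t, r * Real.sin t] * r = 2 * Real.pi * ∫ r in (0 : ℝ)..1, m r * r := by
      rw [← intervalIntegral.integral_const_mul]
      congr 1
      funext r
      have : ∫ t in (-Real.pi)..Real.pi, f !₂[r * Real.cos t, r * Real.sin t] * r
          = (∫ t in (-Real.pi)..Real.pi, U r t) * r := intervalIntegral.integral_mul_const _ _
      rw [this, hUm r]
      ring
    rw [h2] at h1
    have h3 : (2 * Real.pi) ≠ 0 := by positivity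
    rcases mul_eq_zero.1 h1.symm with h4 | h4
    · exact absurd h4 h3
    · exact h4
  -- splitting of mean squares
  have split : ∀ {A B : ℝ → ℝ} {c : ℝ}, Continuous A → (∫ t in (-Real.pi)..Real.pi, A t = 0) →
      (∀ t, B t = A t + c) →
      ∫ t in (-Real.pi)..Real.pi, B t ^ 2
        = 2 * Real.pi * c ^ 2 + ∫ t in (-Real.pi)..Real.pi, A t ^ 2 := by
    intro A B c hA hA0 hB
    have h1 : ∀ t, B t ^ 2 = A t ^ 2 + (2 * c) * A t + c ^ 2 := by
      intro t
      rw [hB t]
      ring
    simp only [h1]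
    rw [iadd (A := fun t => A t ^ 2 + (2 * c) * A t) (B := fun _ => c ^ 2) (by fun_prop)
      continuous_const, iadd (A := fun t => A t ^ 2) (B := fun t => (2 * c) * A t) (by fun_prop)
      (by fun_prop), intervalIntegral.integral_const_mul, hA0,
      intervalIntegral.integral_const, smul_eq_mul]
    ring
  have sU : ∀ r, ∫ t in (-Real.pi)..Real.pi, U r t ^ 2
      = 2 * Real.pi * m r ^ 2 + ∫ t in (-Real.pi)..Real.pi, V r t ^ 2 := fun r =>
    split (sec cV r) (hV0 r) (fun t => by simp [hV])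
  have sW : ∀ r, ∫ t in (-Real.pi)..Real.pi, W r t ^ 2
      = 2 * Real.pi * m' r ^ 2 + ∫ t in (-Real.pi)..Real.pi, V' r t ^ 2 := fun r =>
    split (sec cV' r) (hV'0 r) (fun t => by simp [hV'])
  -- Wirtinger
  have wirt : ∀ r, 0 ≤ r → ∫ t in (-Real.pi)..Real.pi, r * Q r t ^ 2
      ≤ ∫ t in (-Real.pi)..Real.pi, S r t ^ 2 * r := by
    intro r hr
    rcases hr.eq_or_lt with hr | hr
    · simp [← hr]
    have h1 := wirtinger (f := fun t => V r t) (f' := fun t => r * S r t) (dVt r)
      (continuous_const.mul (sec cS r)) (by simp [hV, hU, P]) (hV0 r)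
    have h2 : ∫ t in (-Real.pi)..Real.pi, V r t ^ 2
        = r * ∫ t in (-Real.pi)..Real.pi, r * Q r t ^ 2 := by
      rw [← intervalIntegral.integral_const_mul]
      congr 1
      funext t
      rw [hVQ r t]
      ring
    have h3 : ∫ t in (-Real.pi)..Real.pi, (r * S r t) ^ 2
        = r * ∫ t in (-Real.pi)..Real.pi, S r t ^ 2 * r := by
      rw [← intervalIntegral.integral_const_mul]
      congr 1
      funext t
      ring
    rw [h2, h3] at h1
    exact le_of_mul_le_mul_left h1 hr
  -- the two integrals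
  have I1 : ∫ x in D, f x ^ 2 = 2 * Real.pi * (∫ r in (0 : ℝ)..1, m r ^ 2 * r)
      + ∫ r in (0 : ℝ)..1, ∫ t in (-Real.pi)..Real.pi, V r t ^ 2 * r := by
    rw [integral_disc_polar (f := fun x => f x ^ 2) (hfc.pow 2), ← intervalIntegral.integral_const_mul,
      ← intervalIntegral.integral_add]
    · congr 1
      funext r
      have h1 : ∫ t in (-Real.pi)..Real.pi, f !₂[r * Real.cos t, r * Real.sin t] ^ 2 * r
          = (∫ t in (-Real.pi)..Real.pi, U r t ^ 2) * r := intervalIntegral.integral_mul_const _ _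
      rw [h1, sU r, intervalIntegral.integral_mul_const]
      ring
    · exact (continuous_const.mul ((cm.pow 2).mul continuous_id)).intervalIntegrable _ _
    · exact (cont_int (F := fun r t => V r t ^ 2 * r)
        ((cV.pow 2).mul continuous_fst) _ _).intervalIntegrable _ _
  have I2 : ∫ x in D, ‖fderiv ℝ f x‖ ^ 2 = 2 * Real.pi * (∫ r in (0 : ℝ)..1, m' r ^ 2 * r)
      + ∫ r in (0 : ℝ)..1, ((∫ t in (-Real.pi)..Real.pi, V' r t ^ 2 * r)
        + ∫ t in (-Real.pi)..Real.pi, S r t ^ 2 * r) := by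
    rw [integral_disc_polar (f := fun x => ‖fderiv ℝ f x‖ ^ 2) (hgc.norm.pow 2), ← intervalIntegral.integral_const_mul,
      ← intervalIntegral.integral_add]
    · congr 1
      funext r
      have h1 : ∫ t in (-Real.pi)..Real.pi,
          ‖fderiv ℝ f !₂[r * Real.cos t, r * Real.sin t]‖ ^ 2 * r
          = ∫ t in (-Real.pi)..Real.pi, (W r t ^ 2 * r + S r t ^ 2 * r) := by
        congr 1
        funext t
        rw [norm_sq_dual _ t]
        simp only [hW, hS, P]
        ring
      rw [h1, iadd (A := fun t => W r t ^ 2 * r) (B := fun t => S r t ^ 2 * r)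
        (((sec cW r).pow 2).mul continuous_const)
        (((sec cS r).pow 2).mul continuous_const)]
      simp only [intervalIntegral.integral_mul_const]
      rw [sW r]
      ring
    · exact (continuous_const.mul ((cm'.pow 2).mul continuous_id)).intervalIntegrable _ _
    · exact ((cont_int (F := fun r t => V' r t ^ 2 * r)
        ((cV'.pow 2).mul continuous_fst) _ _).add (cont_int (F := fun r t => S r t ^ 2 * r)
        ((cS.pow 2).mul continuous_fst) _ _)).intervalIntegrable _ _
  -- radial part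
  have R1 := radial_mean_zero dm cm' hmz
  have hm2 : 0 ≤ ∫ r in (0 : ℝ)..1, m r ^ 2 * r := by
    apply intervalIntegral.integral_nonneg zero_le_one
    intro r hr
    exact mul_nonneg (sq_nonneg _) hr.1
  -- angular part
  have R2 : K * ∫ r in (0 : ℝ)..1, ∫ t in (-Real.pi)..Real.pi, V r t ^ 2 * r
      ≤ ∫ r in (0 : ℝ)..1, ∫ t in (-Real.pi)..Real.pi, (V' r t ^ 2 * r + r * Q r t ^ 2) := by
    rw [swap (F := fun r t => V r t ^ 2 * r) ((cV.pow 2).mul continuous_fst),
      swap (F := fun r t => V' r t ^ 2 * r + r * Q r t ^ 2)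
        (((cV'.pow 2).mul continuous_fst).add (continuous_fst.mul (cQ.pow 2))),
      ← intervalIntegral.integral_const_mul]
    apply intervalIntegral.integral_mono_on (by linarith)
    · have c1 : Continuous (fun p : ℝ × ℝ => V p.2 p.1 ^ 2 * p.2) :=
        ((cV.pow 2).mul continuous_fst).comp continuous_swap
      exact (continuous_const.mul (cont_int (F := fun t r => V r t ^ 2 * r) c1 _ _)).intervalIntegrable _ _
    · have c1 : Continuous (fun p : ℝ × ℝ => V' p.2 p.1 ^ 2 * p.2 + p.2 * Q p.2 p.1 ^ 2) :=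
        (((cV'.pow 2).mul continuous_fst).add (continuous_fst.mul (cQ.pow 2))).comp continuous_swap
      exact (cont_int (F := fun t r => V' r t ^ 2 * r + r * Q r t ^ 2) c1 _ _).intervalIntegrable _ _
    · intro t _
      have h1 := h.picone (u := fun r => V r t) (u' := fun r => V' r t) (fun r => dV r t)
        (sec' cV' t) (hVz t)
      have h2 : ∫ r in (0 : ℝ)..1, (V' r t ^ 2 * r + V r t ^ 2 / r)
          = ∫ r in (0 : ℝ)..1, (V' r t ^ 2 * r + r * Q r t ^ 2) := by
        congr 1
        funext r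
        rw [hVQ2 r t]
      rw [h2] at h1
      exact h1
  have R3 : ∫ r in (0 : ℝ)..1, ∫ t in (-Real.pi)..Real.pi, (V' r t ^ 2 * r + r * Q r t ^ 2)
      ≤ ∫ r in (0 : ℝ)..1, ((∫ t in (-Real.pi)..Real.pi, V' r t ^ 2 * r)
        + ∫ t in (-Real.pi)..Real.pi, S r t ^ 2 * r) := by
    apply intervalIntegral.integral_mono_on zero_le_one
    · exact (cont_int (F := fun r t => V' r t ^ 2 * r + r * Q r t ^ 2)
        (((cV'.pow 2).mul continuous_fst).add
        (continuous_fst.mul (cQ.pow 2))) _ _).intervalIntegrable _ _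
    · exact ((cont_int (F := fun r t => V' r t ^ 2 * r)
        ((cV'.pow 2).mul continuous_fst) _ _).add (cont_int (F := fun r t => S r t ^ 2 * r)
        ((cS.pow 2).mul continuous_fst) _ _)).intervalIntegrable _ _
    · intro r hr
      rw [iadd (A := fun t => V' r t ^ 2 * r) (B := fun t => r * Q r t ^ 2)
        (((sec cV' r).pow 2).mul continuous_const)
        (continuous_const.mul ((sec cQ r).pow 2))]
      exact add_le_add le_rfl (wirt r hr.1)
  have hK := h.K_hi
  rw [I1, I2]
  have e1 : K * (2 * Real.pi * ∫ r in (0 : ℝ)..1, m r ^ 2 * r)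
      ≤ 2 * Real.pi * ∫ r in (0 : ℝ)..1, m' r ^ 2 * r := by
    have : K * ∫ r in (0 : ℝ)..1, m r ^ 2 * r ≤ ∫ r in (0 : ℝ)..1, m' r ^ 2 * r := by
      nlinarith
    nlinarith
  nlinarith [R2, R3, e1]

end Pool.Agent.Neu
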