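import Mathlib

/-!
Project NEU (MP_7e3a18_an): for every bounded open plane set, `(mu_2 + mu_3) A^3 / I` is at most
its value for the disc.  Definitions shared by all modules.
-/

set_option autoImplicit false

open MeasureTheory Set

namespace Pool.Agent.Neu

/-- the Euclidean plane -/
abbrev E : Type := EuclideanSpace ℝ (Fin 2)

/-- the unit disc -/
abbrev D : Set E := Metric.ball (0 : E) 1

/-- squared norm in coordinates -/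
noncomputable def sq (y : E) : ℝ := y 0 ^ 2 + y 1 ^ 2

/-- The radial profile `φ (s)`, `s = r ^ 2`, `ψ = φ'`: `g (r) = r φ (r ^ 2)` is `J_1 (κ r) / J_1 (κ)`
for `r ≤ 1` and `1` for `r ≥ 1`, where `κ ^ 2 = K` and `J_1' (κ) = 0`. -/
structure Prof (K : ℝ) (φ ψ : ℝ → ℝ) : Prop where
  K_lo : 338 / 100 < K
  K_hi : K < 340 / 100
  deriv : ∀ s, HasDerivAt φ (ψ s) s
  cont : Continuous ψ
  out : ∀ s, 1 ≤ s → φ s = 1 / √s
  outd : ∀ s, 1 ≤ s → ψ s = -1 / (2 * s * √s)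
  one_le : ∀ s ∈ Icc (0 : ℝ) 1, 1 ≤ φ s
  le : ∀ s ∈ Icc (0 : ℝ) 1, φ s ≤ 1 + 27 / 40 * (1 - s)
  nonpos : ∀ s ∈ Icc (0 : ℝ) 1, ψ s ≤ 0
  mono : ∀ s ∈ Icc (0 : ℝ) 1, 0 ≤ φ s + 2 * s * ψ s
  ode : ∀ s, s < 1 → HasDerivAt (fun t => t ^ 2 * ψ t) (-(K / 4) * (s * φ s)) s

/-- the two components of the vector field `w (y) = φ (|y|^2) y = g (r) y / r` -/
noncomputable def w (φ : ℝ → ℝ) (i : Fin 2) (y : E) : ℝ := φ (sq y) * y i

/-- the quadratic form of the adjugate of `[[p, q], [q, r]]` -/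
noncomputable def N (p q r : ℝ) (z : E) : ℝ := r * z 0 ^ 2 - 2 * q * z 0 * z 1 + p * z 1 ^ 2

/-- energy density of the two trial functions, `Q = [[p, q], [q, r]]` -/
noncomputable def eQ (φ ψ : ℝ → ℝ) (p q r : ℝ) (y : E) : ℝ :=
  (p + r) * (φ (sq y) + 2 * sq y * ψ (sq y)) ^ 2
    - 4 * ψ (sq y) * (φ (sq y) + sq y * ψ (sq y)) * N p q r y

/-- the density compared in the bathtub argument -/
noncomputable def qq (α : ℝ) (φ ψ : ℝ → ℝ) (p q r : ℝ) (y : E) : ℝ :=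
  eQ φ ψ p q r y - α * N p q r y
    + (1 - α) * φ (sq y) ^ 2 * ((p + r) / 2 * sq y - N p q r y)

/-- `h (s) = 2 φ^2 - 2 α s + (α - 1) (1 + s φ^2)` -/
noncomputable def hh (α : ℝ) (φ : ℝ → ℝ) (s : ℝ) : ℝ :=
  2 * φ s ^ 2 - 2 * α * s + (α - 1) * (1 + s * φ s ^ 2)

/-- the affine map `x ↦ σ (m I + X) x + c`, `X = [[a, b], [b, -a]]`, `m = √(1 + a^2 + b^2)` -/
noncomputable def T (σ a b : ℝ) (c : E) (x : E) : E :=
  !₂[σ * ((√(1 + a ^ 2 + b ^ 2) + a) * x 0 + b * x 1) + c 0,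
     σ * (b * x 0 + (√(1 + a ^ 2 + b ^ 2) - a) * x 1) + c 1]

/-- entries of `Q = B ^ 2`, `B = σ (m I + X)` -/
noncomputable def Qp (σ a b : ℝ) : ℝ := σ ^ 2 * ((√(1 + a ^ 2 + b ^ 2) + a) ^ 2 + b ^ 2)
noncomputable def Qr (σ a b : ℝ) : ℝ := σ ^ 2 * ((√(1 + a ^ 2 + b ^ 2) - a) ^ 2 + b ^ 2)
noncomputable def Qm (σ a b : ℝ) : ℝ := σ ^ 2 * (2 * √(1 + a ^ 2 + b ^ 2) * b)

/-- Neumann eigenvalues by the min-max formula (the formula of the frozen statement) -/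
noncomputable def mu (Ω : Set E) (k : ℕ) : ℝ :=
  sInf {r : ℝ | ∃ V : Submodule ℝ (E → ℝ),
    (∀ f ∈ V, ContDiff ℝ 1 f) ∧ (∀ f ∈ V, (∀ x ∈ Ω, f x = 0) → f = 0) ∧
    FiniteDimensional ℝ V ∧ Module.finrank ℝ V = k ∧
    r = sSup {q : ℝ | ∃ f ∈ V, f ≠ 0 ∧
      q = (∫ x in Ω, ‖fderiv ℝ f x‖ ^ 2) / (∫ x in Ω, f x ^ 2)}}

end Pool.Agent.Neu
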