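import Pool.Agent.Neu.Defs
import Pool.Agent.Neu.Ode

/-! NEU-GRAD: the trial functions `w_i ∘ T` are `C^1` and their energy density is `eQ`. -/

set_option autoImplicit false

open MeasureTheory Set

namespace Pool.Agent.Neu

variable {K : ℝ} {φ ψ : ℝ → ℝ}

namespace Gradx

/-- coordinate functional -/
noncomputable abbrev pr (i : Fin 2) : E →L[ℝ] ℝ := EuclideanSpace.proj i

theorem norm_sq_fun (α β : ℝ) : ‖α • pr 0 + β • pr 1‖ ^ 2 = α ^ 2 + β ^ 2 := by
  have h : α • pr 0 + β • pr 1 = InnerProductSpace.toDual ℝ E (!₂[α, β]) := by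
    ext x
    simp [EuclideanSpace.inner_eq_star_dotProduct, dotProduct, Fin.sum_univ_two, mul_comm]
  rw [h, LinearIsometryEquiv.norm_map, EuclideanSpace.real_norm_sq_eq]
  simp [Fin.sum_univ_two]

theorem T_zero (σ a b : ℝ) (c x : E) :
    T σ a b c x 0 = σ * ((√(1 + a ^ 2 + b ^ 2) + a) * x 0 + b * x 1) + c 0 := by
  simp [T]

theorem T_one (σ a b : ℝ) (c x : E) :
    T σ a b c x 1 = σ * (b * x 0 + (√(1 + a ^ 2 + b ^ 2) - a) * x 1) + c 1 := by
  simp [T]

theorem hasFDerivAt_T_zero (σ a b : ℝ) (c x : E) :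
    HasFDerivAt (fun x => T σ a b c x 0)
      ((σ * (√(1 + a ^ 2 + b ^ 2) + a)) • pr 0 + (σ * b) • pr 1) x := by
  have h0 : HasFDerivAt (fun x : E => x 0) (pr 0) x := (pr 0).hasFDerivAt
  have h1 : HasFDerivAt (fun x : E => x 1) (pr 1) x := (pr 1).hasFDerivAt
  have h := (((h0.const_mul (√(1 + a ^ 2 + b ^ 2) + a)).add (h1.const_mul b)).const_mul σ).add_const
    (c 0)
  have e : (fun x => T σ a b c x 0)
      = fun x => σ * ((√(1 + a ^ 2 + b ^ 2) + a) * x 0 + b * x 1) + c 0 := by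
    funext x; exact T_zero σ a b c x
  rw [e]
  exact h.congr_fderiv (by rw [smul_add, smul_smul, smul_smul])

theorem hasFDerivAt_T_one (σ a b : ℝ) (c x : E) :
    HasFDerivAt (fun x => T σ a b c x 1)
      ((σ * b) • pr 0 + (σ * (√(1 + a ^ 2 + b ^ 2) - a)) • pr 1) x := by
  have h0 : HasFDerivAt (fun x : E => x 0) (pr 0) x := (pr 0).hasFDerivAt
  have h1 : HasFDerivAt (fun x : E => x 1) (pr 1) x := (pr 1).hasFDerivAt
  have h := (((h0.const_mul b).add (h1.const_mul (√(1 + a ^ 2 + b ^ 2) - a))).const_mul σ).add_const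
    (c 1)
  have e : (fun x => T σ a b c x 1)
      = fun x => σ * (b * x 0 + (√(1 + a ^ 2 + b ^ 2) - a) * x 1) + c 1 := by
    funext x; exact T_one σ a b c x
  rw [e]
  exact h.congr_fderiv (by rw [smul_add, smul_smul, smul_smul])

theorem contDiff_T (σ a b : ℝ) (c : E) (i : Fin 2) :
    ContDiff ℝ 1 (fun x => T σ a b c x i) := by
  have h0 : ContDiff ℝ 1 (fun x : E => x 0) := (pr 0).contDiff
  have h1 : ContDiff ℝ 1 (fun x : E => x 1) := (pr 1).contDiff
  fin_cases i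
  · have e : (fun x => T σ a b c x 0)
        = fun x => σ * ((√(1 + a ^ 2 + b ^ 2) + a) * x 0 + b * x 1) + c 0 := by
      funext x; exact T_zero σ a b c x
    show ContDiff ℝ 1 (fun x => T σ a b c x 0)
    rw [e]
    exact (contDiff_const.mul ((contDiff_const.mul h0).add (contDiff_const.mul h1))).add
      contDiff_const
  · have e : (fun x => T σ a b c x 1)
        = fun x => σ * (b * x 0 + (√(1 + a ^ 2 + b ^ 2) - a) * x 1) + c 1 := by
      funext x; exact T_one σ a b c x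
    show ContDiff ℝ 1 (fun x => T σ a b c x 1)
    rw [e]
    exact (contDiff_const.mul ((contDiff_const.mul h0).add (contDiff_const.mul h1))).add
      contDiff_const

theorem contDiff_phi (h : Prof K φ ψ) : ContDiff ℝ 1 φ := by
  rw [contDiff_one_iff_deriv]
  refine ⟨fun s => (h.deriv s).differentiableAt, ?_⟩
  have : deriv φ = ψ := by
    funext s; exact (h.deriv s).deriv
  rw [this]
  exact h.cont

theorem hasFDerivAt_sq (σ a b : ℝ) (c x : E) :
    HasFDerivAt (fun x => sq (T σ a b c x))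
      ((2 * T σ a b c x 0) • ((σ * (√(1 + a ^ 2 + b ^ 2) + a)) • pr 0 + (σ * b) • pr 1)
        + (2 * T σ a b c x 1) • ((σ * b) • pr 0 + (σ * (√(1 + a ^ 2 + b ^ 2) - a)) • pr 1)) x := by
  have h0 := (hasFDerivAt_T_zero σ a b c x).pow 2
  have h1 := (hasFDerivAt_T_one σ a b c x).pow 2
  have h := h0.add h1
  have h' := h.congr_fderiv (g' := (2 * T σ a b c x 0) •
        ((σ * (√(1 + a ^ 2 + b ^ 2) + a)) • pr 0 + (σ * b) • pr 1)
        + (2 * T σ a b c x 1) • ((σ * b) • pr 0 + (σ * (√(1 + a ^ 2 + b ^ 2) - a)) • pr 1))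
      (by simp)
  exact h'

end Gradx

open Gradx

theorem Prof.contDiff_wT (h : Prof K φ ψ) (σ a b : ℝ) (c : E) (i : Fin 2) :
    ContDiff ℝ 1 (fun x => w φ i (T σ a b c x)) := by
  have hs : ContDiff ℝ 1 (fun x => sq (T σ a b c x)) :=
    ((contDiff_T σ a b c 0).pow 2).add ((contDiff_T σ a b c 1).pow 2)
  exact ((contDiff_phi h).comp hs).mul (contDiff_T σ a b c i)

theorem Prof.grad_wT (h : Prof K φ ψ) (σ a b : ℝ) (c x : E) :
    ‖fderiv ℝ (fun x => w φ 0 (T σ a b c x)) x‖ ^ 2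
      + ‖fderiv ℝ (fun x => w φ 1 (T σ a b c x)) x‖ ^ 2
      = eQ φ ψ (Qp σ a b) (Qm σ a b) (Qr σ a b) (T σ a b c x) := by
  have hφ : HasFDerivAt (fun x => φ (sq (T σ a b c x)))
      (ψ (sq (T σ a b c x)) •
        ((2 * T σ a b c x 0) • ((σ * (√(1 + a ^ 2 + b ^ 2) + a)) • pr 0 + (σ * b) • pr 1)
        + (2 * T σ a b c x 1) • ((σ * b) • pr 0 + (σ * (√(1 + a ^ 2 + b ^ 2) - a)) • pr 1))) x :=
    (h.deriv (sq (T σ a b c x))).comp_hasFDerivAt x (hasFDerivAt_sq σ a b c x)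
  have g0 := (hφ.mul (hasFDerivAt_T_zero σ a b c x)).fderiv
  have g1 := (hφ.mul (hasFDerivAt_T_one σ a b c x)).fderiv
  have e0 : fderiv ℝ (fun x => w φ 0 (T σ a b c x)) x =
      ((φ (sq (T σ a b c x)) + 2 * ψ (sq (T σ a b c x)) * (T σ a b c x 0) ^ 2)
          * (σ * (√(1 + a ^ 2 + b ^ 2) + a))
        + 2 * ψ (sq (T σ a b c x)) * T σ a b c x 0 * T σ a b c x 1 * (σ * b)) • pr 0
      + ((φ (sq (T σ a b c x)) + 2 * ψ (sq (T σ a b c x)) * (T σ a b c x 0) ^ 2) * (σ * b)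
        + 2 * ψ (sq (T σ a b c x)) * T σ a b c x 0 * T σ a b c x 1
          * (σ * (√(1 + a ^ 2 + b ^ 2) - a))) • pr 1 := by
    have : (fun x => w φ 0 (T σ a b c x))
        = (fun x => φ (sq (T σ a b c x))) * (fun x => T σ a b c x 0) := rfl
    rw [this, g0]
    module
  have e1 : fderiv ℝ (fun x => w φ 1 (T σ a b c x)) x =
      ((φ (sq (T σ a b c x)) + 2 * ψ (sq (T σ a b c x)) * (T σ a b c x 1) ^ 2) * (σ * b)
        + 2 * ψ (sq (T σ a b c x)) * T σ a b c x 0 * T σ a b c x 1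
          * (σ * (√(1 + a ^ 2 + b ^ 2) + a))) • pr 0
      + ((φ (sq (T σ a b c x)) + 2 * ψ (sq (T σ a b c x)) * (T σ a b c x 1) ^ 2)
          * (σ * (√(1 + a ^ 2 + b ^ 2) - a))
        + 2 * ψ (sq (T σ a b c x)) * T σ a b c x 0 * T σ a b c x 1 * (σ * b)) • pr 1 := by
    have : (fun x => w φ 1 (T σ a b c x))
        = (fun x => φ (sq (T σ a b c x))) * (fun x => T σ a b c x 1) := rfl
    rw [this, g1]
    module
  rw [e0, e1, norm_sq_fun, norm_sq_fun]
  simp only [eQ, N, Qp, Qm, Qr]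
  have hsq : sq (T σ a b c x) = T σ a b c x 0 ^ 2 + T σ a b c x 1 ^ 2 := rfl
  generalize φ (sq (T σ a b c x)) = F
  generalize ψ (sq (T σ a b c x)) = G
  rw [hsq]
  ring

end Pool.Agent.Neu
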