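import Pool.Agent.Neu.Defs

/-! NEU-TRIAL: upper bound for `mu 2 + mu 3` from two trial functions. -/

set_option autoImplicit false

open MeasureTheory Set

namespace Pool.Agent.Neu

namespace Trialx

/-- a subspace given by an injective parametrisation bounds `mu` from above -/
theorem mu_le {Ω : Set E} {k : ℕ} (φ : (Fin k → ℝ) →ₗ[ℝ] (E → ℝ)) {R : ℝ} (hR : 0 ≤ R)
    (h1 : ∀ x, ContDiff ℝ 1 (φ x)) (h2 : ∀ x, (∀ y ∈ Ω, φ x y = 0) → x = 0)
    (h3 : ∀ x, (∫ y in Ω, ‖fderiv ℝ (φ x) y‖ ^ 2) ≤ R * ∫ y in Ω, φ x y ^ 2) :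
    mu Ω k ≤ R := by
  have hinj : Function.Injective φ := by
    rw [← LinearMap.ker_eq_bot, LinearMap.ker_eq_bot']
    intro x hx
    apply h2
    intro y _
    rw [hx]
    rfl
  have hmem : sSup {q : ℝ | ∃ f ∈ LinearMap.range φ, f ≠ 0 ∧
      q = (∫ x in Ω, ‖fderiv ℝ f x‖ ^ 2) / (∫ x in Ω, f x ^ 2)} ∈
      {r : ℝ | ∃ V : Submodule ℝ (E → ℝ),
        (∀ f ∈ V, ContDiff ℝ 1 f) ∧ (∀ f ∈ V, (∀ x ∈ Ω, f x = 0) → f = 0) ∧
        FiniteDimensional ℝ V ∧ Module.finrank ℝ V = k ∧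
        r = sSup {q : ℝ | ∃ f ∈ V, f ≠ 0 ∧
          q = (∫ x in Ω, ‖fderiv ℝ f x‖ ^ 2) / (∫ x in Ω, f x ^ 2)}} := by
    refine ⟨LinearMap.range φ, ?_, ?_, inferInstance, ?_, rfl⟩
    · rintro f ⟨x, rfl⟩
      exact h1 x
    · rintro f ⟨x, rfl⟩ hx
      rw [h2 x hx, map_zero]
    · rw [LinearMap.finrank_range_of_inj hinj, Module.finrank_fin_fun]
  refine (csInf_le ?_ hmem).trans ?_
  · refine ⟨0, ?_⟩
    rintro r ⟨V, -, -, -, -, rfl⟩
    apply Real.sSup_nonneg
    rintro q ⟨f, -, -, rfl⟩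
    exact div_nonneg (integral_nonneg fun x => sq_nonneg _) (integral_nonneg fun x => sq_nonneg _)
  · apply Real.sSup_le _ hR
    rintro q ⟨f, ⟨x, rfl⟩, -, rfl⟩
    have hB : 0 ≤ ∫ y in Ω, φ x y ^ 2 := integral_nonneg fun x => sq_nonneg _
    rcases hB.eq_or_lt with h | h
    · rw [← h, div_zero]
      exact hR
    · rw [div_le_iff₀ h]
      exact h3 x

/-- continuous functions are integrable on bounded sets -/
theorem intOn {Ω : Set E} (hb : Bornology.IsBounded Ω) {f : E → ℝ} (hf : Continuous f) :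
    IntegrableOn f Ω := by
  have hc : IsCompact (closure Ω) := hb.isCompact_closure
  exact (hf.continuousOn.integrableOn_compact hc).mono_set subset_closure

/-- energy of `c + a v0 + b v1` -/
theorem energy {Ω : Set E} (hb : Bornology.IsBounded Ω)
    {v : Fin 2 → E → ℝ} (hv : ∀ i, ContDiff ℝ 1 (v i)) :
    ∃ G : ℝ, ∀ c a b : ℝ,
      ∫ x in Ω, ‖fderiv ℝ (fun y => c + a * v 0 y + b * v 1 y) x‖ ^ 2
        = a ^ 2 * (∫ x in Ω, ‖fderiv ℝ (v 0) x‖ ^ 2) + 2 * a * b * G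
          + b ^ 2 * ∫ x in Ω, ‖fderiv ℝ (v 1) x‖ ^ 2 := by
  set g : Fin 2 → E → E := fun i x => (InnerProductSpace.toDual ℝ E).symm (fderiv ℝ (v i) x)
    with hg
  have hgc : ∀ i, Continuous (g i) := fun i =>
    (InnerProductSpace.toDual ℝ E).symm.continuous.comp ((hv i).continuous_fderiv (by simp))
  have hgn : ∀ i x, ‖fderiv ℝ (v i) x‖ = ‖g i x‖ := fun i x => by
    rw [hg]
    exact ((InnerProductSpace.toDual ℝ E).symm.norm_map _).symm
  refine ⟨∫ x in Ω, inner ℝ (g 0 x) (g 1 x), ?_⟩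
  intro c a b
  have hd : ∀ x, fderiv ℝ (fun y => c + a * v 0 y + b * v 1 y) x
      = a • fderiv ℝ (v 0) x + b • fderiv ℝ (v 1) x := by
    intro x
    have d0 : HasFDerivAt (v 0) (fderiv ℝ (v 0) x) x :=
      ((hv 0).differentiable (by simp) x).hasFDerivAt
    have d1 : HasFDerivAt (v 1) (fderiv ℝ (v 1) x) x :=
      ((hv 1).differentiable (by simp) x).hasFDerivAt
    exact (((d0.const_mul a).const_add c).add (d1.const_mul b)).fderiv
  have hn : ∀ x, ‖fderiv ℝ (fun y => c + a * v 0 y + b * v 1 y) x‖ ^ 2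
      = a ^ 2 * ‖fderiv ℝ (v 0) x‖ ^ 2 + 2 * a * b * inner ℝ (g 0 x) (g 1 x)
        + b ^ 2 * ‖fderiv ℝ (v 1) x‖ ^ 2 := by
    intro x
    rw [hd x, ← (InnerProductSpace.toDual ℝ E).symm.norm_map, map_add, map_smulₛₗ, map_smulₛₗ]
    have e1 : (starRingEnd ℝ) a • (InnerProductSpace.toDual ℝ E).symm (fderiv ℝ (v 0) x)
        = a • g 0 x := by simp [hg]
    have e2 : (starRingEnd ℝ) b • (InnerProductSpace.toDual ℝ E).symm (fderiv ℝ (v 1) x)
        = b • g 1 x := by simp [hg]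
    rw [hgn 0 x, hgn 1 x]
    have e3 : ‖a • g 0 x + b • g 1 x‖ ^ 2
        = a ^ 2 * ‖g 0 x‖ ^ 2 + 2 * a * b * inner ℝ (g 0 x) (g 1 x) + b ^ 2 * ‖g 1 x‖ ^ 2 := by
      rw [norm_add_sq_real, norm_smul, norm_smul, inner_smul_left, inner_smul_right,
        mul_pow, mul_pow, Real.norm_eq_abs, Real.norm_eq_abs, sq_abs, sq_abs]
      simp
      ring
    rw [← e3]
    rw [e1, e2]
  rw [integral_congr_ae (Filter.Eventually.of_forall hn)]
  have i0 : IntegrableOn (fun x => a ^ 2 * ‖fderiv ℝ (v 0) x‖ ^ 2) Ω :=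
    intOn hb (continuous_const.mul (((hv 0).continuous_fderiv (by simp)).norm.pow 2))
  have i1 : IntegrableOn (fun x => 2 * a * b * inner ℝ (g 0 x) (g 1 x)) Ω :=
    intOn hb (continuous_const.mul ((hgc 0).inner (hgc 1)))
  have i2 : IntegrableOn (fun x => b ^ 2 * ‖fderiv ℝ (v 1) x‖ ^ 2) Ω :=
    intOn hb (continuous_const.mul (((hv 1).continuous_fderiv (by simp)).norm.pow 2))
  have i01 : IntegrableOn (fun x => a ^ 2 * ‖fderiv ℝ (v 0) x‖ ^ 2
      + 2 * a * b * inner ℝ (g 0 x) (g 1 x)) Ω := i0.add i1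
  rw [integral_add i01 i2, integral_add i0 i1, integral_const_mul, integral_const_mul,
    integral_const_mul]

/-- mass of `c + a v0 + b v1` -/
theorem mass {Ω : Set E} (hb : Bornology.IsBounded Ω)
    {v : Fin 2 → E → ℝ} (hv : ∀ i, ContDiff ℝ 1 (v i)) (h0 : ∀ i, ∫ x in Ω, v i x = 0)
    (h1 : ∫ x in Ω, v 0 x * v 1 x = 0) {M : ℝ}
    (h2 : ∀ i, ∫ x in Ω, v i x ^ 2 = M) (c a b : ℝ) :
    ∫ x in Ω, (c + a * v 0 x + b * v 1 x) ^ 2
      = c ^ 2 * volume.real Ω + M * (a ^ 2 + b ^ 2) := by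
  have hc : ∀ i, Continuous (v i) := fun i => (hv i).continuous
  have e : ∀ x, (c + a * v 0 x + b * v 1 x) ^ 2
      = c ^ 2 + 2 * c * a * v 0 x + 2 * c * b * v 1 x + 2 * a * b * (v 0 x * v 1 x)
        + a ^ 2 * v 0 x ^ 2 + b ^ 2 * v 1 x ^ 2 := fun x => by ring
  rw [integral_congr_ae (Filter.Eventually.of_forall e)]
  have i1 : IntegrableOn (fun _ : E => c ^ 2) Ω := intOn hb continuous_const
  have i2 : IntegrableOn (fun x => 2 * c * a * v 0 x) Ω := intOn hb (continuous_const.mul (hc 0))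
  have i3 : IntegrableOn (fun x => 2 * c * b * v 1 x) Ω := intOn hb (continuous_const.mul (hc 1))
  have i4 : IntegrableOn (fun x => 2 * a * b * (v 0 x * v 1 x)) Ω :=
    intOn hb (continuous_const.mul ((hc 0).mul (hc 1)))
  have i5 : IntegrableOn (fun x => a ^ 2 * v 0 x ^ 2) Ω :=
    intOn hb (continuous_const.mul ((hc 0).pow 2))
  have i6 : IntegrableOn (fun x => b ^ 2 * v 1 x ^ 2) Ω :=
    intOn hb (continuous_const.mul ((hc 1).pow 2))
  have j2 : IntegrableOn (fun x => c ^ 2 + 2 * c * a * v 0 x) Ω := i1.add i2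
  have j3 : IntegrableOn (fun x => c ^ 2 + 2 * c * a * v 0 x + 2 * c * b * v 1 x) Ω := j2.add i3
  have j4 : IntegrableOn (fun x => c ^ 2 + 2 * c * a * v 0 x + 2 * c * b * v 1 x
      + 2 * a * b * (v 0 x * v 1 x)) Ω := j3.add i4
  have j5 : IntegrableOn (fun x => c ^ 2 + 2 * c * a * v 0 x + 2 * c * b * v 1 x
      + 2 * a * b * (v 0 x * v 1 x) + a ^ 2 * v 0 x ^ 2) Ω := j4.add i5
  rw [integral_add j5 i6, integral_add j4 i5, integral_add j3 i4, integral_add j2 i3,
    integral_add i1 i2, integral_const_mul, integral_const_mul, integral_const_mul,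
    integral_const_mul, integral_const_mul, h0, h0, h1, h2, h2]
  simp only [integral_const, smul_eq_mul, measureReal_restrict_apply_univ]
  ring

end Trialx

theorem mu_add_le {Ω : Set E} (hΩ : IsOpen Ω) (hb : Bornology.IsBounded Ω) (hne : Ω.Nonempty)
    {v : Fin 2 → E → ℝ} (hv : ∀ i, ContDiff ℝ 1 (v i)) (h0 : ∀ i, ∫ x in Ω, v i x = 0)
    (h1 : ∫ x in Ω, v 0 x * v 1 x = 0) {M : ℝ} (hM : 0 < M)
    (h2 : ∀ i, ∫ x in Ω, v i x ^ 2 = M) :
    mu Ω 2 + mu Ω 3
      ≤ ((∫ x in Ω, ‖fderiv ℝ (v 0) x‖ ^ 2) + ∫ x in Ω, ‖fderiv ℝ (v 1) x‖ ^ 2) / M := by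
  obtain ⟨G, hG⟩ := Trialx.energy hb hv
  set A := ∫ x in Ω, ‖fderiv ℝ (v 0) x‖ ^ 2 with hA
  set B := ∫ x in Ω, ‖fderiv ℝ (v 1) x‖ ^ 2 with hB
  have hvol : 0 < volume.real Ω := by
    have h3 : 0 < volume Ω := hΩ.measure_pos _ hne
    have h4 : volume Ω < ⊤ := hb.measure_lt_top
    exact ENNReal.toReal_pos h3.ne' h4.ne
  have hmass := Trialx.mass hb hv h0 h1 h2
  have hpos : ∀ a b : ℝ, 0 ≤ a ^ 2 * A + 2 * a * b * G + b ^ 2 * B := by
    intro a b
    rw [← hG 0 a b]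
    exact integral_nonneg fun x => sq_nonneg _
  set s := √((A - B) ^ 2 + 4 * G ^ 2) with hs
  have hs2 : s ^ 2 = (A - B) ^ 2 + 4 * G ^ 2 := Real.sq_sqrt (by positivity)
  have hs0 : 0 ≤ s := Real.sqrt_nonneg _
  have hsAB : |A - B| ≤ s := by
    apply Real.abs_le_sqrt
    nlinarith [sq_nonneg G]
  have hα : 0 ≤ (A - B + s) / 2 := by linarith [neg_abs_le (A - B)]
  have hγ : 0 ≤ (B - A + s) / 2 := by linarith [le_abs_self (A - B)]
  set lam := (A + B - s) / 2 with hlam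
  -- lower bound
  have hlow : ∀ a b : ℝ, lam * (a ^ 2 + b ^ 2) ≤ a ^ 2 * A + 2 * a * b * G + b ^ 2 * B := by
    intro a b
    have hprod : (A - B + s) / 2 * ((B - A + s) / 2) = G ^ 2 := by nlinarith
    have key : 0 ≤ (A - B + s) / 2 * a ^ 2 + 2 * G * (a * b) + (B - A + s) / 2 * b ^ 2 := by
      set α := (A - B + s) / 2
      set γ := (B - A + s) / 2
      rcases hα.eq_or_lt with h | h
      · have hG0 : G = 0 := by
          have : G ^ 2 = 0 := by rw [← hprod, ← h, zero_mul]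
          exact pow_eq_zero_iff (two_ne_zero) |>.mp this
        rw [← h, hG0]
        have : 0 ≤ γ * b ^ 2 := by positivity
        linarith
      · have h5 : α * (α * a ^ 2 + 2 * G * (a * b) + γ * b ^ 2) = (α * a + G * b) ^ 2 := by
          linear_combination b ^ 2 * hprod
        have h6 : 0 ≤ α * (α * a ^ 2 + 2 * G * (a * b) + γ * b ^ 2) := by
          rw [h5]
          positivity
        exact nonneg_of_mul_nonneg_right h6 h
    rw [hlam]
    nlinarith
  have hup : ∀ a b : ℝ, a ^ 2 * A + 2 * a * b * G + b ^ 2 * B ≤ (A + B - lam) * (a ^ 2 + b ^ 2) := by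
    intro a b
    nlinarith [hlow (-b) a]
  -- an eigenvector
  obtain ⟨a0, b0, hne0, heig⟩ : ∃ a0 b0 : ℝ, 0 < a0 ^ 2 + b0 ^ 2 ∧
      a0 ^ 2 * A + 2 * a0 * b0 * G + b0 ^ 2 * B = lam * (a0 ^ 2 + b0 ^ 2) := by
    rcases hα.eq_or_lt with h | h
    · refine ⟨1, 0, by norm_num, ?_⟩
      rw [hlam]
      linarith
    · refine ⟨-G, (A - B + s) / 2, by positivity, ?_⟩
      rw [hlam]
      have hprod : (A - B + s) / 2 * ((B - A + s) / 2) = G ^ 2 := by nlinarith
      linear_combination ((A - B + s) / 2) * hprod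
  have hlam0 : 0 ≤ lam := by
    have h5 := hpos a0 b0
    rw [heig] at h5
    exact nonneg_of_mul_nonneg_left h5 hne0
  have hL0 : 0 ≤ A + B - lam := by
    have h5 := hup 1 0
    have h6 := hpos 1 0
    nlinarith
  -- the two spaces
  have m2 : mu Ω 2 ≤ lam / M := by
    let φ : (Fin 2 → ℝ) →ₗ[ℝ] (E → ℝ) :=
      { toFun := fun x y => x 0 + x 1 * a0 * v 0 y + x 1 * b0 * v 1 y
        map_add' := by
          intro x x'
          funext y
          simp only [Pi.add_apply]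
          ring
        map_smul' := by
          intro t x
          funext y
          simp only [Pi.smul_apply, smul_eq_mul, RingHom.id_apply]
          ring }
    have hmassφ : ∀ x, ∫ y in Ω, φ x y ^ 2
        = x 0 ^ 2 * volume.real Ω + M * ((x 1 * a0) ^ 2 + (x 1 * b0) ^ 2) := fun x =>
      hmass (x 0) (x 1 * a0) (x 1 * b0)
    have hGφ : ∀ x, ∫ y in Ω, ‖fderiv ℝ (φ x) y‖ ^ 2
        = (x 1 * a0) ^ 2 * A + 2 * (x 1 * a0) * (x 1 * b0) * G + (x 1 * b0) ^ 2 * B := fun x =>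
      hG (x 0) (x 1 * a0) (x 1 * b0)
    refine Trialx.mu_le φ (div_nonneg hlam0 hM.le) ?_ ?_ ?_
    · intro x
      exact (contDiff_const.add (contDiff_const.mul (hv 0))).add (contDiff_const.mul (hv 1))
    · intro x hx
      have h5 : ∫ y in Ω, φ x y ^ 2 = 0 := by
        rw [setIntegral_congr_fun hΩ.measurableSet
          (g := fun _ => (0 : ℝ)) (fun y hy => by simp only [hx y hy]; ring)]
        simp
      rw [hmassφ] at h5
      have h6 : 0 ≤ x 0 ^ 2 * volume.real Ω := by positivity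
      have h7 : M * ((x 1 * a0) ^ 2 + (x 1 * b0) ^ 2) = (M * (a0 ^ 2 + b0 ^ 2)) * x 1 ^ 2 := by
        ring
      have h8 : 0 < M * (a0 ^ 2 + b0 ^ 2) := by positivity
      have h9 : 0 ≤ (M * (a0 ^ 2 + b0 ^ 2)) * x 1 ^ 2 := by positivity
      have e0 : x 0 ^ 2 * volume.real Ω = 0 := by linarith
      have e1 : (M * (a0 ^ 2 + b0 ^ 2)) * x 1 ^ 2 = 0 := by linarith
      have f0 : x 0 = 0 := by
        rcases mul_eq_zero.mp e0 with h | h
        · exact pow_eq_zero_iff (two_ne_zero) |>.mp h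
        · exact absurd h hvol.ne'
      have f1 : x 1 = 0 := by
        rcases mul_eq_zero.mp e1 with h | h
        · exact absurd h h8.ne'
        · exact pow_eq_zero_iff (two_ne_zero) |>.mp h
      funext i
      fin_cases i
      · exact f0
      · exact f1
    · intro x
      rw [hmassφ, hGφ]
      have h5 : (x 1 * a0) ^ 2 * A + 2 * (x 1 * a0) * (x 1 * b0) * G + (x 1 * b0) ^ 2 * B
          = x 1 ^ 2 * (lam * (a0 ^ 2 + b0 ^ 2)) := by
        rw [← heig]
        ring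
      have h6 : lam / M * (x 0 ^ 2 * volume.real Ω + M * ((x 1 * a0) ^ 2 + (x 1 * b0) ^ 2))
          = lam / M * (x 0 ^ 2 * volume.real Ω) + x 1 ^ 2 * (lam * (a0 ^ 2 + b0 ^ 2)) := by
        field_simp
      rw [h5, h6]
      have h7 : 0 ≤ lam / M * (x 0 ^ 2 * volume.real Ω) := by positivity
      linarith
  have m3 : mu Ω 3 ≤ (A + B - lam) / M := by
    let φ : (Fin 3 → ℝ) →ₗ[ℝ] (E → ℝ) :=
      { toFun := fun x y => x 0 + x 1 * v 0 y + x 2 * v 1 y
        map_add' := by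
          intro x x'
          funext y
          simp only [Pi.add_apply]
          ring
        map_smul' := by
          intro t x
          funext y
          simp only [Pi.smul_apply, smul_eq_mul, RingHom.id_apply]
          ring }
    have hmassφ : ∀ x, ∫ y in Ω, φ x y ^ 2
        = x 0 ^ 2 * volume.real Ω + M * (x 1 ^ 2 + x 2 ^ 2) := fun x =>
      hmass (x 0) (x 1) (x 2)
    have hGφ : ∀ x, ∫ y in Ω, ‖fderiv ℝ (φ x) y‖ ^ 2
        = x 1 ^ 2 * A + 2 * x 1 * x 2 * G + x 2 ^ 2 * B := fun x =>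
      hG (x 0) (x 1) (x 2)
    refine Trialx.mu_le φ (div_nonneg hL0 hM.le) ?_ ?_ ?_
    · intro x
      exact (contDiff_const.add (contDiff_const.mul (hv 0))).add (contDiff_const.mul (hv 1))
    · intro x hx
      have h5 : ∫ y in Ω, φ x y ^ 2 = 0 := by
        rw [setIntegral_congr_fun hΩ.measurableSet
          (g := fun _ => (0 : ℝ)) (fun y hy => by simp only [hx y hy]; ring)]
        simp
      rw [hmassφ] at h5
      have h6 : 0 ≤ x 0 ^ 2 * volume.real Ω := by positivity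
      have h7 : 0 ≤ M * x 1 ^ 2 := by positivity
      have h8 : 0 ≤ M * x 2 ^ 2 := by positivity
      rw [mul_add] at h5
      have e0 : x 0 ^ 2 * volume.real Ω = 0 := by linarith
      have e1 : M * x 1 ^ 2 = 0 := by linarith
      have e2 : M * x 2 ^ 2 = 0 := by linarith
      have f0 : x 0 = 0 := by
        rcases mul_eq_zero.mp e0 with h | h
        · exact pow_eq_zero_iff (two_ne_zero) |>.mp h
        · exact absurd h hvol.ne'
      have f1 : x 1 = 0 := by
        rcases mul_eq_zero.mp e1 with h | h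
        · exact absurd h hM.ne'
        · exact pow_eq_zero_iff (two_ne_zero) |>.mp h
      have f2 : x 2 = 0 := by
        rcases mul_eq_zero.mp e2 with h | h
        · exact absurd h hM.ne'
        · exact pow_eq_zero_iff (two_ne_zero) |>.mp h
      funext i
      fin_cases i
      · exact f0
      · exact f1
      · exact f2
    · intro x
      rw [hmassφ, hGφ]
      have h5 := hup (x 1) (x 2)
      have h6 : (A + B - lam) / M * (x 0 ^ 2 * volume.real Ω + M * (x 1 ^ 2 + x 2 ^ 2))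
          = (A + B - lam) / M * (x 0 ^ 2 * volume.real Ω)
            + (A + B - lam) * (x 1 ^ 2 + x 2 ^ 2) := by
        field_simp
      rw [h6]
      have h7 : 0 ≤ (A + B - lam) / M * (x 0 ^ 2 * volume.real Ω) :=
        mul_nonneg (div_nonneg hL0 hM.le) (by positivity)
      linarith
  calc mu Ω 2 + mu Ω 3 ≤ lam / M + (A + B - lam) / M := add_le_add m2 m3
    _ = (A + B) / M := by ring

end Pool.Agent.Neu
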