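import Pool.Agent.Neu.Defs

/-! NEU-PUSH: the affine map `T`: change of variables and algebra. -/

set_option autoImplicit false

open MeasureTheory Set

namespace Pool.Agent.Neu

namespace Pushx

/-- the matrix of the linear part -/
noncomputable def Mx (σ a b : ℝ) : Matrix (Fin 2) (Fin 2) ℝ :=
  !![σ * (√(1 + a ^ 2 + b ^ 2) + a), σ * b; σ * b, σ * (√(1 + a ^ 2 + b ^ 2) - a)]

theorem msq (a b : ℝ) : √(1 + a ^ 2 + b ^ 2) ^ 2 = 1 + a ^ 2 + b ^ 2 :=
  Real.sq_sqrt (by positivity)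

theorem det_Mx (σ a b : ℝ) : (Mx σ a b).det = σ ^ 2 := by
  have h := msq a b
  rw [Mx, Matrix.det_fin_two_of]
  linear_combination σ ^ 2 * h

/-- the linear part -/
noncomputable def Lx (σ a b : ℝ) : E →L[ℝ] E :=
  LinearMap.toContinuousLinearMap
    (Matrix.toLin (EuclideanSpace.basisFun (Fin 2) ℝ).toBasis
      (EuclideanSpace.basisFun (Fin 2) ℝ).toBasis (Mx σ a b))

theorem det_Lx (σ a b : ℝ) : (Lx σ a b).det = σ ^ 2 := by
  unfold Lx
  rw [LinearMap.det_toContinuousLinearMap, LinearMap.det_toLin, det_Mx]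

theorem Lx_apply (σ a b : ℝ) (x : E) (i : Fin 2) :
    Lx σ a b x i = Mx σ a b i 0 * x 0 + Mx σ a b i 1 * x 1 := by
  unfold Lx
  rw [LinearMap.coe_toContinuousLinearMap']
  have h := Matrix.toLin_apply (EuclideanSpace.basisFun (Fin 2) ℝ).toBasis
      (EuclideanSpace.basisFun (Fin 2) ℝ).toBasis (Mx σ a b) x
  rw [h]
  fin_cases i <;> simp [Matrix.mulVec, dotProduct, Fin.sum_univ_two]

theorem T_eq (σ a b : ℝ) (c x : E) : T σ a b c x = Lx σ a b x + c := by
  ext i
  rw [PiLp.add_apply, Lx_apply]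
  fin_cases i
  · simp [T, Mx]
    ring
  · simp [T, Mx]
    ring

end Pushx

open Pushx

theorem T_continuous (σ a b : ℝ) (c : E) : Continuous (T σ a b c) := by
  have h : T σ a b c = fun x => Lx σ a b x + c := funext (T_eq σ a b c)
  rw [h]
  fun_prop

theorem T_injective {σ : ℝ} (hσ : 0 < σ) (a b : ℝ) (c : E) : Function.Injective (T σ a b c) := by
  intro x z h
  have h0 := congrArg (fun y : E => y 0) h
  have h1 := congrArg (fun y : E => y 1) h
  simp only [T, PiLp.toLp_apply, Matrix.cons_val_zero, Matrix.cons_val_one] at h0 h1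
  have hm := msq a b
  have h0' := mul_left_cancel₀ hσ.ne' (add_right_cancel h0)
  have h1' := mul_left_cancel₀ hσ.ne' (add_right_cancel h1)
  have e0 : x 0 = z 0 := by
    linear_combination (√(1 + a ^ 2 + b ^ 2) - a) * h0' - b * h1' - (x 0 - z 0) * hm
  have e1 : x 1 = z 1 := by
    linear_combination (√(1 + a ^ 2 + b ^ 2) + a) * h1' - b * h0' - (x 1 - z 1) * hm
  ext i
  fin_cases i
  · exact e0
  · exact e1

theorem measurableSet_T {σ : ℝ} (hσ : 0 < σ) (a b : ℝ) (c : E) {Ω : Set E}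
    (hΩ : MeasurableSet Ω) : MeasurableSet (T σ a b c '' Ω) :=
  hΩ.image_of_continuousOn_injOn (T_continuous σ a b c).continuousOn
    (T_injective hσ a b c).injOn

theorem isBounded_T (σ a b : ℝ) (c : E) {Ω : Set E} (hΩ : Bornology.IsBounded Ω) :
    Bornology.IsBounded (T σ a b c '' Ω) := by
  obtain ⟨R, hR⟩ := hΩ.subset_closedBall 0
  exact ((isCompact_closedBall (0 : E) R).image (T_continuous σ a b c)).isBounded.subset
    (image_mono hR)

theorem Pushx.hasFDeriv (σ a b : ℝ) (c : E) (x : E) (Ω : Set E) :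
    HasFDerivWithinAt (T σ a b c) (Lx σ a b) Ω x := by
  have h : T σ a b c = fun x => Lx σ a b x + c := funext (T_eq σ a b c)
  rw [h]
  exact ((Lx σ a b).hasFDerivWithinAt).add_const c

theorem integral_T {σ : ℝ} (hσ : 0 < σ) (a b : ℝ) (c : E) {Ω : Set E}
    (hΩ : MeasurableSet Ω) (f : E → ℝ) :
    ∫ y in T σ a b c '' Ω, f y = σ ^ 2 * ∫ x in Ω, f (T σ a b c x) := by
  rw [integral_image_eq_integral_abs_det_fderiv_smul volume hΩ
    (fun x _ => Pushx.hasFDeriv σ a b c x Ω) (T_injective hσ a b c).injOn f]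
  simp only [det_Lx, smul_eq_mul]
  rw [abs_of_pos (by positivity), integral_const_mul]

theorem volume_T {σ : ℝ} (hσ : 0 < σ) (a b : ℝ) (c : E) {Ω : Set E}
    (hΩ : MeasurableSet Ω) :
    volume (T σ a b c '' Ω) = ENNReal.ofReal (σ ^ 2) * volume Ω := by
  rw [← lintegral_abs_det_fderiv_eq_addHaar_image volume hΩ
    (fun x _ => Pushx.hasFDeriv σ a b c x Ω) (T_injective hσ a b c).injOn]
  simp only [det_Lx]
  rw [abs_of_pos (by positivity), lintegral_const, Measure.restrict_apply_univ]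

/-- `adj (Q) (B u) = σ ^ 4 |u|^2` for `Q = B^2`, `det B = σ^2` -/
theorem N_T (σ a b : ℝ) (c x z : E) :
    N (Qp σ a b) (Qm σ a b) (Qr σ a b) (T σ a b c x - T σ a b c z) = σ ^ 4 * ‖x - z‖ ^ 2 := by
  have hm := msq a b
  rw [EuclideanSpace.real_norm_sq_eq, Fin.sum_univ_two]
  simp only [N, Qp, Qm, Qr, T, PiLp.sub_apply, Matrix.cons_val_zero, Matrix.cons_val_one]
  have h1 : (√(1 + a ^ 2 + b ^ 2) ^ 2 - a ^ 2 - b ^ 2) ^ 2 = 1 := by
    rw [hm]
    ring
  linear_combination σ ^ 4 * ((x 0 - z 0) ^ 2 + (x 1 - z 1) ^ 2) * h1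

/-- the centroid is mapped to the centroid -/
theorem centroid_T {σ : ℝ} (hσ : 0 < σ) (a b : ℝ) (c : E) {Ω : Set E}
    (hΩ : MeasurableSet Ω) (hb : Bornology.IsBounded Ω)
    (hA : σ ^ 2 * (volume Ω).toReal = Real.pi) (i : Fin 2) :
    Real.pi * T σ a b c (((volume Ω).toReal)⁻¹ • ∫ y in Ω, y) i
      = ∫ y in T σ a b c '' Ω, y i := by
  obtain ⟨R, hR⟩ := hb.subset_closedBall 0
  have hint : IntegrableOn (fun y : E => y) Ω :=
    (continuous_id.continuousOn.integrableOn_compact (isCompact_closedBall (0 : E) R)).mono_set hR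
  have hfin : volume Ω ≠ ⊤ := ((measure_mono hR).trans_lt
    (isCompact_closedBall (0 : E) R).measure_lt_top).ne
  have hinti : ∀ j : Fin 2, IntegrableOn (fun y : E => y j) Ω := fun j =>
    ((by fun_prop : Continuous fun y : E => y j).continuousOn.integrableOn_compact
      (isCompact_closedBall (0 : E) R)).mono_set hR
  have hcoord : ∀ j : Fin 2, (∫ y in Ω, y) j = ∫ y in Ω, y j := by
    intro j
    have h := (EuclideanSpace.proj j : E →L[ℝ] ℝ).integral_comp_comm hint
    exact h.symm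
  have hA0 : (volume Ω).toReal ≠ 0 := by
    intro h
    rw [h, mul_zero] at hA
    exact Real.pi_ne_zero hA.symm
  rw [integral_T hσ a b c hΩ (fun y => y i)]
  have h2 : ∀ x : E, T σ a b c x i = Mx σ a b i 0 * x 0 + Mx σ a b i 1 * x 1 + c i := by
    intro x
    rw [T_eq, PiLp.add_apply, Lx_apply]
  simp only [h2]
  generalize Mx σ a b i 0 = α
  generalize Mx σ a b i 1 = β
  generalize c i = γ
  have i0 : Integrable (fun x : E => α * x 0) (volume.restrict Ω) := (hinti 0).const_mul _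
  have i1 : Integrable (fun x : E => β * x 1) (volume.restrict Ω) := (hinti 1).const_mul _
  have i2 : Integrable (fun _ : E => γ) (volume.restrict Ω) := integrableOn_const hfin
  have i01 : Integrable (fun x : E => α * x 0 + β * x 1) (volume.restrict Ω) := i0.add i1
  have h3 : ∫ x in Ω, (α * x 0 + β * x 1 + γ) =
      α * (∫ x in Ω, x 0) + β * (∫ x in Ω, x 1) + (volume Ω).toReal * γ := by
    rw [integral_add i01 i2, integral_add i0 i1, integral_const_mul, integral_const_mul,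
      setIntegral_const, smul_eq_mul, Measure.real]
  rw [h3, PiLp.smul_apply, PiLp.smul_apply, hcoord, hcoord, smul_eq_mul, smul_eq_mul, ← hA]
  field_simp

theorem Qp_nonneg (σ a b : ℝ) : 0 ≤ Qp σ a b := by
  unfold Qp
  positivity

theorem Qr_nonneg (σ a b : ℝ) : 0 ≤ Qr σ a b := by
  unfold Qr
  positivity

theorem Qdet (σ a b : ℝ) : Qm σ a b ^ 2 ≤ Qp σ a b * Qr σ a b := by
  have hm := msq a b
  have h1 : (√(1 + a ^ 2 + b ^ 2) ^ 2 - a ^ 2 - b ^ 2) ^ 2 = 1 := by
    rw [hm]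
    ring
  have h2 : Qp σ a b * Qr σ a b - Qm σ a b ^ 2 = σ ^ 4 := by
    unfold Qp Qr Qm
    linear_combination σ ^ 4 * h1
  have h3 : 0 ≤ σ ^ 4 := by positivity
  linarith

end Pool.Agent.Neu
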