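import Pool.Agent.Neu.Defs
import Pool.Agent.Helper54.InvDomain

/-! NEU-VI: a two-step zero lemma from Brouwer's theorem. -/

set_option autoImplicit false

open MeasureTheory Set

namespace Pool.Agent.Neu

/-- radial projection onto the closed ball of radius `r` -/
private noncomputable def prj (r : ℝ) (z : E) : E := (max 1 (‖z‖ / r))⁻¹ • z

private theorem prj_cont (r : ℝ) : Continuous (prj r) := by
  unfold prj
  have hpos : ∀ z : E, max 1 (‖z‖ / r) ≠ 0 :=
    fun z => (lt_of_lt_of_le one_pos (le_max_left _ _)).ne'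
  exact (((continuous_const.max (continuous_norm.div_const r))).inv₀ hpos).smul continuous_id

private theorem prj_norm {r : ℝ} (hr : 0 < r) (z : E) : ‖prj r z‖ ≤ r := by
  unfold prj
  have hpos : 0 < max 1 (‖z‖ / r) := lt_of_lt_of_le one_pos (le_max_left _ _)
  rw [norm_smul, norm_inv, Real.norm_of_nonneg hpos.le, inv_mul_le_iff₀ hpos]
  have h := le_max_right (1 : ℝ) (‖z‖ / r)
  rwa [div_le_iff₀ hr] at h

private theorem prj_fix {r : ℝ} (hr : 0 < r) {z v : E} (h : z = prj r (z - v)) :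
    ‖z‖ ≤ r ∧ (‖z‖ < r → v = 0) ∧ inner ℝ v z ≤ 0 := by
  have hn : ‖z‖ ≤ r := by rw [h]; exact prj_norm hr _
  set m := max 1 (‖z - v‖ / r) with hm
  have hpos : 0 < m := lt_of_lt_of_le one_pos (le_max_left _ _)
  have h1 : m • z = z - v := by
    have h' : z = m⁻¹ • (z - v) := h
    calc m • z = m • (m⁻¹ • (z - v)) := by rw [← h']
      _ = z - v := by rw [smul_smul, mul_inv_cancel₀ hpos.ne', one_smul]
  have hv : v = (1 - m) • z := by
    rw [sub_smul, one_smul, h1]; abel
  refine ⟨hn, fun hlt => ?_, ?_⟩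
  · rcases le_or_gt m 1 with hle | hgt
    · have : m = 1 := le_antisymm hle (le_max_left _ _)
      rw [hv, this, sub_self, zero_smul]
    · exfalso
      have hm2 : m = ‖z - v‖ / r := by
        rcases max_choice (1 : ℝ) (‖z - v‖ / r) with hc | hc
        · rw [← hm] at hc; linarith
        · rw [← hm] at hc; exact hc
      have h3 : ‖z - v‖ = m * ‖z‖ := by
        rw [← h1, norm_smul, Real.norm_of_nonneg hpos.le]
      rw [h3] at hm2
      have h4 : m * r = m * ‖z‖ := by
        field_simp at hm2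
        linarith
      have h5 : r = ‖z‖ := mul_left_cancel₀ hpos.ne' h4
      linarith
  · rw [hv, inner_smul_left]
    have : (1 : ℝ) ≤ m := le_max_left _ _
    have h0 : 0 ≤ inner ℝ z z := real_inner_self_nonneg
    simp only [conj_trivial]
    exact mul_nonpos_of_nonpos_of_nonneg (by linarith) h0

theorem exists_zero {F1 F2 : E × E → E} (hF1 : Continuous F1) (hF2 : Continuous F2)
    {R C : ℝ} (hR : 0 < R) (hC : 0 < C)
    (h2 : ∀ X c : E, ‖X‖ ≤ R → ‖c‖ = C → 0 < inner ℝ (F2 (X, c)) c)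
    (h1 : ∀ X c : E, ‖X‖ = R → ‖c‖ ≤ C → F2 (X, c) = 0 → 0 < inner ℝ (F1 (X, c)) X) :
    ∃ X c : E, F1 (X, c) = 0 ∧ F2 (X, c) = 0 := by
  -- the self map
  let P : E × E → E × E := fun z => (prj R z.1, prj C z.2)
  have hP : Continuous P :=
    ((prj_cont R).comp continuous_fst).prodMk ((prj_cont C).comp continuous_snd)
  let G : E × E → E × E := fun z => P (P z - (F1 (P z), F2 (P z)))
  have hG : Continuous G :=
    hP.comp (hP.sub ((hF1.comp hP).prodMk (hF2.comp hP)))
  set ρ : ℝ := R + C with hρ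
  have hρ0 : 0 < ρ := by positivity
  let H : WithLp 2 (E × E) → WithLp 2 (E × E) :=
    fun z => WithLp.toLp 2 (ρ⁻¹ • G (ρ • (WithLp.ofLp z)))
  have hH : Continuous H := by
    have e1 : Continuous (fun z : WithLp 2 (E × E) => (WithLp.ofLp z : E × E)) :=
      WithLp.prod_continuous_ofLp 2 E E
    have e2 : Continuous (fun z : E × E => (WithLp.toLp 2 z : WithLp 2 (E × E))) :=
      WithLp.prod_continuous_toLp 2 E E
    exact e2.comp ((hG.comp (e1.const_smul ρ)).const_smul ρ⁻¹)
  have hGn : ∀ z : E × E, ‖(WithLp.toLp 2 (ρ⁻¹ • G z) : WithLp 2 (E × E))‖ ≤ 1 := by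
    intro z
    have ha : ‖(G z).1‖ ≤ R := prj_norm hR _
    have hb : ‖(G z).2‖ ≤ C := prj_norm hC _
    rw [WithLp.toLp_smul, norm_smul, norm_inv, Real.norm_of_nonneg hρ0.le, inv_mul_le_iff₀ hρ0,
      mul_one, WithLp.prod_norm_eq_of_L2]
    apply Real.sqrt_le_iff.2 ⟨hρ0.le, ?_⟩
    show ‖(G z).1‖ ^ 2 + ‖(G z).2‖ ^ 2 ≤ ρ ^ 2
    have h3 := norm_nonneg (G z).1
    have h4 := norm_nonneg (G z).2
    nlinarith [mul_pos hR hC]
  obtain ⟨x, -, hx⟩ := Pool.Agent.Helper54.brouwer (F := H) hH.continuousOn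
    (fun z _ => by
      rw [mem_closedBall_zero_iff]
      exact hGn _)
  -- the fixed point of G
  set y : E × E := ρ • (WithLp.ofLp x) with hy
  have hfix : G y = y := by
    have h3 : ρ⁻¹ • G y = WithLp.ofLp x := by
      have := congrArg WithLp.ofLp hx
      exact this
    have h4 : G y = ρ • (WithLp.ofLp x) := by
      rw [← h3, smul_smul, mul_inv_cancel₀ hρ0.ne', one_smul]
    rw [h4]
  have hn1 : ‖y.1‖ ≤ R := by rw [← hfix]; exact prj_norm hR _
  have hn2 : ‖y.2‖ ≤ C := by rw [← hfix]; exact prj_norm hC _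
  have hid : ∀ {r : ℝ} (_ : 0 < r) {z : E}, ‖z‖ ≤ r → prj r z = z := by
    intro r hr z hz
    unfold prj
    have : ‖z‖ / r ≤ 1 := by rw [div_le_one hr]; exact hz
    rw [max_eq_left this, inv_one, one_smul]
  have hPy : P y = y := Prod.ext (hid hR hn1) (hid hC hn2)
  have hfix1 : y.1 = prj R (y.1 - F1 y) := by
    have := congrArg Prod.fst hfix
    simp only [G, hPy] at this
    exact this.symm
  have hfix2 : y.2 = prj C (y.2 - F2 y) := by
    have := congrArg Prod.snd hfix
    simp only [G, hPy] at this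
    exact this.symm
  obtain ⟨-, hX1, hX2⟩ := prj_fix hR hfix1
  obtain ⟨-, hc1, hc2⟩ := prj_fix hC hfix2
  have hF2 : F2 y = 0 := by
    apply hc1
    refine lt_of_le_of_ne hn2 (fun he => ?_)
    have := h2 y.1 y.2 hn1 he
    exact absurd hc2 (not_le.2 this)
  have hF1 : F1 y = 0 := by
    apply hX1
    refine lt_of_le_of_ne hn1 (fun he => ?_)
    have := h1 y.1 y.2 he hn2 hF2
    exact absurd hX2 (not_le.2 this)
  exact ⟨y.1, y.2, hF1, hF2⟩

end Pool.Agent.Neu
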