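import Pool.Agent.Neu.Defs
import Pool.Agent.Neu.Ode
import Pool.Agent.Neu.Main1
import Pool.Agent.Neu.Vi
import Pool.Agent.Neu.Push

/-! NEU-EX: existence of the affine normalisation. -/

set_option autoImplicit false

open MeasureTheory Set

namespace Pool.Agent.Neu

variable {K : ℝ} {φ ψ : ℝ → ℝ}

private theorem sqCx : Continuous sq := by
  unfold sq
  fun_prop

private theorem sq_nnx (y : E) : 0 ≤ sq y := by
  unfold sq
  positivity

private theorem T0 (σ a b : ℝ) (c x : E) :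
    T σ a b c x 0 = σ * ((√(1 + a ^ 2 + b ^ 2) + a) * x 0 + b * x 1) + c 0 := rfl

private theorem T1 (σ a b : ℝ) (c x : E) :
    T σ a b c x 1 = σ * (b * x 0 + (√(1 + a ^ 2 + b ^ 2) - a) * x 1) + c 1 := rfl

private theorem T_cont_param (σ : ℝ) (x : E) :
    Continuous fun z : E × E => T σ (z.1 0) (z.1 1) z.2 x := by
  unfold T
  refine (PiLp.continuous_toLp 2 _).comp (continuous_pi fun i => ?_)
  fin_cases i
  · simp only [Fin.zero_eta, Matrix.cons_val_zero]
    fun_prop
  · simp only [Fin.mk_one, Matrix.cons_val_one, Matrix.cons_val_zero]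
    fun_prop

private theorem cont_param {σ : ℝ} {Ω : Set E} (hfin : volume Ω ≠ ⊤) {g : E → ℝ}
    (hg : Continuous g) {B : ℝ} (hB : ∀ y, |g y| ≤ B) :
    Continuous fun z : E × E => ∫ x in Ω, g (T σ (z.1 0) (z.1 1) z.2 x) := by
  refine continuous_of_dominated (bound := fun _ => B) ?_ ?_ ?_ ?_
  · intro z
    exact (hg.comp (T_continuous σ (z.1 0) (z.1 1) z.2)).aestronglyMeasurable
  · intro z
    exact Filter.Eventually.of_forall fun x => by
      rw [Real.norm_eq_abs]; exact hB _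
  · exact integrableOn_const hfin
  · exact Filter.Eventually.of_forall fun x => hg.comp (T_cont_param σ x)

private theorem exists_n {a b R : ℝ} (hR : 0 < R) (h : a ^ 2 + b ^ 2 = R ^ 2) :
    ∃ n0 n1 : ℝ, n0 ^ 2 = R - a ∧ n1 ^ 2 = R + a ∧ n0 * n1 = -b := by
  have h1 : |a| ≤ R := abs_le_of_sq_le_sq' (by nlinarith [sq_nonneg b]) hR.le |> abs_le.2
  have h2 := abs_le.1 h1
  have h3 : √(R - a) * √(R + a) = |b| := by
    rw [← Real.sqrt_mul (by linarith), ← Real.sqrt_sq_eq_abs]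
    congr 1
    nlinarith
  rcases le_total 0 b with hb | hb
  · refine ⟨√(R - a), -√(R + a), Real.sq_sqrt (by linarith), ?_, ?_⟩
    · rw [neg_sq]; exact Real.sq_sqrt (by linarith)
    · rw [mul_neg, h3, abs_of_nonneg hb]
  · refine ⟨√(R - a), √(R + a), Real.sq_sqrt (by linarith), Real.sq_sqrt (by linarith), ?_⟩
    rw [h3, abs_of_nonpos hb]

private theorem inner_E (u v : E) : inner ℝ u v = u 0 * v 0 + u 1 * v 1 := by
  rw [PiLp.inner_apply, Fin.sum_univ_two]
  simp [mul_comm]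

private theorem norm_E (u : E) : ‖u‖ ^ 2 = u 0 ^ 2 + u 1 ^ 2 := by
  rw [EuclideanSpace.norm_sq_eq, Fin.sum_univ_two, Real.norm_eq_abs, Real.norm_eq_abs, sq_abs,
    sq_abs]

private theorem coord_le {u : E} {d : ℝ} (hd : 0 ≤ d) (h : ‖u‖ ≤ d) (i : Fin 2) : |u i| ≤ d := by
  have h1 := norm_E u
  have h2 : ‖u‖ ^ 2 ≤ d ^ 2 := by
    have := norm_nonneg u
    nlinarith
  apply abs_le_of_sq_le_sq _ hd
  fin_cases i
  · simp only [Fin.zero_eta]
    nlinarith [sq_nonneg (u 1)]
  · simp only [Fin.mk_one]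
    nlinarith [sq_nonneg (u 0)]

/-- positivity of the integral of a positive function -/
private theorem int_pos {Ω : Set E} (hΩ : MeasurableSet Ω) (hpos : volume Ω ≠ 0) {f : E → ℝ}
    (hf : IntegrableOn f Ω) (h : ∀ x ∈ Ω, 0 < f x) : 0 < ∫ x in Ω, f x := by
  have h0 : 0 ≤ᵐ[volume.restrict Ω] f :=
    (ae_restrict_iff' hΩ).2 (Filter.Eventually.of_forall fun x hx => (h x hx).le)
  rw [setIntegral_pos_iff_support_of_nonneg_ae h0 hf]
  have : Function.support f ∩ Ω = Ω := by
    ext x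
    constructor
    · exact fun hx => hx.2
    · exact fun hx => ⟨(h x hx).ne', hx⟩
  rw [this]
  exact pos_iff_ne_zero.2 hpos

private theorem x_abs1 {a b : ℝ} (h : a ^ 2 + b ^ 2 ≤ 1) : |a| ≤ 1 :=
  abs_le_of_sq_le_sq (by nlinarith [sq_nonneg b]) zero_le_one

private theorem x_abs2 {a b : ℝ} (h : a ^ 2 + b ^ 2 ≤ 1) : |a ^ 2 - b ^ 2| ≤ 1 := by
  rw [abs_le]
  constructor <;> nlinarith [sq_nonneg a, sq_nonneg b]

private theorem x_abs3 {a b : ℝ} (h : a ^ 2 + b ^ 2 ≤ 1) : |2 * (a * b)| ≤ 1 := by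
  rw [abs_le]
  constructor <;> nlinarith [sq_nonneg (a + b), sq_nonneg (a - b)]

private theorem x_sq {a b : ℝ} (h0 : 0 ≤ a) (h : a ≤ b) : a ^ 2 ≤ b ^ 2 := by nlinarith

private theorem x_mR {m R : ℝ} (hR : 0 < R) (hm : 0 ≤ m) (h : m ^ 2 = 1 + R ^ 2) :
    R < m ∧ (m - R) * (2 * R) ≤ 1 := by
  have h1 : R < m := by nlinarith
  exact ⟨h1, by nlinarith⟩

private theorem x_q {a b n0 n1 R : ℝ} (hn0 : n0 ^ 2 = R - a) (hn1 : n1 ^ 2 = R + a)
    (hn : n0 * n1 = -b) : a * n0 + b * n1 = -R * n0 ∧ b * n0 - a * n1 = -R * n1 := by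
  have hb : b = -(n0 * n1) := by linarith
  subst hb
  constructor
  · linear_combination (-n0) * hn1
  · linear_combination (-n1) * hn0

private theorem x_nn {a n0 n1 R : ℝ} (hn0 : n0 ^ 2 = R - a) (hn1 : n1 ^ 2 = R + a) :
    (|n0| + |n1|) ^ 2 ≤ 4 * R := by
  have e1 := sq_abs n0
  have e2 := sq_abs n1
  nlinarith [sq_nonneg (|n0| - |n1|)]

private theorem x_last {σ d R : ℝ} (hσ : 0 < σ) (hd : 0 < d) (hR : R = 5 * σ * d + 1) :
    (27 / 16 : ℝ) ^ 2 * (4 * σ ^ 2 * d ^ 2) < R * (7 / 10) * R := by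
  have e4 : 0 < σ * d := by positivity
  rw [hR]
  nlinarith

private theorem x_four {t : ℝ} (h0 : 0 ≤ t) (h1 : t ≤ 1) : 4 * t ^ 2 ≤ 4 := by nlinarith

theorem Prof.exists_T (h : Prof K φ ψ) {Ω : Set E} (hΩ : MeasurableSet Ω)
    (hb : Bornology.IsBounded Ω) {σ : ℝ} (hσ : 0 < σ)
    (hA : σ ^ 2 * (volume Ω).toReal = Real.pi) :
    ∃ (a b : ℝ) (c : E), (∀ i, ∫ x in Ω, w φ i (T σ a b c x) = 0) ∧
      (∫ x in Ω, (w φ 0 (T σ a b c x) ^ 2 - w φ 1 (T σ a b c x) ^ 2) = 0) ∧
      ∫ x in Ω, w φ 0 (T σ a b c x) * w φ 1 (T σ a b c x) = 0 := by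
  have hpi := Real.pi_pos
  have hfin : volume Ω ≠ ⊤ := hb.measure_lt_top.ne
  have hpos : volume Ω ≠ 0 := by
    intro h0
    rw [h0] at hA
    simp at hA
    linarith
  set A : ℝ := (volume Ω).toReal with hAdef
  have hA0 : 0 < A := ENNReal.toReal_pos hpos hfin
  have hKlo := h.K_lo
  have hφc := h.phi_cont
  have hwc : ∀ i, Continuous (w φ i) := by
    intro i
    exact (hφc.comp sqCx).mul (by fun_prop : Continuous fun y : E => y i)
  have hwb : ∀ i y, |w φ i y| ≤ 1 := by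
    intro i y
    have h1 := h.w_le y
    fin_cases i
    · exact x_abs1 h1
    · exact x_abs1 (by rw [add_comm]; exact h1)
  obtain ⟨d1, hd1⟩ := hb.exists_norm_le
  set d : ℝ := |d1| + 1 with hd
  have hd0 : 0 < d := by positivity
  have hdΩ : ∀ x ∈ Ω, ‖x‖ ≤ d := fun x hx => by
    have := hd1 x hx
    have := le_abs_self d1
    linarith
  set R : ℝ := 5 * σ * d + 1 with hR
  have hR0 : 0 < R := by positivity
  set L : ℝ := √(1 + R ^ 2) + 2 * R with hL
  have hL0 : 0 < L := by positivity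
  set C : ℝ := 2 * σ * L * d + 1 with hC
  have hC0 : 0 < C := by positivity
  -- integrability of everything bounded and continuous
  have hint : ∀ {g : E → ℝ}, Continuous g → IntegrableOn g Ω := by
    intro g hg
    obtain ⟨r, hr⟩ := hb.subset_closedBall (0 : E)
    exact (hg.continuousOn.integrableOn_compact (isCompact_closedBall (0 : E) r)).mono_set hr
  set F1 : E × E → E := fun z => !₂[∫ x in Ω, (w φ 0 (T σ (z.1 0) (z.1 1) z.2 x) ^ 2
      - w φ 1 (T σ (z.1 0) (z.1 1) z.2 x) ^ 2),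
    ∫ x in Ω, 2 * (w φ 0 (T σ (z.1 0) (z.1 1) z.2 x) * w φ 1 (T σ (z.1 0) (z.1 1) z.2 x))]
    with hF1
  set F2 : E × E → E := fun z => !₂[∫ x in Ω, w φ 0 (T σ (z.1 0) (z.1 1) z.2 x),
    ∫ x in Ω, w φ 1 (T σ (z.1 0) (z.1 1) z.2 x)] with hF2
  have hF1c : Continuous F1 := by
    refine (PiLp.continuous_toLp 2 _).comp (continuous_pi fun i => ?_)
    fin_cases i
    · exact cont_param hfin (g := fun y => w φ 0 y ^ 2 - w φ 1 y ^ 2)
        (((hwc 0).pow 2).sub ((hwc 1).pow 2)) (B := 1) (fun y => x_abs2 (h.w_le y))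
    · exact cont_param hfin (g := fun y => 2 * (w φ 0 y * w φ 1 y))
        (continuous_const.mul ((hwc 0).mul (hwc 1))) (B := 1) (fun y => x_abs3 (h.w_le y))
  have hF2c : Continuous F2 := by
    refine (PiLp.continuous_toLp 2 _).comp (continuous_pi fun i => ?_)
    fin_cases i
    · exact cont_param hfin (hwc 0) (hwb 0)
    · exact cont_param hfin (hwc 1) (hwb 1)
  have hF10 : ∀ z, F1 z 0 = ∫ x in Ω, (w φ 0 (T σ (z.1 0) (z.1 1) z.2 x) ^ 2
      - w φ 1 (T σ (z.1 0) (z.1 1) z.2 x) ^ 2) := fun _ => rfl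
  have hF11 : ∀ z, F1 z 1 = ∫ x in Ω, 2 * (w φ 0 (T σ (z.1 0) (z.1 1) z.2 x)
      * w φ 1 (T σ (z.1 0) (z.1 1) z.2 x)) := fun _ => rfl
  have hF20 : ∀ z, F2 z 0 = ∫ x in Ω, w φ 0 (T σ (z.1 0) (z.1 1) z.2 x) := fun _ => rfl
  have hF21 : ∀ z, F2 z 1 = ∫ x in Ω, w φ 1 (T σ (z.1 0) (z.1 1) z.2 x) := fun _ => rfl
  -- a linear combination of the components of `F2`
  have hlin : ∀ (X c : E) (u0 u1 : ℝ), u0 * F2 (X, c) 0 + u1 * F2 (X, c) 1
      = ∫ x in Ω, φ (sq (T σ (X 0) (X 1) c x))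
          * (u0 * T σ (X 0) (X 1) c x 0 + u1 * T σ (X 0) (X 1) c x 1) := by
    intro X c u0 u1
    rw [hF20, hF21, ← integral_const_mul, ← integral_const_mul, ← integral_add]
    · refine integral_congr_ae (Filter.Eventually.of_forall fun x => ?_)
      simp only [w]
      ring
    · exact hint (continuous_const.mul ((hwc 0).comp (T_continuous _ _ _ _)))
    · exact hint (continuous_const.mul ((hwc 1).comp (T_continuous _ _ _ _)))
  have hintT : ∀ (a b : ℝ) (c : E) (u0 u1 : ℝ), Continuous fun x => φ (sq (T σ a b c x))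
          * (u0 * T σ a b c x 0 + u1 * T σ a b c x 1) := by
    intro a b c u0 u1
    have e1 := T_continuous σ a b c
    have e2 : Continuous fun x => φ (sq (T σ a b c x)) := hφc.comp (sqCx.comp e1)
    exact e2.mul (by fun_prop)
  obtain ⟨X, c, hz1, hz2⟩ := exists_zero hF1c hF2c hR0 hC0 (by
    -- coercivity in `c`
    intro X c hX hc
    rw [inner_E, mul_comm _ (c 0), mul_comm _ (c 1), hlin]
    refine int_pos hΩ hpos (hint (hintT _ _ _ _ _)) fun x hx => ?_
    refine mul_pos (h.phi_pos (sq_nnx _)) ?_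
    rw [T0, T1]
    have hx0 := abs_le.1 (coord_le hd0.le (hdΩ x hx) 0)
    have hx1 := abs_le.1 (coord_le hd0.le (hdΩ x hx) 1)
    have hX0 := coord_le hR0.le hX 0
    have hX1 := coord_le hR0.le hX 1
    have hc0 := coord_le hC0.le hc.le 0
    have hc1 := coord_le hC0.le hc.le 1
    have hcn : c 0 ^ 2 + c 1 ^ 2 = C ^ 2 := by rw [← norm_E, hc]
    have hXn : X 0 ^ 2 + X 1 ^ 2 ≤ R ^ 2 := by
      rw [← norm_E]
      exact x_sq (norm_nonneg X) hX
    set m : ℝ := √(1 + X 0 ^ 2 + X 1 ^ 2) with hm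
    have hm0 : 0 ≤ m := Real.sqrt_nonneg _
    have hmR : m ≤ √(1 + R ^ 2) := Real.sqrt_le_sqrt (by linarith)
    set u0 : ℝ := (m + X 0) * x 0 + X 1 * x 1 with hu0
    set u1 : ℝ := X 1 * x 0 + (m - X 0) * x 1 with hu1
    have hx0' := coord_le hd0.le (hdΩ x hx) 0
    have hx1' := coord_le hd0.le (hdΩ x hx) 1
    have b0 : |u0| ≤ L * d := by
      have e1 : |(m + X 0) * x 0| ≤ (√(1 + R ^ 2) + R) * d := by
        rw [abs_mul]
        refine mul_le_mul ?_ hx0' (abs_nonneg _) (by positivity)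
        refine (abs_add_le _ _).trans ?_
        rw [abs_of_nonneg hm0]
        linarith
      have e2 : |X 1 * x 1| ≤ R * d := by
        rw [abs_mul]
        exact mul_le_mul hX1 hx1' (abs_nonneg _) hR0.le
      calc |u0| ≤ |(m + X 0) * x 0| + |X 1 * x 1| := abs_add_le _ _
        _ ≤ (√(1 + R ^ 2) + R) * d + R * d := add_le_add e1 e2
        _ = L * d := by rw [hL]; ring
    have b1 : |u1| ≤ L * d := by
      have e1 : |(m - X 0) * x 1| ≤ (√(1 + R ^ 2) + R) * d := by
        rw [abs_mul]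
        refine mul_le_mul ?_ hx1' (abs_nonneg _) (by positivity)
        refine (abs_sub _ _).trans ?_
        rw [abs_of_nonneg hm0]
        linarith
      have e2 : |X 1 * x 0| ≤ R * d := by
        rw [abs_mul]
        exact mul_le_mul hX1 hx0' (abs_nonneg _) hR0.le
      calc |u1| ≤ |X 1 * x 0| + |(m - X 0) * x 1| := abs_add_le _ _
        _ ≤ R * d + (√(1 + R ^ 2) + R) * d := add_le_add e2 e1
        _ = L * d := by rw [hL]; ring
    have c0 : |u0 * c 0| ≤ L * d * C := by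
      rw [abs_mul]
      exact mul_le_mul b0 hc0 (abs_nonneg _) (by positivity)
    have c1 : |u1 * c 1| ≤ L * d * C := by
      rw [abs_mul]
      exact mul_le_mul b1 hc1 (abs_nonneg _) (by positivity)
    have e : c 0 * (σ * u0 + c 0) + c 1 * (σ * u1 + c 1)
        = C ^ 2 + σ * (u0 * c 0 + u1 * c 1) := by
      rw [← hcn]; ring
    rw [e]
    have e3 : -(2 * (L * d * C)) ≤ u0 * c 0 + u1 * c 1 := by
      have := abs_le.1 c0
      have := abs_le.1 c1
      linarith
    have e4 : -(2 * σ * L * d * C) ≤ σ * (u0 * c 0 + u1 * c 1) := by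
      have := mul_le_mul_of_nonneg_left e3 hσ.le
      refine le_trans (le_of_eq ?_) this
      ring
    have e5 : C ^ 2 = 2 * σ * L * d * C + C := by
      have : C ^ 2 = C * C := by ring
      rw [this]
      nth_rewrite 1 [hC]
      ring
    rw [e5]
    linarith) (by
    -- coercivity in `X`
    intro X c hX hc h20
    set a : ℝ := X 0 with ha
    set b : ℝ := X 1 with hbd
    have hab : a ^ 2 + b ^ 2 = R ^ 2 := by rw [← hX, norm_E]
    obtain ⟨n0, n1, hn0, hn1, hn⟩ := exists_n hR0 hab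
    set m : ℝ := √(1 + a ^ 2 + b ^ 2) with hm
    have hm2 : m ^ 2 = 1 + R ^ 2 := by
      rw [hm, Real.sq_sqrt (by positivity)]; linarith
    have hm0 : 0 ≤ m := Real.sqrt_nonneg _
    obtain ⟨hmR, hmR2⟩ := x_mR hR0 hm0 hm2
    set l : E → ℝ := fun x => n0 * T σ a b c x 0 + n1 * T σ a b c x 1 with hl
    have hlT : ∀ x : E, l x = σ * (m - R) * (n0 * x 0 + n1 * x 1) + (n0 * c 0 + n1 * c 1) := by
      intro x
      simp only [hl, T0, T1, ← hm]
      obtain ⟨q0, q1⟩ := x_q hn0 hn1 hn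
      linear_combination σ * x 0 * q0 + σ * x 1 * q1
    have hzero : ∫ x in Ω, φ (sq (T σ a b c x)) * l x = 0 := by
      have := hlin X c n0 n1
      rw [h20] at this
      simp only [PiLp.zero_apply, mul_zero, add_zero] at this
      exact this.symm
    have hex1 : ∃ x1 ∈ Ω, l x1 ≤ 0 := by
      by_contra hcon
      push Not at hcon
      have := int_pos hΩ hpos (hint (hintT a b c n0 n1))
        (fun x hx => mul_pos (h.phi_pos (sq_nnx _)) (hcon x hx))
      exact this.ne' hzero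
    have hex2 : ∃ x2 ∈ Ω, 0 ≤ l x2 := by
      by_contra hcon
      push Not at hcon
      have := int_pos hΩ hpos (hint (hintT a b c (-n0) (-n1)))
        (fun x hx => by
          have h5 := mul_pos (h.phi_pos (sq_nnx (T σ a b c x))) (neg_pos.2 (hcon x hx))
          have h6 : -l x = -n0 * T σ a b c x 0 + -n1 * T σ a b c x 1 := by
            simp only [hl]; ring
          rwa [h6] at h5)
      have h7 : ∫ x in Ω, φ (sq (T σ a b c x)) * (-n0 * T σ a b c x 0 + -n1 * T σ a b c x 1)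
          = -∫ x in Ω, φ (sq (T σ a b c x)) * (n0 * T σ a b c x 0 + n1 * T σ a b c x 1) := by
        rw [← integral_neg]
        refine integral_congr_ae (Filter.Eventually.of_forall fun x => ?_)
        ring
      rw [h7] at this
      have h3 : ∫ x in Ω, φ (sq (T σ a b c x)) * (n0 * T σ a b c x 0 + n1 * T σ a b c x 1) = 0 :=
        hzero
      rw [h3] at this
      linarith
    have hnn : (|n0| + |n1|) ^ 2 ≤ 4 * R := x_nn hn0 hn1
    have hdiff : ∀ x ∈ Ω, ∀ y ∈ Ω, |l x - l y| ≤ σ * (m - R) * (2 * d * (|n0| + |n1|)) := by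
      intro x hx y hy
      rw [hlT, hlT]
      have e : σ * (m - R) * (n0 * x 0 + n1 * x 1) + (n0 * c 0 + n1 * c 1)
          - (σ * (m - R) * (n0 * y 0 + n1 * y 1) + (n0 * c 0 + n1 * c 1))
          = σ * (m - R) * (n0 * (x 0 - y 0) + n1 * (x 1 - y 1)) := by ring
      have hmR3 : 0 ≤ σ * (m - R) := mul_nonneg hσ.le (by linarith)
      rw [e, abs_mul, abs_of_nonneg hmR3]
      refine mul_le_mul_of_nonneg_left ?_ hmR3
      have x0 := coord_le hd0.le (hdΩ x hx) 0
      have x1 := coord_le hd0.le (hdΩ x hx) 1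
      have y0 := coord_le hd0.le (hdΩ y hy) 0
      have y1 := coord_le hd0.le (hdΩ y hy) 1
      calc |n0 * (x 0 - y 0) + n1 * (x 1 - y 1)|
          ≤ |n0| * |x 0 - y 0| + |n1| * |x 1 - y 1| := by
            rw [← abs_mul, ← abs_mul]; exact abs_add_le _ _
        _ ≤ |n0| * (2 * d) + |n1| * (2 * d) := by
            refine add_le_add (mul_le_mul_of_nonneg_left ?_ (abs_nonneg _))
              (mul_le_mul_of_nonneg_left ?_ (abs_nonneg _))
            · refine (abs_sub _ _).trans ?_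
              linarith
            · refine (abs_sub _ _).trans ?_
              linarith
        _ = 2 * d * (|n0| + |n1|) := by ring
    obtain ⟨x1, hx1, hl1⟩ := hex1
    obtain ⟨x2, hx2, hl2⟩ := hex2
    have hlb : ∀ x ∈ Ω, l x ^ 2 ≤ 4 * σ ^ 2 * d ^ 2 / R := by
      intro x hx
      have e1 := abs_le.1 (hdiff x hx x1 hx1)
      have e2 := abs_le.1 (hdiff x hx x2 hx2)
      set B : ℝ := σ * (m - R) * (2 * d * (|n0| + |n1|)) with hB
      have hB0 : 0 ≤ B := by
        have : 0 ≤ m - R := by linarith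
        positivity
      have e3 : |l x| ≤ B := abs_le.2 ⟨by linarith, by linarith⟩
      have e4 : l x ^ 2 ≤ B ^ 2 := by
        rw [← sq_abs (l x)]
        exact x_sq (abs_nonneg (l x)) e3
      refine e4.trans ?_
      rw [le_div_iff₀ hR0]
      have e5 : B ^ 2 * R = σ ^ 2 * d ^ 2 * ((m - R) ^ 2 * (4 * R * (|n0| + |n1|) ^ 2)) := by
        rw [hB]; ring
      rw [e5]
      have e6 : (m - R) ^ 2 * (4 * R * (|n0| + |n1|) ^ 2) ≤ 4 := by
        have e7 : (m - R) ^ 2 * (4 * R * (|n0| + |n1|) ^ 2) ≤ (m - R) ^ 2 * (4 * R * (4 * R)) := by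
          refine mul_le_mul_of_nonneg_left ?_ (sq_nonneg _)
          exact mul_le_mul_of_nonneg_left hnn (by positivity)
        have e8 : (m - R) ^ 2 * (4 * R * (4 * R)) = 4 * ((m - R) * (2 * R)) ^ 2 := by ring
        have e9 : 0 ≤ (m - R) * (2 * R) := mul_nonneg (by linarith) (by positivity)
        exact e7.trans (e8.le.trans (x_four e9 hmR2))
      calc σ ^ 2 * d ^ 2 * ((m - R) ^ 2 * (4 * R * (|n0| + |n1|) ^ 2))
          ≤ σ ^ 2 * d ^ 2 * 4 := mul_le_mul_of_nonneg_left e6 (by positivity)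
        _ = 4 * σ ^ 2 * d ^ 2 := by ring
    -- the two integrals
    have hTc := T_continuous σ a b c
    have hw0T : Continuous fun x => w φ 0 (T σ a b c x) := (hwc 0).comp hTc
    have hw1T : Continuous fun x => w φ 1 (T σ a b c x) := (hwc 1).comp hTc
    have hφT : Continuous fun x => φ (sq (T σ a b c x)) := hφc.comp (sqCx.comp hTc)
    have hsT : Continuous fun x => sq (T σ a b c x) := sqCx.comp hTc
    have hlc : Continuous l := by
      simp only [hl]
      fun_prop
    have hinner : inner ℝ (F1 (X, c)) X = (R * ∫ x in Ω, sq (T σ a b c x)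
        * φ (sq (T σ a b c x)) ^ 2) - ∫ x in Ω, φ (sq (T σ a b c x)) ^ 2 * l x ^ 2 := by
      rw [inner_E, hF10, hF11]
      simp only [← ha, ← hbd]
      rw [mul_comm _ a, mul_comm _ b, ← integral_const_mul, ← integral_const_mul,
        ← integral_const_mul, ← integral_add, ← integral_sub]
      · refine integral_congr_ae (Filter.Eventually.of_forall fun x => ?_)
        simp only [w, sq, hl]
        set y0 := T σ a b c x 0
        set y1 := T σ a b c x 1
        set f := φ (y0 ^ 2 + y1 ^ 2)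
        have e1 : (n0 * y0 + n1 * y1) ^ 2
            = (R - a) * y0 ^ 2 - 2 * b * y0 * y1 + (R + a) * y1 ^ 2 := by
          have : b = -(n0 * n1) := by linarith
          rw [this, ← hn0, ← hn1]
          ring
        rw [e1]
        ring
      · exact hint (continuous_const.mul (hsT.mul (hφT.pow 2)))
      · exact hint ((hφT.pow 2).mul (hlc.pow 2))
      · exact hint (continuous_const.mul ((hw0T.pow 2).sub (hw1T.pow 2)))
      · exact hint (continuous_const.mul (continuous_const.mul (hw0T.mul hw1T)))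
    rw [hinner]
    have hI1 : A * (1 - 1 / K) ≤ ∫ x in Ω, sq (T σ a b c x) * φ (sq (T σ a b c x)) ^ 2 := by
      have hWm := measurableSet_T hσ a b c hΩ
      have hWv : volume (T σ a b c '' Ω) = ENNReal.ofReal Real.pi := by
        rw [volume_T hσ a b c hΩ, ← ENNReal.ofReal_toReal hfin,
          ← ENNReal.ofReal_mul (by positivity), ← hAdef, hA]
      have h3 := h.mass_ge hWm hWv
      rw [integral_T hσ a b c hΩ (fun y => sq y * φ (sq y) ^ 2), ← hA] at h3
      have h4 : σ ^ 2 * A * (1 - 1 / K) = σ ^ 2 * (A * (1 - 1 / K)) := by ring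
      rw [h4] at h3
      exact le_of_mul_le_mul_left h3 (by positivity)
    have hI2 : ∫ x in Ω, φ (sq (T σ a b c x)) ^ 2 * l x ^ 2
        ≤ (27 / 16) ^ 2 * (4 * σ ^ 2 * d ^ 2 / R) * A := by
      have h3 : ∫ x in Ω, φ (sq (T σ a b c x)) ^ 2 * l x ^ 2
          ≤ ∫ x in Ω, (27 / 16 : ℝ) ^ 2 * (4 * σ ^ 2 * d ^ 2 / R) := by
        refine setIntegral_mono_on (hint ((hφT.pow 2).mul (hlc.pow 2)))
          (integrableOn_const hfin) hΩ fun x hx => ?_
        refine mul_le_mul ?_ (hlb x hx) (sq_nonneg _) (by positivity)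
        exact x_sq (h.phi_pos (sq_nnx (T σ a b c x))).le (h.phi_le (sq_nnx (T σ a b c x)))
      rw [setIntegral_const] at h3
      simp only [smul_eq_mul] at h3
      refine h3.trans (le_of_eq ?_)
      rw [mul_comm]
      rfl
    have hKinv : 1 / K ≤ 30 / 100 := by
      rw [div_le_iff₀ (by linarith)]
      linarith
    have hfinal : (27 / 16 : ℝ) ^ 2 * (4 * σ ^ 2 * d ^ 2 / R) * A < R * (A * (1 - 1 / K)) := by
      have e1 : (27 / 16 : ℝ) ^ 2 * (4 * σ ^ 2 * d ^ 2 / R) * A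
          = A * ((27 / 16 : ℝ) ^ 2 * (4 * σ ^ 2 * d ^ 2) / R) := by ring
      have e2 : R * (A * (1 - 1 / K)) = A * (R * (1 - 1 / K)) := by ring
      rw [e1, e2]
      refine mul_lt_mul_of_pos_left ?_ hA0
      rw [div_lt_iff₀ hR0]
      have e3 : R * (7 / 10) * R ≤ R * (1 - 1 / K) * R := by
        refine mul_le_mul_of_nonneg_right ?_ hR0.le
        exact mul_le_mul_of_nonneg_left (by linarith) hR0.le
      exact lt_of_lt_of_le (x_last hσ hd0 hR) e3
    have e1 : R * (A * (1 - 1 / K)) ≤ R * ∫ x in Ω, sq (T σ a b c x)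
        * φ (sq (T σ a b c x)) ^ 2 := mul_le_mul_of_nonneg_left hI1 hR0.le
    linarith)
  refine ⟨X 0, X 1, c, ?_, ?_, ?_⟩
  · intro i
    fin_cases i
    · have := hF20 (X, c)
      rw [hz2] at this
      exact this.symm
    · have := hF21 (X, c)
      rw [hz2] at this
      exact this.symm
  · have := hF10 (X, c)
    rw [hz1] at this
    exact this.symm
  · have := hF11 (X, c)
    rw [hz1, integral_const_mul] at this
    have h3 : (0 : ℝ) = 2 * ∫ x in Ω, w φ 0 (T σ (X 0) (X 1) c x) * w φ 1 (T σ (X 0) (X 1) c x) :=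
      this
    linarith

end Pool.Agent.Neu
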