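import Pool.Agent.Neu.Defs
import Pool.Agent.Neu.Rad
import Pool.Agent.Neu.Ode
import Pool.Agent.Neu.Pt

/-! NEU-M2: the two bounds for the distance between centroid and `w`-centre. -/

set_option autoImplicit false

open MeasureTheory Set

namespace Pool.Agent.Neu

variable {K : ℝ} {φ ψ : ℝ → ℝ}

namespace Main2x

theorem intOn {f : E → ℝ} (hf : Continuous f) {S : Set E} (hS : Bornology.IsBounded S) :
    IntegrableOn f S volume :=
  (hf.continuousOn.integrableOn_compact hS.isCompact_closure).mono_set subset_closure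

theorem sq_cont : Continuous sq := by
  unfold sq
  fun_prop

/-- the bilinear form of `N` -/
noncomputable def B (p q r : ℝ) (y z : E) : ℝ :=
  r * (y 0 * z 0) - q * (y 0 * z 1 + y 1 * z 0) + p * (y 1 * z 1)

theorem N_cont (p q r : ℝ) : Continuous (N p q r) := by
  unfold N
  fun_prop

theorem B_cont (p q r : ℝ) (z : E) : Continuous (fun y => B p q r y z) := by
  unfold B
  fun_prop

theorem N_comb (p q r t : ℝ) (y z : E) :
    N p q r (t • y - z) = t ^ 2 * N p q r y - 2 * t * B p q r y z + N p q r z := by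
  simp only [N, B, PiLp.sub_apply, PiLp.smul_apply, smul_eq_mul]
  ring

theorem vol_real {W : Set E} (hv : volume W = ENNReal.ofReal Real.pi) : (volume W).toReal = Real.pi := by
  rw [hv, ENNReal.toReal_ofReal Real.pi_pos.le]

theorem main_eq (h : Prof K φ ψ) {W : Set E}
    (hb : Bornology.IsBounded W)
    (h0 : ∀ i, ∫ y in W, w φ i y = 0) (p q r : ℝ) {z : E} (hz : ∀ i, Real.pi * z i = ∫ y in W, y i) :
    Real.pi * N p q r z = ∫ y in W, (1 - φ (sq y)) * B p q r y z := by
  have hφ : Continuous φ := h.phi_cont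
  have hsq := sq_cont
  have i0 : Integrable (fun y : E => y 0) (volume.restrict W) := intOn (by fun_prop) hb
  have i1 : Integrable (fun y : E => y 1) (volume.restrict W) := intOn (by fun_prop) hb
  have j0 : Integrable (fun y : E => w φ 0 y) (volume.restrict W) :=
    intOn (by unfold w; fun_prop) hb
  have j1 : Integrable (fun y : E => w φ 1 y) (volume.restrict W) :=
    intOn (by unfold w; fun_prop) hb
  have e1 : ∀ y : E, (1 - φ (sq y)) * B p q r y z =
      (r * z 0 - q * z 1) * y 0 + (p * z 1 - q * z 0) * y 1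
        - ((r * z 0 - q * z 1) * w φ 0 y + (p * z 1 - q * z 0) * w φ 1 y) := by
    intro y
    simp only [B, w]
    ring
  simp_rw [e1]
  have k1 : Integrable (fun y : E => (r * z 0 - q * z 1) * y 0 + (p * z 1 - q * z 0) * y 1)
      (volume.restrict W) := intOn (by fun_prop) hb
  have k2 : Integrable (fun y : E => (r * z 0 - q * z 1) * w φ 0 y + (p * z 1 - q * z 0) * w φ 1 y)
      (volume.restrict W) := intOn (by unfold w; fun_prop) hb
  rw [integral_sub k1 k2,
    integral_add (i0.const_mul _) (i1.const_mul _), integral_add (j0.const_mul _) (j1.const_mul _),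
    integral_const_mul, integral_const_mul, integral_const_mul, integral_const_mul, h0, h0,
    ← hz 0, ← hz 1]
  simp only [N]
  ring

theorem disc_zero (h : Prof K φ ψ) (p q r : ℝ) (z : E) :
    ∫ y in D, (1 - φ (sq y)) * B p q r y z = 0 := by
  have hφ : Continuous φ := h.phi_cont
  have hsq := sq_cont
  have hbD : Bornology.IsBounded D := Metric.isBounded_ball
  have hf : Continuous (fun s => 1 - φ s) := by fun_prop
  have i0 : Integrable (fun y : E => (1 - φ (sq y)) * y 0) (volume.restrict D) :=
    intOn (by fun_prop) hbD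
  have i1 : Integrable (fun y : E => (1 - φ (sq y)) * y 1) (volume.restrict D) :=
    intOn (by fun_prop) hbD
  have e1 : ∀ y : E, (1 - φ (sq y)) * B p q r y z =
      (r * z 0 - q * z 1) * ((1 - φ (sq y)) * y 0) + (p * z 1 - q * z 0) * ((1 - φ (sq y)) * y 1) := by
    intro y
    simp only [B]
    ring
  simp_rw [e1]
  rw [integral_add (i0.const_mul _) (i1.const_mul _), integral_const_mul, integral_const_mul,
    disc_odd hf 0, disc_odd hf 1]
  simp

end Main2x

open Main2x

theorem Prof.centroid1 (h : Prof K φ ψ) {W : Set E} (hW : MeasurableSet W)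
    (hb : Bornology.IsBounded W) (hv : volume W = ENNReal.ofReal Real.pi)
    (h0 : ∀ i, ∫ y in W, w φ i y = 0) {p q r : ℝ} (hp : 0 ≤ p) (hr : 0 ≤ r)
    (hd : q ^ 2 ≤ p * r) {z : E} (hz : ∀ i, Real.pi * z i = ∫ y in W, y i)
    (hc : (volume (W \ D)).toReal ≤ 10 / 11 * Real.pi) :
    Real.pi * N p q r z ≤ (∫ y in W \ D, (1 - φ (sq y)) ^ 2 * N p q r y)
      + 10 * ∫ y in D \ W, (1 - φ (sq y)) ^ 2 * N p q r y := by
  have hφ : Continuous φ := h.phi_cont
  have hsq := sq_cont
  have hN := N_cont p q r
  have hB := B_cont p q r z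
  have hD : MeasurableSet D := measurableSet_ball
  have hbD : Bornology.IsBounded D := Metric.isBounded_ball
  have hmain := main_eq h hb h0 p q r hz
  have hdisc := disc_zero h p q r z
  have hcB : Continuous (fun y => (1 - φ (sq y)) * B p q r y z) := by fun_prop
  have hcN : Continuous (fun y => (1 - φ (sq y)) ^ 2 * N p q r y) := by fun_prop
  rw [← integral_inter_add_sdiff hD (intOn hcB hb)] at hmain
  rw [← integral_inter_add_sdiff hW (intOn hcB hbD), inter_comm] at hdisc
  have hb1 : Bornology.IsBounded (W \ D) := hb.subset sdiff_subset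
  have hb2 : Bornology.IsBounded (D \ W) := hbD.subset sdiff_subset
  -- volumes
  have hfinW : volume W ≠ ⊤ := by rw [hv]; exact ENNReal.ofReal_ne_top
  have hfinD : volume D ≠ ⊤ := by rw [disc_volume]; exact ENNReal.ofReal_ne_top
  have hfin1 : volume (W \ D) ≠ ⊤ := ne_top_of_le_ne_top hfinW (measure_mono sdiff_subset)
  have hfin2 : volume (D \ W) ≠ ⊤ := ne_top_of_le_ne_top hfinD (measure_mono sdiff_subset)
  have hfin3 : volume (W ∩ D) ≠ ⊤ := ne_top_of_le_ne_top hfinW (measure_mono inter_subset_left)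
  have hvol : (volume (W \ D)).toReal = (volume (D \ W)).toReal := by
    have h1 := measure_inter_add_sdiff (μ := volume) W hD
    have h2 := measure_inter_add_sdiff (μ := volume) D hW
    have h3 : (volume (W ∩ D)).toReal + (volume (W \ D)).toReal = Real.pi := by
      rw [← ENNReal.toReal_add hfin3 hfin1, h1, vol_real hv]
    have h4 : (volume (W ∩ D)).toReal + (volume (D \ W)).toReal = Real.pi := by
      rw [inter_comm W D, ← ENNReal.toReal_add (by rwa [inter_comm]) hfin2, h2, vol_real disc_volume]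
    linarith
  -- pointwise bounds
  have hp1 : ∀ y : E, 2 * ((1 - φ (sq y)) * B p q r y z) ≤ (1 - φ (sq y)) ^ 2 * N p q r y + N p q r z := by
    intro y
    have := N_nonneg hp hr hd ((1 - φ (sq y)) • y - z)
    rw [N_comb] at this
    linarith
  have hp2 : ∀ y : E, -(2 * ((1 - φ (sq y)) * B p q r y z)) ≤
      10 * ((1 - φ (sq y)) ^ 2 * N p q r y) + 1 / 10 * N p q r z := by
    intro y
    have := N_nonneg hp hr hd ((10 * (φ (sq y) - 1)) • y - z)
    rw [N_comb] at this
    nlinarith
  have hb3 : ∫ y in W \ D, 2 * ((1 - φ (sq y)) * B p q r y z) ≤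
      ∫ y in W \ D, ((1 - φ (sq y)) ^ 2 * N p q r y + N p q r z) :=
    integral_mono (intOn (by fun_prop) hb1) (intOn (by fun_prop) hb1) hp1
  have hb4 : ∫ y in D \ W, -(2 * ((1 - φ (sq y)) * B p q r y z)) ≤
      ∫ y in D \ W, (10 * ((1 - φ (sq y)) ^ 2 * N p q r y) + 1 / 10 * N p q r z) :=
    integral_mono (intOn (by fun_prop) hb2) (intOn (by fun_prop) hb2) hp2
  rw [integral_const_mul, integral_add (intOn hcN hb1) (intOn continuous_const hb1),
    setIntegral_const, smul_eq_mul] at hb3
  rw [integral_neg, integral_const_mul, integral_add ((intOn hcN hb2).const_mul 10)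
    (intOn continuous_const hb2), integral_const_mul, setIntegral_const, smul_eq_mul] at hb4
  have hr1 : volume.real (W \ D) = (volume (W \ D)).toReal := rfl
  have hr2 : volume.real (D \ W) = (volume (W \ D)).toReal := hvol.symm
  rw [hr1] at hb3
  rw [hr2] at hb4
  have hNz := N_nonneg hp hr hd z
  have hdN : (volume (W \ D)).toReal * N p q r z ≤ 10 / 11 * Real.pi * N p q r z :=
    mul_le_mul_of_nonneg_right hc hNz
  linarith

theorem Prof.centroid2 (h : Prof K φ ψ) {W : Set E} (hW : MeasurableSet W)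
    (hb : Bornology.IsBounded W) (hv : volume W = ENNReal.ofReal Real.pi)
    (h0 : ∀ i, ∫ y in W, w φ i y = 0) {p q r : ℝ} (hp : 0 ≤ p) (hr : 0 ≤ r)
    (hd : q ^ 2 ≤ p * r) {z : E} (hz : ∀ i, Real.pi * z i = ∫ y in W, y i) :
    Real.pi * N p q r z ≤ (∫ y in W \ D, (1 - φ (sq y)) ^ 2 * N p q r y)
      + ∫ y in W ∩ D, (1 - φ (sq y)) ^ 2 * N p q r y := by
  have hφ : Continuous φ := h.phi_cont
  have hsq := sq_cont
  have hN := N_cont p q r
  have hB := B_cont p q r z
  have hD : MeasurableSet D := measurableSet_ball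
  have hmain := main_eq h hb h0 p q r hz
  have hcB : Continuous (fun y => (1 - φ (sq y)) * B p q r y z) := by fun_prop
  have hcN : Continuous (fun y => (1 - φ (sq y)) ^ 2 * N p q r y) := by fun_prop
  have hp1 : ∀ y : E, 2 * ((1 - φ (sq y)) * B p q r y z) ≤ (1 - φ (sq y)) ^ 2 * N p q r y + N p q r z := by
    intro y
    have := N_nonneg hp hr hd ((1 - φ (sq y)) • y - z)
    rw [N_comb] at this
    linarith
  have hb3 : ∫ y in W, 2 * ((1 - φ (sq y)) * B p q r y z) ≤
      ∫ y in W, ((1 - φ (sq y)) ^ 2 * N p q r y + N p q r z) :=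
    integral_mono (intOn (by fun_prop) hb) (intOn (by fun_prop) hb) hp1
  rw [integral_const_mul, ← hmain, integral_add (intOn hcN hb) (intOn continuous_const hb),
    setIntegral_const, smul_eq_mul, ← integral_inter_add_sdiff hD (intOn hcN hb)] at hb3
  have hr1 : volume.real W = Real.pi := vol_real hv
  rw [hr1] at hb3
  linarith

end Pool.Agent.Neu
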