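import Pool.Agent.Neu.Defs
import Pool.Agent.Neu.Main1
import Pool.Agent.Neu.Main2

/-! NEU-M3: the main inequality `∫_W e ≤ α Var (W)`. -/

set_option autoImplicit false

open MeasureTheory Set

namespace Pool.Agent.Neu

variable {K : ℝ} {φ ψ : ℝ → ℝ}

private theorem sq_cont : Continuous sq := by
  unfold sq; fun_prop

private theorem N_cont (p q r : ℝ) : Continuous (N p q r) := by
  unfold N; fun_prop

private theorem psi_cont (h : Prof K φ ψ) : Continuous ψ := h.cont

private theorem eQ_cont (h : Prof K φ ψ) (p q r : ℝ) : Continuous (eQ φ ψ p q r) := by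
  have h1 := h.phi_cont
  have h2 := h.cont
  have h3 := N_cont p q r
  have h4 := sq_cont
  unfold eQ
  fun_prop

private theorem qq_cont (h : Prof K φ ψ) (α p q r : ℝ) : Continuous (qq α φ ψ p q r) := by
  have h1 := h.phi_cont
  have h2 := eQ_cont h p q r
  have h3 := N_cont p q r
  have h4 := sq_cont
  unfold qq
  fun_prop

private theorem int_cont {f : E → ℝ} (hf : Continuous f) {W : Set E}
    (hb : Bornology.IsBounded W) : IntegrableOn f W := by
  obtain ⟨R, hR⟩ := hb.subset_closedBall (0 : E)
  exact (hf.continuousOn.integrableOn_compact (isCompact_closedBall (0 : E) R)).mono_set hR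

private theorem sq_eq (y : E) : sq y = ‖y‖ ^ 2 := by
  rw [EuclideanSpace.norm_sq_eq, Fin.sum_univ_two]
  simp [sq]

private theorem sq_in {y : E} (hy : y ∈ D) : sq y < 1 := by
  rw [sq_eq]
  have : ‖y‖ < 1 := by simpa using hy
  have h0 := norm_nonneg y
  nlinarith

private theorem sq_out {y : E} (hy : y ∉ D) : 1 ≤ sq y := by
  rw [sq_eq]
  have : 1 ≤ ‖y‖ := by simpa using hy
  nlinarith

private theorem sq_nn (y : E) : 0 ≤ sq y := by rw [sq_eq]; positivity

private theorem N_zero {p q r : ℝ} {y : E} (hy : sq y = 0) : N p q r y = 0 := by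
  unfold sq at hy
  have h0 : y 0 = 0 := by nlinarith [sq_nonneg (y 0), sq_nonneg (y 1)]
  have h1 : y 1 = 0 := by nlinarith [sq_nonneg (y 0), sq_nonneg (y 1)]
  unfold N
  rw [h0, h1]; ring

private theorem shift {W : Set E} (hb : Bornology.IsBounded W)
    (hv : volume W = ENNReal.ofReal Real.pi) (p q r : ℝ) {z : E}
    (hz : ∀ i, Real.pi * z i = ∫ y in W, y i) :
    ∫ y in W, N p q r (y - z) = (∫ y in W, N p q r y) - Real.pi * N p q r z := by
  have e : ∀ y : E, N p q r (y - z) = N p q r y + ((-2 * r * z 0 + 2 * q * z 1) * y 0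
      + (2 * q * z 0 - 2 * p * z 1) * y 1) + N p q r z := by
    intro y
    unfold N
    simp only [PiLp.sub_apply]
    ring
  have c0 : Continuous fun y : E => y 0 := by fun_prop
  have c1 : Continuous fun y : E => y 1 := by fun_prop
  have i0 : IntegrableOn (fun y : E => y 0) W := int_cont c0 hb
  have i1 : IntegrableOn (fun y : E => y 1) W := int_cont c1 hb
  have iN : IntegrableOn (N p q r) W := int_cont (N_cont p q r) hb
  have hW : (volume.real W) = Real.pi := by
    rw [Measure.real, hv, ENNReal.toReal_ofReal Real.pi_pos.le]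
  have hfin : volume W ≠ ⊤ := by rw [hv]; exact ENNReal.ofReal_ne_top
  have ic : IntegrableOn (fun _ : E => N p q r z) W := integrableOn_const hfin
  have i2 : IntegrableOn (fun y : E => (-2 * r * z 0 + 2 * q * z 1) * y 0) W := i0.const_mul _
  have i3 : IntegrableOn (fun y : E => (2 * q * z 0 - 2 * p * z 1) * y 1) W := i1.const_mul _
  have i4 : IntegrableOn (fun y : E => (-2 * r * z 0 + 2 * q * z 1) * y 0
      + (2 * q * z 0 - 2 * p * z 1) * y 1) W := i2.add i3
  have i5 : IntegrableOn (fun y : E => N p q r y + ((-2 * r * z 0 + 2 * q * z 1) * y 0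
      + (2 * q * z 0 - 2 * p * z 1) * y 1)) W := iN.add i4
  calc ∫ y in W, N p q r (y - z)
      = ∫ y in W, (N p q r y + ((-2 * r * z 0 + 2 * q * z 1) * y 0
      + (2 * q * z 0 - 2 * p * z 1) * y 1) + N p q r z) := by
        exact integral_congr_ae (Filter.Eventually.of_forall e)
    _ = (∫ y in W, N p q r y) + ((-2 * r * z 0 + 2 * q * z 1) * (∫ y in W, y 0)
      + (2 * q * z 0 - 2 * p * z 1) * (∫ y in W, y 1)) + Real.pi * N p q r z := by
        rw [integral_add i5 ic, integral_add iN i4, integral_add i2 i3, integral_const_mul,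
          integral_const_mul, setIntegral_const, hW, smul_eq_mul]
    _ = _ := by
        rw [← hz 0, ← hz 1]
        unfold N
        ring

theorem Prof.main_ineq (h : Prof K φ ψ) {W : Set E} (hW : MeasurableSet W)
    (hb : Bornology.IsBounded W) (hv : volume W = ENNReal.ofReal Real.pi)
    (h0 : ∀ i, ∫ y in W, w φ i y = 0)
    (h1 : ∫ y in W, (w φ 0 y ^ 2 - w φ 1 y ^ 2) = 0)
    (h2 : ∫ y in W, w φ 0 y * w φ 1 y = 0) {p q r : ℝ} (hp : 0 ≤ p) (hr : 0 ≤ r)
    (hd : q ^ 2 ≤ p * r) {z : E} (hz : ∀ i, Real.pi * z i = ∫ y in W, y i) :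
    ∫ y in W, eQ φ ψ p q r y ≤ 2 * (K - 1) * ∫ y in W, N p q r (y - z) := by
  have hid := h.identity hW hb hv h1 h2 p q r
  rw [shift hb hv p q r hz, hid]
  have hKlo := h.K_lo
  have hKhi := h.K_hi
  set α : ℝ := 2 * (K - 1) with hα
  have hα0 : 0 < α := by rw [hα]; linarith
  have hDm : MeasurableSet D := Metric.isOpen_ball.measurableSet
  have hDb : Bornology.IsBounded D := Metric.isBounded_ball
  have hτ : 0 ≤ p + r := by positivity
  have cφ : Continuous fun y : E => φ (sq y) := h.phi_cont.comp sq_cont
  have cN := N_cont p q r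
  have cq := qq_cont h α p q r
  -- continuous functions are integrable on bounded sets
  have hb1 : Bornology.IsBounded (W \ D) := hb.subset sdiff_subset
  have hb2 : Bornology.IsBounded (D \ W) := hDb.subset sdiff_subset
  have hb3 : Bornology.IsBounded (W ∩ D) := hb.subset inter_subset_left
  have m1 : MeasurableSet (W \ D) := hW.diff hDm
  have m2 : MeasurableSet (D \ W) := hDm.diff hW
  have m3 : MeasurableSet (W ∩ D) := hW.inter hDm
  -- the discontinuous function
  set g : E → ℝ := fun y => N p q r y / sq y * hh α φ (sq y) with hg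
  have hNs : ∀ y : E, 0 ≤ N p q r y / sq y := fun y =>
    div_nonneg (N_nonneg hp hr hd y) (sq_nn y)
  have hNs' : ∀ y : E, N p q r y / sq y ≤ p + r := by
    intro y
    rcases (sq_nn y).eq_or_lt with he | hlt
    · rw [← he, div_zero]; exact hτ
    · rw [div_le_iff₀ hlt]; exact N_le hp hr hd y
  have chh : Continuous fun y : E => hh α φ (sq y) := by
    unfold hh
    have h3 := sq_cont
    have h4 := h.phi_cont
    fun_prop
  have hh0 : ∀ y ∈ D, 0 ≤ hh α φ (sq y) := by
    intro y hy
    have := h.hh_ge' (s := sq y) ⟨sq_nn y, (sq_in hy).le⟩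
    have h3 := sq_in hy
    have : 0 ≤ (α + 1) * (1 - sq y) := mul_nonneg (by linarith) (by linarith)
    linarith
  have hh15 : ∀ y ∈ D, hh α φ (sq y) ≤ 15 := by
    intro y hy
    have h3 := h.hh_le (s := sq y) ⟨sq_nn y, (sq_in hy).le⟩
    rw [← hα] at h3
    have h4 : 0 ≤ α * (sq y * (φ (sq y) - 1) ^ 2) :=
      mul_nonneg hα0.le (mul_nonneg (sq_nn y) (sq_nonneg _))
    linarith
  have gD : IntegrableOn g D := by
    apply Measure.integrableOn_of_bounded (M := (p + r) * 15)
    · exact hDb.measure_lt_top.ne
    · have : Measurable g :=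
        (cN.measurable.div sq_cont.measurable).mul chh.measurable
      exact this.aestronglyMeasurable
    · filter_upwards [ae_restrict_mem hDm] with y hy
      rw [Real.norm_of_nonneg (mul_nonneg (hNs y) (hh0 y hy))]
      exact mul_le_mul (hNs' y) (hh15 y hy) (hh0 y hy) hτ
  have gDW : IntegrableOn g (D \ W) := gD.mono_set sdiff_subset
  have gWD : IntegrableOn g (W ∩ D) := gD.mono_set inter_subset_right
  -- (1 - φ)^2 N
  set v : E → ℝ := fun y => (1 - φ (sq y)) ^ 2 * N p q r y with hvdef
  have cv : Continuous v := by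
    have h3 := sq_cont
    have h4 := h.phi_cont
    rw [hvdef]; fun_prop
  -- lower bound on W \ D
  have out : α * ∫ y in W \ D, v y
      ≤ ∫ y in W \ D, ((1 - α) * ((p + r) / 2) - qq α φ ψ p q r y) := by
    rw [← integral_const_mul]
    apply setIntegral_mono_on ((int_cont cv hb1).const_mul α)
      (int_cont (continuous_const.sub cq) hb1) m1
    intro y hy
    have hs : 1 ≤ sq y := sq_out hy.2
    have h3 := h.pt_out hp hr hd hs
    rw [← hα] at h3
    refine le_trans ?_ h3
    apply mul_le_mul_of_nonneg_left _ hα0.le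
    have h4 : φ (sq y) = 1 / √(sq y) := h.out _ hs
    have hroot : 1 ≤ √(sq y) := by rw [Real.one_le_sqrt]; exact hs
    have h5 : (1 - φ (sq y)) ^ 2 ≤ 1 - 1 / sq y := by
      rw [h4]
      have h6 : 1 / sq y = (1 / √(sq y)) ^ 2 := by
        rw [div_pow, one_pow, Real.sq_sqrt (sq_nn y)]
      rw [h6]
      have h7 : 0 ≤ 1 / √(sq y) := by positivity
      have h8 : 1 / √(sq y) ≤ 1 := by rw [div_le_one (by linarith)]; exact hroot
      nlinarith
    calc v y = (1 - φ (sq y)) ^ 2 * N p q r y := rfl
      _ ≤ (1 - 1 / sq y) * N p q r y := mul_le_mul_of_nonneg_right h5 (N_nonneg hp hr hd y)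
      _ = N p q r y * (1 - 1 / sq y) := by ring
  -- lower bound on D \ W
  have inn : 1 / 2 * ∫ y in D \ W, g y
      ≤ ∫ y in D \ W, (qq α φ ψ p q r y - (1 - α) * ((p + r) / 2)) := by
    rw [← integral_const_mul]
    apply setIntegral_mono_on (gDW.const_mul _)
      (int_cont (cq.sub continuous_const) hb2) m2
    intro y hy
    have h3 := h.pt_in hp hr hd (sq_in hy.1).le
    rw [← hα] at h3
    exact h3
  suffices hmain : α * (Real.pi * N p q r z)
      ≤ α * (∫ y in W \ D, v y) + 1 / 2 * ∫ y in D \ W, g y by
    have e : α * ((∫ y in W, N p q r y) - Real.pi * N p q r z)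
        = α * (∫ y in W, N p q r y) - α * (Real.pi * N p q r z) := by ring
    rw [e]
    linarith
  by_cases hc : (volume (W \ D)).toReal ≤ 10 / 11 * Real.pi
  · have hcen := h.centroid1 hW hb hv h0 hp hr hd hz hc
    have h3 : α * (10 * ∫ y in D \ W, v y) ≤ 1 / 2 * ∫ y in D \ W, g y := by
      rw [← integral_const_mul, ← integral_const_mul, ← integral_const_mul]
      apply setIntegral_mono_on (((int_cont cv hb2).const_mul _).const_mul _)
        (gDW.const_mul _) m2
      intro y hy
      have h4 := h.hh_ge (s := sq y) ⟨sq_nn y, (sq_in hy.1).le⟩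
      rw [← hα] at h4
      rcases (sq_nn y).eq_or_lt with he | hlt
      · have hN0 : N p q r y = 0 := N_zero he.symm
        simp [hvdef, hg, hN0]
      · have h5 : N p q r y = N p q r y / sq y * sq y := by field_simp
        have h6 := mul_le_mul_of_nonneg_left h4 (hNs y)
        have h7 : α * (10 * v y)
            = 1 / 2 * (N p q r y / sq y * (20 * α * (sq y * (φ (sq y) - 1) ^ 2))) := by
          simp only [hvdef]
          field_simp
          ring
        rw [h7]
        simp only [hg]
        linarith
    have h4 : α * (Real.pi * N p q r z)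
        ≤ α * ((∫ y in W \ D, v y) + 10 * ∫ y in D \ W, v y) :=
      mul_le_mul_of_nonneg_left hcen hα0.le
    linarith
  · have hcen := h.centroid2 hW hb hv h0 hp hr hd hz
    push Not at hc
    have h4 : α * (Real.pi * N p q r z)
        ≤ α * ((∫ y in W \ D, v y) + ∫ y in W ∩ D, v y) :=
      mul_le_mul_of_nonneg_left hcen hα0.le
    -- the mass of W ∩ D
    have hWfin : volume W ≠ ⊤ := by rw [hv]; exact ENNReal.ofReal_ne_top
    have hmass : (volume (W ∩ D)).toReal ≤ Real.pi / 11 := by
      have e1 : (volume W).toReal = (volume (W ∩ D)).toReal + (volume (W \ D)).toReal := by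
        rw [← ENNReal.toReal_add]
        · rw [measure_inter_add_sdiff W hDm]
        · exact (lt_of_le_of_lt (measure_mono inter_subset_left) hWfin.lt_top).ne
        · exact (lt_of_le_of_lt (measure_mono sdiff_subset) hWfin.lt_top).ne
      rw [hv, ENNReal.toReal_ofReal Real.pi_pos.le] at e1
      linarith
    -- total integral over D
    have hDtot : (∫ y in D \ W, g y) = (∫ y in D, g y) - ∫ y in W ∩ D, g y := by
      have e2 := integral_inter_add_sdiff hW gD
      rw [inter_comm] at e2
      linarith
    have hDge : (α + 1) * ((p + r) / 2 * (Real.pi * (1 / 2))) ≤ ∫ y in D, g y := by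
      have hc1 : Continuous fun s : ℝ => (α + 1) * (1 - s) := by fun_prop
      have e3 := disc_radial_nu hc1 p q r
      have e4 : ∫ s in (0 : ℝ)..1, (α + 1) * (1 - s) = (α + 1) * (1 / 2) := by
        rw [intervalIntegral.integral_const_mul, intervalIntegral.integral_sub
          (by simp) (by simp)]
        simp
        norm_num
      rw [e4] at e3
      have e5 : (α + 1) * ((p + r) / 2 * (Real.pi * (1 / 2)))
          = (p + r) / 2 * (Real.pi * ((α + 1) * (1 / 2))) := by ring
      rw [e5, ← e3]
      apply setIntegral_mono_on _ gD hDm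
      · intro y hy
        have h5 := h.hh_ge' (s := sq y) ⟨sq_nn y, (sq_in hy).le⟩
        rw [← hα] at h5
        simp only [hg]
        rw [mul_comm]
        exact mul_le_mul_of_nonneg_left h5 (hNs y)
      · apply Measure.integrableOn_of_bounded (M := (α + 1) * (p + r))
        · exact hDb.measure_lt_top.ne
        · have c5 : Continuous fun y : E => (α + 1) * (1 - sq y) := by
            have := sq_cont
            fun_prop
          exact (c5.measurable.mul (cN.measurable.div sq_cont.measurable)).aestronglyMeasurable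
        · filter_upwards [ae_restrict_mem hDm] with y hy
          have h6 := sq_in hy
          have h7 := sq_nn y
          have h8 : 0 ≤ (α + 1) * (1 - sq y) := mul_nonneg (by linarith) (by linarith)
          rw [Real.norm_of_nonneg (mul_nonneg h8 (hNs y))]
          apply mul_le_mul _ (hNs' y) (hNs y) (by linarith)
          nlinarith
    have ig : IntegrableOn (fun y => 1 / 2 * g y) (W ∩ D) := gWD.const_mul _
    have iv : IntegrableOn (fun y => α * v y) (W ∩ D) := (int_cont cv hb3).const_mul _
    have igv : IntegrableOn (fun y => 1 / 2 * g y + α * v y) (W ∩ D) := ig.add iv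
    have hsmall : (∫ y in W ∩ D, (1 / 2 * g y + α * v y)) ≤ 75 / 10 * (p + r) * (Real.pi / 11) := by
      have hfin3 : volume (W ∩ D) ≠ ⊤ :=
        (lt_of_le_of_lt (measure_mono inter_subset_left) hWfin.lt_top).ne
      calc (∫ y in W ∩ D, (1 / 2 * g y + α * v y)) ≤ ∫ y in W ∩ D, 75 / 10 * (p + r) := by
            apply setIntegral_mono_on igv (integrableOn_const hfin3) m3
            intro y hy
            have h5 := h.hh_le (s := sq y) ⟨sq_nn y, (sq_in hy.2).le⟩
            rw [← hα] at h5
            rcases (sq_nn y).eq_or_lt with he | hlt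
            · have hN0 : N p q r y = 0 := N_zero he.symm
              have e7 : 1 / 2 * g y + α * v y = 0 := by simp [hvdef, hg, hN0]
              rw [e7]
              exact mul_nonneg (by norm_num) hτ
            · have h7 : 1 / 2 * g y + α * v y = N p q r y / sq y *
                  (1 / 2 * hh α φ (sq y) + α * (sq y * (φ (sq y) - 1) ^ 2)) := by
                simp only [hvdef, hg]
                field_simp
                ring
              rw [h7]
              have h8 := mul_le_mul_of_nonneg_left h5 (hNs y)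
              have h9 := mul_le_mul_of_nonneg_right (hNs' y) (by norm_num : (0 : ℝ) ≤ 75 / 10)
              linarith
        _ = 75 / 10 * (p + r) * (volume (W ∩ D)).toReal := by
            rw [setIntegral_const, smul_eq_mul, Measure.real, mul_comm]
        _ ≤ _ := mul_le_mul_of_nonneg_left hmass (by positivity)
    have hsplit : (∫ y in W ∩ D, (1 / 2 * g y + α * v y))
        = 1 / 2 * (∫ y in W ∩ D, g y) + α * ∫ y in W ∩ D, v y := by
      rw [integral_add ig iv, integral_const_mul, integral_const_mul]
    have hpi := Real.pi_pos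
    have hnum : 75 / 10 * (p + r) * (Real.pi / 11)
        ≤ 1 / 2 * ((α + 1) * ((p + r) / 2 * (Real.pi * (1 / 2)))) := by
      have h9 : (576 : ℝ) / 100 ≤ α + 1 := by rw [hα]; linarith
      have h10 : 0 ≤ (p + r) * Real.pi := mul_nonneg hτ hpi.le
      nlinarith [mul_le_mul_of_nonneg_right h9 h10]
    rw [hDtot]
    linarith

end Pool.Agent.Neu
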