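import Pool.Agent.Neu.Defs
import Pool.Agent.Neu.Bes
import Pool.Agent.Neu.Main3
import Pool.Agent.Neu.Exist
import Pool.Agent.Neu.Grad
import Pool.Agent.Neu.Trial
import Pool.Agent.Neu.Lower
import Pool.Agent.Neu.Disc

/-! NEU-FIN: the theorem. -/

set_option autoImplicit false

open MeasureTheory Set

namespace Pool.Agent.Neu

variable {K : ℝ} {φ ψ : ℝ → ℝ}

theorem norm_sq_sq (x : E) : ‖x‖ ^ 2 = sq x := by
  rw [EuclideanSpace.norm_sq_eq, Fin.sum_univ_two, Real.norm_eq_abs, Real.norm_eq_abs, sq_abs,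
    sq_abs]
  rfl

theorem sq_continuous : Continuous sq := by
  unfold sq
  fun_prop

theorem intOn {F : Type*} [NormedAddCommGroup F] {f : E → F} (hf : Continuous f) {Ω : Set E}
    (hb : Bornology.IsBounded Ω) : IntegrableOn f Ω := by
  obtain ⟨R, hR⟩ := hb.subset_closedBall (0 : E)
  exact (hf.continuousOn.integrableOn_compact (isCompact_closedBall (0 : E) R)).mono_set hR

/-- `F_3 (Ω) ≤ 4 π^2 K` -/
theorem Prof.upper (h : Prof K φ ψ) {Ω : Set E} (hΩ : IsOpen Ω) (hb : Bornology.IsBounded Ω)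
    (hne : Ω.Nonempty) :
    (mu Ω 2 + mu Ω 3) * (volume Ω).toReal ^ 3 /
        (∫ x in Ω, ‖x - ((volume Ω).toReal)⁻¹ • ∫ y in Ω, y‖ ^ 2) ≤ 4 * Real.pi ^ 2 * K := by
  have hm : MeasurableSet Ω := hΩ.measurableSet
  have hfin : volume Ω ≠ ⊤ := hb.measure_lt_top.ne
  have hpos : 0 < volume Ω := hΩ.measure_pos volume hne
  set A : ℝ := (volume Ω).toReal with hAdef
  have hA : 0 < A := ENNReal.toReal_pos hpos.ne' hfin
  have hpi := Real.pi_pos
  have hK1 : (1 : ℝ) < K := by have := h.K_lo; linarith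
  have hK0 : (0 : ℝ) < K := by linarith
  set xb : E := A⁻¹ • ∫ y in Ω, y with hxb
  set I : ℝ := ∫ x in Ω, ‖x - xb‖ ^ 2 with hI
  have hI0 : 0 ≤ I := integral_nonneg fun x => by positivity
  set σ : ℝ := √(Real.pi / A) with hσdef
  have hσ : 0 < σ := Real.sqrt_pos.2 (by positivity)
  have hσ2 : σ ^ 2 = Real.pi / A := Real.sq_sqrt (by positivity)
  have hσA : σ ^ 2 * A = Real.pi := by rw [hσ2]; field_simp
  obtain ⟨a, b, c, t0, t1, t2⟩ := h.exists_T hm hb hσ hσA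
  set W : Set E := T σ a b c '' Ω with hWdef
  have hWm : MeasurableSet W := measurableSet_T hσ a b c hm
  have hWb : Bornology.IsBounded W := isBounded_T σ a b c hb
  have hWv : volume W = ENNReal.ofReal Real.pi := by
    rw [hWdef, volume_T hσ a b c hm, ← ENNReal.ofReal_toReal hfin,
      ← ENNReal.ofReal_mul (by positivity), ← hAdef, hσA]
  have key := fun f : E → ℝ => integral_T hσ a b c hm f
  have w0 : ∀ i, ∫ y in W, w φ i y = 0 := by
    intro i
    rw [hWdef, key, t0 i, mul_zero]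
  have w1 : ∫ y in W, (w φ 0 y ^ 2 - w φ 1 y ^ 2) = 0 := by
    rw [hWdef, key (fun y => w φ 0 y ^ 2 - w φ 1 y ^ 2), t1, mul_zero]
  have w2 : ∫ y in W, w φ 0 y * w φ 1 y = 0 := by
    rw [hWdef, key (fun y => w φ 0 y * w φ 1 y), t2, mul_zero]
  have hmain := h.main_ineq hWm hWb hWv w0 w1 w2 (Qp_nonneg σ a b) (Qr_nonneg σ a b) (Qdet σ a b)
    (fun i => centroid_T hσ a b c hm hb hσA i)
  -- the right-hand side
  have hR : ∫ y in W, N (Qp σ a b) (Qm σ a b) (Qr σ a b) (y - T σ a b c xb)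
      = σ ^ 2 * (σ ^ 4 * I) := by
    rw [hWdef, key (fun y => N (Qp σ a b) (Qm σ a b) (Qr σ a b) (y - T σ a b c xb))]
    congr 1
    rw [hI, ← integral_const_mul]
    refine integral_congr_ae (Filter.Eventually.of_forall fun x => ?_)
    exact N_T σ a b c x xb
  -- trial functions
  set v : Fin 2 → E → ℝ := fun i x => w φ i (T σ a b c x) with hv
  have vc : ∀ i, ContDiff ℝ 1 (v i) := fun i => h.contDiff_wT σ a b c i
  have hgr : Continuous fun x => ‖fderiv ℝ (v 0) x‖ ^ 2 :=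
    ((vc 0).continuous_fderiv one_ne_zero).norm.pow 2
  have hgr1 : Continuous fun x => ‖fderiv ℝ (v 1) x‖ ^ 2 :=
    ((vc 1).continuous_fderiv one_ne_zero).norm.pow 2
  have hE : (∫ x in Ω, ‖fderiv ℝ (v 0) x‖ ^ 2) + ∫ x in Ω, ‖fderiv ℝ (v 1) x‖ ^ 2
      = ∫ x in Ω, eQ φ ψ (Qp σ a b) (Qm σ a b) (Qr σ a b) (T σ a b c x) := by
    rw [← integral_add (intOn hgr hb) (intOn hgr1 hb)]
    exact integral_congr_ae (Filter.Eventually.of_forall fun x => h.grad_wT σ a b c x)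
  have hE2 : σ ^ 2 * ((∫ x in Ω, ‖fderiv ℝ (v 0) x‖ ^ 2) + ∫ x in Ω, ‖fderiv ℝ (v 1) x‖ ^ 2)
      ≤ 2 * (K - 1) * (σ ^ 2 * (σ ^ 4 * I)) := by
    rw [hE, ← hR, ← key]
    exact hmain
  have i0 : IntegrableOn (fun x => v 0 x ^ 2) Ω := intOn ((vc 0).continuous.pow 2) hb
  have i1 : IntegrableOn (fun x => v 1 x ^ 2) Ω := intOn ((vc 1).continuous.pow 2) hb
  have hsum : (∫ x in Ω, v 0 x ^ 2) + ∫ x in Ω, v 1 x ^ 2
      = ∫ x in Ω, sq (T σ a b c x) * φ (sq (T σ a b c x)) ^ 2 := by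
    rw [← integral_add i0 i1]
    refine integral_congr_ae (Filter.Eventually.of_forall fun x => ?_)
    simp only [hv, w, sq]
    ring
  have hdiff : (∫ x in Ω, v 0 x ^ 2) - ∫ x in Ω, v 1 x ^ 2 = 0 := by
    rw [← integral_sub i0 i1]
    exact t1
  have hmass : Real.pi * (1 - 1 / K)
      ≤ σ ^ 2 * ∫ x in Ω, sq (T σ a b c x) * φ (sq (T σ a b c x)) ^ 2 := by
    rw [← key (fun y => sq y * φ (sq y) ^ 2)]
    exact h.mass_ge hWm hWv
  set M : ℝ := ∫ x in Ω, v 0 x ^ 2 with hM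
  have hM1 : ∫ x in Ω, v 1 x ^ 2 = M := by linarith
  have hMge : A * (1 - 1 / K) ≤ 2 * M := by
    rw [← hsum, hM1, hσ2] at hmass
    have : Real.pi / A * (M + M) = Real.pi * (2 * M / A) := by ring
    rw [this] at hmass
    have h3 := le_of_mul_le_mul_left hmass hpi
    rwa [le_div_iff₀ hA, mul_comm] at h3
  have hK2 : 0 < 1 - 1 / K := by
    have : 1 / K < 1 := by rw [div_lt_one hK0]; exact hK1
    linarith
  have hMpos : 0 < M := by
    have : 0 < A * (1 - 1 / K) := mul_pos hA hK2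
    linarith
  have hmu := mu_add_le hΩ hb hne (v := v) vc t0 t2 hMpos (by
    intro i
    fin_cases i
    · rfl
    · exact hM1)
  have hE3 : ((∫ x in Ω, ‖fderiv ℝ (v 0) x‖ ^ 2) + ∫ x in Ω, ‖fderiv ℝ (v 1) x‖ ^ 2)
      ≤ 2 * (K - 1) * (σ ^ 4 * I) := by
    have : 2 * (K - 1) * (σ ^ 2 * (σ ^ 4 * I)) = σ ^ 2 * (2 * (K - 1) * (σ ^ 4 * I)) := by ring
    rw [this] at hE2
    exact le_of_mul_le_mul_left hE2 (by positivity)
  have hfin2 : mu Ω 2 + mu Ω 3 ≤ 2 * (K - 1) * (σ ^ 4 * I) / M :=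
    hmu.trans (div_le_div_of_nonneg_right hE3 hMpos.le)
  rcases hI0.eq_or_lt with hI00 | hIpos
  · rw [← hI00, div_zero]; positivity
  rw [div_le_iff₀ hIpos]
  have hσ4 : σ ^ 4 = (Real.pi / A) ^ 2 := by rw [← hσ2]; ring
  have hineq : 2 * (K - 1) * (σ ^ 4 * I) / M * A ^ 3 ≤ 4 * Real.pi ^ 2 * K * I := by
    rw [div_mul_eq_mul_div, div_le_iff₀ hMpos, hσ4]
    have e1 : 2 * (K - 1) * ((Real.pi / A) ^ 2 * I) * A ^ 3
        = 2 * Real.pi ^ 2 * I * K * (A * (1 - 1 / K)) := by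
      field_simp
    rw [e1]
    have e2 : 4 * Real.pi ^ 2 * K * I * M = 2 * Real.pi ^ 2 * I * K * (2 * M) := by ring
    rw [e2]
    exact mul_le_mul_of_nonneg_left hMge (by positivity)
  calc (mu Ω 2 + mu Ω 3) * A ^ 3 ≤ 2 * (K - 1) * (σ ^ 4 * I) / M * A ^ 3 :=
        mul_le_mul_of_nonneg_right hfin2 (by positivity)
    _ ≤ _ := hineq

/-- `4 π^2 K ≤ F_3 (D)` -/
theorem Prof.lower (h : Prof K φ ψ) :
    4 * Real.pi ^ 2 * K ≤ (mu D 2 + mu D 3) * (volume D).toReal ^ 3 /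
        (∫ x in D, ‖x - ((volume D).toReal)⁻¹ • ∫ y in D, y‖ ^ 2) := by
  have hpi := Real.pi_pos
  have hb : Bornology.IsBounded D := Metric.isBounded_ball
  have hne : D.Nonempty := ⟨0, by simp⟩
  have hP := fun (f : E → ℝ) (hf : ContDiff ℝ 1 f) (h0 : ∫ x in D, f x = 0) =>
    h.disc_poincare hf h0
  have m2 : K ≤ mu D 2 := le_mu Metric.isOpen_ball hb hne hP (Or.inl rfl)
  have m3 : K ≤ mu D 3 := le_mu Metric.isOpen_ball hb hne hP (Or.inr rfl)
  have hvol : (volume D).toReal = Real.pi := by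
    rw [disc_volume, ENNReal.toReal_ofReal hpi.le]
  have hcen : ∫ y in D, y = 0 := by
    ext i
    have := (EuclideanSpace.proj i : E →L[ℝ] ℝ).integral_comp_comm
      (intOn (f := fun y : E => y) continuous_id hb)
    have h2 := disc_odd (f := fun _ => (1 : ℝ)) continuous_const i
    simp only [one_mul] at h2
    have h3 : (∫ y in D, y) i = ∫ y in D, y i := by
      exact this.symm
    rw [h3, h2]
    rfl
  have hI : ∫ x in D, ‖x - ((volume D).toReal)⁻¹ • ∫ y in D, y‖ ^ 2 = Real.pi / 2 := by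
    rw [hcen]
    simp only [smul_zero, sub_zero]
    have : ∫ x in D, ‖x‖ ^ 2 = ∫ x in D, (fun s : ℝ => s) (sq x) :=
      integral_congr_ae (Filter.Eventually.of_forall fun x => norm_sq_sq x)
    rw [this, disc_radial continuous_id']
    rw [integral_id]
    ring
  rw [hI, hvol]
  have e : (mu D 2 + mu D 3) * Real.pi ^ 3 / (Real.pi / 2)
      = 2 * Real.pi ^ 2 * (mu D 2 + mu D 3) := by
    field_simp
  rw [e]
  have : 2 * K ≤ mu D 2 + mu D 3 := by linarith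
  calc 4 * Real.pi ^ 2 * K = 2 * Real.pi ^ 2 * (2 * K) := by ring
    _ ≤ _ := mul_le_mul_of_nonneg_left this (by positivity)

theorem main {Ω : Set E} (hΩ : IsOpen Ω) (hb : Bornology.IsBounded Ω) (hne : Ω.Nonempty) :
    (∑ k ∈ Finset.Icc 2 3, mu Ω k) * (volume Ω).toReal ^ 3 /
        (∫ x in Ω, ‖x - ((volume Ω).toReal)⁻¹ • ∫ y in Ω, y‖ ^ 2)
      ≤ (∑ k ∈ Finset.Icc 2 3, mu D k) * (volume D).toReal ^ 3 /
        (∫ x in D, ‖x - ((volume D).toReal)⁻¹ • ∫ y in D, y‖ ^ 2) := by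
  obtain ⟨K, φ, ψ, h⟩ := exists_prof
  have e : ∀ S : Set E, ∑ k ∈ Finset.Icc 2 3, mu S k = mu S 2 + mu S 3 := by
    intro S
    have : Finset.Icc 2 3 = ({2, 3} : Finset ℕ) := by decide
    rw [this, Finset.sum_pair (by decide)]
  rw [e, e]
  exact (h.upper hΩ hb hne).trans h.lower

end Pool.Agent.Neu
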